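import Pool.Agent.H13MD.Sym
import Pool.Agent.H713R2.AR.PR

set_option autoImplicit false

/-! # The critical orbit on a parameter ray with a dyadic angle -/

namespace Pool.Agent.H13MD

open Complex Metric Set Filter Topology Bornology Asymptotics Pool.Agent.H712R2
  Pool.Agent.H713R2 N62a1eb23
open scoped ComplexConjugate

theorem BB_near {β : ℂ → ℂ} (hβ : IsBeta 2 β) (n : ℕ) {x : ℂ} (hx : x ∈ ball (0 : ℂ) 1) :
    ‖BB 2 β n x - 1‖ ≤ 3 * ‖x‖ ^ (2 ^ (n + 1) - 1) := by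
  have hK : 2 ^ (n + 1) - 1 ≠ 0 := by
    have : 1 < 2 ^ (n + 1) := Nat.one_lt_pow (by omega) (by omega)
    omega
  obtain ⟨K, hKe⟩ := Nat.exists_eq_succ_of_ne_zero hK
  have h0 : BB 2 β n 0 = 1 := by rw [BB_at_zero le_rfl, hβ.zero, one_pow]
  have h1 := Complex.dist_le_mul_div_pow_of_mapsTo_ball_of_isLittleO (f := BB 2 β n) (c := 0)
    (z := x) (R₁ := 1) (R₂ := 3) (n := K) (BB_diff hβ.diff n) ?_ ?_ hx
  · rw [h0, dist_eq_norm, dist_zero_right, ← Nat.succ_eq_add_one, ← hKe, div_one] at h1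
    exact h1
  · intro y hy
    rw [mem_closedBall, h0, dist_eq_norm]
    calc ‖BB 2 β n y - 1‖ ≤ ‖BB 2 β n y‖ + ‖(1 : ℂ)‖ := norm_sub_le _ _
      _ ≤ 3 := by rw [norm_one]; linarith [AR.BB_le_two le_rfl hβ n hy]
  · rw [h0]
    obtain ⟨C, hC⟩ := hβ.order n
    have h2 : (fun x => BB 2 β n x - 1) =O[𝓝 0] (fun x : ℂ => x ^ (K + 1)) := by
      refine IsBigO.of_bound C ?_
      filter_upwards [ball_mem_nhds (0 : ℂ) (show (0 : ℝ) < 1 / 2 by norm_num)] with y hy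
      rw [norm_pow, ← Nat.succ_eq_add_one, ← hKe]
      exact hC y hy
    refine h2.trans_isLittleO ?_
    have h3 : (fun x : ℂ => x ^ (K + 1)) =o[𝓝 0] (fun x : ℂ => x ^ K) :=
      isLittleO_pow_pow (Nat.lt_succ_self K)
    refine h3.norm_right.congr (fun _ => rfl) (fun x => ?_)
    rw [sub_zero, norm_pow]

section

variable {ψ : ℂ → ℂ} (hψ : IsExteriorMap (multibrotSet 2) ψ)

include hψ

theorem P_near {w : ℂ} (hw : 1 < ‖w‖) (n : ℕ) :
    ‖P 2 (n + 1) (ψ w) - w ^ (2 ^ n)‖ ≤ 3 * ‖w‖ / ‖w‖ ^ (2 ^ n) := by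
  obtain ⟨β, hβ⟩ := exists_beta (d := 2) le_rfl
  obtain ⟨hx, hx0⟩ := inv_mem_ball hw
  have h1 := BB_near hβ n hx
  have h2 := BB_eq le_rfl β n w⁻¹ hx0
  rw [inv_inv, ← exteriorMap_unique hβ hψ hw] at h2
  have hw0 : w ≠ 0 := norm_pos_iff.1 (by linarith)
  have hpos : 0 < ‖w‖ := by linarith
  have h3 : P 2 (n + 1) (ψ w) - w ^ (2 ^ n) = w ^ (2 ^ n) * (BB 2 β n w⁻¹ - 1) := by
    rw [h2, inv_pow]
    field_simp
  rw [h3, norm_mul, norm_pow]
  refine (mul_le_mul_of_nonneg_left h1 (by positivity)).trans (le_of_eq ?_)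
  rw [norm_inv, inv_pow]
  have h4 : 2 ^ (n + 1) - 1 + 1 = 2 ^ n + 2 ^ n := by
    have : 1 ≤ 2 ^ (n + 1) := Nat.one_le_two_pow
    rw [Nat.sub_add_cancel this, pow_succ]
    ring
  have h5 : ‖w‖ ^ (2 ^ (n + 1) - 1) * ‖w‖ = ‖w‖ ^ (2 ^ n) * ‖w‖ ^ (2 ^ n) := by
    rw [← pow_succ, h4, pow_add]
  have h6 : ‖w‖ ^ (2 ^ (n + 1) - 1) ≠ 0 := by positivity
  have h7 : ‖w‖ ^ (2 ^ n) ≠ 0 := by positivity
  rw [eq_div_iff h7]
  field_simp
  rw [h5, sq]

/-- the points of the critical orbit on the ray -/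
theorem P_ne' {w : ℂ} (hw : 1 < ‖w‖) (n : ℕ) : P 2 (n + 1) (ψ w) ≠ 0 := by
  have hc := psi_notMem hψ hw
  intro h0
  apply hc
  rw [mem_multibrot_iff le_rfl]
  -- periodic critical orbit
  by_contra hcon
  push Not at hcon
  obtain ⟨k, hk⟩ := hcon
  have hper : ∀ j, P 2 (j + (n + 1)) (ψ w) = P 2 j (ψ w) := by
    intro j
    induction j with
    | zero => rw [zero_add, h0, P_zero]
    | succ j ih =>
      rw [show j + 1 + (n + 1) = j + (n + 1) + 1 by ring, P_succ, P_succ, ih]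
  have hper2 : ∀ i j, P 2 (j + i * (n + 1)) (ψ w) = P 2 j (ψ w) := by
    intro i
    induction i with
    | zero => intro j; simp
    | succ i ih =>
      intro j
      rw [show j + (i + 1) * (n + 1) = (j + i * (n + 1)) + (n + 1) by ring, hper, ih]
  have ht := tendsto_of_gt le_rfl hk
  rw [← tendsto_norm_atTop_iff_cobounded] at ht
  have h1 := ht.eventually (eventually_gt_atTop ‖P 2 0 (ψ w)‖)
  obtain ⟨N, hN⟩ := eventually_atTop.1 h1
  have h2 := hN (0 + N * (n + 1)) (by nlinarith)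
  rw [hper2] at h2
  exact lt_irrefl _ h2

theorem P_cont (n : ℕ) {ζ : ℂ} (hζ : ‖ζ‖ = 1) :
    ContinuousOn (fun r : ℝ => P 2 n (ψ (r * ζ))) (Ioi 1) := by
  refine (differentiable_P 2 n).continuous.comp_continuousOn ?_
  refine (psi_cont hψ).comp (by fun_prop) (fun s hs => ?_)
  have hs' : 1 < s := hs
  show 1 < ‖(s : ℂ) * ζ‖
  rw [norm_mul, hζ, Complex.norm_real, Real.norm_eq_abs, abs_of_pos (by linarith), mul_one]
  exact hs'

end

end Pool.Agent.H13MD
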