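import Pool.Agent.H13MD.Sym
import Pool.Agent.W677.MB5

set_option autoImplicit false

/-! # The parameter ray of angle `0` near the cusp `1/4` -/

namespace Pool.Agent.H13MD

open Complex Metric Set Filter Topology Bornology Pool.Agent.H712R2
  Pool.Agent.H713R2 N62a1eb23

/-- the orbit in the coordinate `y = x - 1/2` -/
noncomputable def yy (ε : ℝ) (n : ℕ) : ℝ := pr (1 / 4 + ε) n - 1 / 2

theorem yy_zero (ε : ℝ) : yy ε 0 = -1 / 2 := by simp [yy, pr]; norm_num

theorem yy_succ (ε : ℝ) (n : ℕ) : yy ε (n + 1) = yy ε n + yy ε n ^ 2 + ε := by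
  simp only [yy, pr_succ]
  ring

theorem yy_mono {ε : ℝ} (hε : 0 < ε) (n : ℕ) : yy ε n < yy ε (n + 1) := by
  rw [yy_succ]
  nlinarith [sq_nonneg (yy ε n)]

theorem yy_ge {ε : ℝ} (hε : 0 < ε) (n : ℕ) : -1 / 2 ≤ yy ε n := by
  induction n with
  | zero => rw [yy_zero]
  | succ n ih => exact ih.trans (yy_mono hε n).le

theorem yy_le {ε : ℝ} (hε : 0 < ε) {n N : ℕ} (h : n ≤ N) : yy ε n ≤ yy ε N :=
  (strictMono_nat_of_lt_succ (yy_mono hε)).monotone h

theorem arctan_step {ε s : ℝ} (hs : 0 < s) (hε : s ^ 2 = ε) (n : ℕ) :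
    Real.arctan (yy ε (n + 1) / s) - Real.arctan (yy ε n / s) =
      Real.arctan (s / (1 + yy ε n)) := by
  have hε0 : 0 < ε := by rw [← hε]; positivity
  have hy := yy_ge hε0 n
  obtain ⟨y, hy'⟩ : ∃ y, y = yy ε n := ⟨_, rfl⟩
  have h1 : 0 < 1 + y := by rw [hy']; linarith
  have h2 : y / s * (s / (1 + y)) < 1 := by
    have : y / s * (s / (1 + y)) = y / (1 + y) := by field_simp
    rw [this, div_lt_one h1]
    linarith
  rw [← hy']
  rw [sub_eq_iff_eq_add', Real.arctan_add h2, yy_succ, ← hy', ← hε]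
  congr 1
  have h3 : 1 - y / s * (s / (1 + y)) = 1 / (1 + y) := by
    field_simp
    ring
  rw [h3]
  field_simp

theorem arctan_sum {ε s : ℝ} (hs : 0 < s) (hε : s ^ 2 = ε) (N : ℕ) :
    ∑ n ∈ Finset.range N, Real.arctan (s / (1 + yy ε n)) =
      Real.arctan (yy ε N / s) + Real.arctan (1 / (2 * s)) := by
  have h1 : ∑ n ∈ Finset.range N, Real.arctan (s / (1 + yy ε n)) =
      Real.arctan (yy ε N / s) - Real.arctan (yy ε 0 / s) := by
    rw [← Finset.sum_range_sub (fun n => Real.arctan (yy ε n / s)) N]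
    exact Finset.sum_congr rfl fun n _ => (arctan_step hs hε n).symm
  rw [h1, yy_zero]
  have h2 : (-1 / 2 : ℝ) / s = -(1 / (2 * s)) := by field_simp
  rw [h2, Real.arctan_neg]
  ring

theorem sq_sum_le {ε : ℝ} (hε : 0 < ε) (N : ℕ) :
    ∑ n ∈ Finset.range N, yy ε n ^ 2 ≤ yy ε N + 1 / 2 := by
  induction N with
  | zero => rw [yy_zero]; norm_num
  | succ N ih =>
    rw [Finset.sum_range_succ, yy_succ]
    linarith

theorem log_sum {ε : ℝ} (hε : 0 < ε) (N : ℕ) :
    ∑ n ∈ Finset.range N, Real.log ((1 + yy ε n) ^ 2 + ε) =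
      Real.log (yy ε N ^ 2 + ε) - Real.log (1 / 4 + ε) := by
  induction N with
  | zero => rw [yy_zero]; norm_num
  | succ N ih =>
    rw [Finset.sum_range_succ, ih, yy_succ]
    have h1 : (yy ε N + yy ε N ^ 2 + ε) ^ 2 + ε =
        (yy ε N ^ 2 + ε) * ((1 + yy ε N) ^ 2 + ε) := by ring
    rw [h1, Real.log_mul (by positivity) (by positivity)]
    ring

theorem arctan_le {t : ℝ} (ht : 0 ≤ t) : Real.arctan t ≤ t := by
  have h1 := Real.le_tan (Real.arctan_nonneg.2 ht) (Real.arctan_lt_pi_div_two t)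
  rwa [Real.tan_arctan] at h1

theorem arctan_lower {t : ℝ} (ht : 0 ≤ t) : t - t ^ 3 ≤ Real.arctan t := by
  have hmono : MonotoneOn (fun t : ℝ => Real.arctan t - (t - t ^ 3)) (Ici 0) := by
    have hdiff : Differentiable ℝ (fun t : ℝ => Real.arctan t - (t - t ^ 3)) :=
      Real.differentiable_arctan.sub (by fun_prop)
    apply monotoneOn_of_deriv_nonneg (convex_Ici 0)
    · exact hdiff.continuous.continuousOn
    · exact hdiff.differentiableOn
    · intro x _
      have h1 : HasDerivAt (fun t : ℝ => Real.arctan t - (t - t ^ 3))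
          (1 / (1 + x ^ 2) - (1 - 3 * x ^ 2)) x := by
        have h2 := (Real.hasDerivAt_arctan x).sub ((hasDerivAt_id x).sub (hasDerivAt_pow 3 x))
        convert! h2 using 1
      rw [h1.deriv, sub_nonneg, le_div_iff₀ (by positivity)]
      nlinarith [sq_nonneg x, sq_nonneg (x ^ 2)]
  have h1 := hmono (mem_Ici.2 le_rfl) (mem_Ici.2 ht) ht
  simp at h1
  linarith

/-- the number of steps through the gate -/
theorem steps {ε s : ℝ} (hs : 0 < s) (hs1 : s ≤ 1) (hε : s ^ 2 = ε) {N : ℕ}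
    (h1 : 1 ≤ yy ε N) (h2 : yy ε N ≤ 5) : |N * s - Real.pi| ≤ 420 * s := by
  have hε0 : 0 < ε := by rw [← hε]; positivity
  have hε1 : ε ≤ 1 := by rw [← hε]; nlinarith
  have hy : ∀ n ∈ Finset.range N, -1 / 2 ≤ yy ε n ∧ yy ε n ≤ 5 := fun n hn =>
    ⟨yy_ge hε0 n, (yy_le hε0 (Finset.mem_range.1 hn).le).trans h2⟩
  obtain ⟨Θ, hΘ⟩ : ∃ Θ, Θ = ∑ n ∈ Finset.range N, Real.arctan (s / (1 + yy ε n)) := ⟨_, rfl⟩
  have hpi := Real.pi_gt_three
  have hpi2 := Real.pi_lt_d2
  -- the total angle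
  have hΘ1 : Θ ≤ Real.pi := by
    rw [hΘ, arctan_sum hs hε]
    have := Real.arctan_lt_pi_div_two (yy ε N / s)
    have := Real.arctan_lt_pi_div_two (1 / (2 * s))
    linarith
  have harc : ∀ x : ℝ, 0 < x → Real.pi / 2 - x⁻¹ ≤ Real.arctan x := by
    intro x hx
    have h3 := Real.arctan_inv_of_pos (inv_pos.2 hx)
    rw [inv_inv] at h3
    rw [h3]
    have h4 : Real.arctan x⁻¹ ≤ x⁻¹ := arctan_le (inv_pos.2 hx).le
    linarith
  have hΘ2 : Real.pi - 3 * s ≤ Θ := by
    rw [hΘ, arctan_sum hs hε]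
    have h3 := harc (yy ε N / s) (by positivity)
    have h4 := harc (1 / (2 * s)) (by positivity)
    have h5 : (yy ε N / s)⁻¹ ≤ s := by
      rw [inv_div, div_le_iff₀ (by linarith)]
      nlinarith
    have h6 : (1 / (2 * s))⁻¹ = 2 * s := by field_simp
    rw [h6] at h4
    linarith
  -- the individual terms
  have hterm : ∀ n ∈ Finset.range N, s / (1 + yy ε n) - 8 * s ^ 3 ≤
      Real.arctan (s / (1 + yy ε n)) ∧ Real.arctan (s / (1 + yy ε n)) ≤ s / (1 + yy ε n) := by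
    intro n hn
    obtain ⟨h3, -⟩ := hy n hn
    have h4 : 0 ≤ s / (1 + yy ε n) := div_nonneg hs.le (by linarith)
    have h5 : s / (1 + yy ε n) ≤ 2 * s := by
      rw [div_le_iff₀ (by linarith)]
      nlinarith
    refine ⟨?_, arctan_le h4⟩
    have h6 := arctan_lower h4
    have h7 : (s / (1 + yy ε n)) ^ 3 ≤ (2 * s) ^ 3 := pow_le_pow_left₀ h4 h5 3
    nlinarith
  have hsum1 : ∑ n ∈ Finset.range N, s / (1 + yy ε n) - N * (8 * s ^ 3) ≤ Θ := by
    have h3 : (N : ℝ) * (8 * s ^ 3) = ∑ n ∈ Finset.range N, 8 * s ^ 3 := by simp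
    rw [hΘ, h3, ← Finset.sum_sub_distrib]
    exact Finset.sum_le_sum fun n hn => (hterm n hn).1
  have hsum2 : Θ ≤ ∑ n ∈ Finset.range N, s / (1 + yy ε n) := by
    rw [hΘ]
    exact Finset.sum_le_sum fun n hn => (hterm n hn).2
  -- the sum of y / (1 + y)
  obtain ⟨T, hT⟩ : ∃ T, T = ∑ n ∈ Finset.range N, yy ε n / (1 + yy ε n) := ⟨_, rfl⟩
  have hsT : ∑ n ∈ Finset.range N, s / (1 + yy ε n) = s * (N - T) := by
    have h3 : (N : ℝ) = ∑ n ∈ Finset.range N, (1 : ℝ) := by simp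
    rw [hT, h3, ← Finset.sum_sub_distrib, Finset.mul_sum]
    refine Finset.sum_congr rfl fun n hn => ?_
    have := (hy n hn).1
    have h4 : 1 + yy ε n ≠ 0 := by linarith
    field_simp
    ring
  obtain ⟨Λ, hΛ⟩ : ∃ Λ, Λ = ∑ n ∈ Finset.range N, Real.log (1 + yy ε n) := ⟨_, rfl⟩
  have hTΛ1 : T ≤ Λ := by
    rw [hT, hΛ]
    refine Finset.sum_le_sum fun n hn => ?_
    have h3 : 0 < 1 + yy ε n := by linarith [(hy n hn).1]
    have h4 := Real.log_le_sub_one_of_pos (inv_pos.2 h3)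
    rw [Real.log_inv] at h4
    have h5 : yy ε n / (1 + yy ε n) = 1 - (1 + yy ε n)⁻¹ := by field_simp; ring
    rw [h5]
    linarith
  have hTΛ2 : Λ ≤ T + 11 := by
    have h3 : Λ ≤ T + ∑ n ∈ Finset.range N, 2 * yy ε n ^ 2 := by
      rw [hT, hΛ, ← Finset.sum_add_distrib]
      refine Finset.sum_le_sum fun n hn => ?_
      have h3 : 0 < 1 + yy ε n := by linarith [(hy n hn).1]
      have h4 := Real.log_le_sub_one_of_pos h3
      have h5 : yy ε n - yy ε n / (1 + yy ε n) ≤ 2 * yy ε n ^ 2 := by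
        have h6 : yy ε n - yy ε n / (1 + yy ε n) = yy ε n ^ 2 / (1 + yy ε n) := by
          field_simp; ring
        rw [h6, div_le_iff₀ h3]
        nlinarith [sq_nonneg (yy ε n), (hy n hn).1]
      linarith
    have h4 := sq_sum_le hε0 N
    rw [← Finset.mul_sum] at h3
    linarith
  have hΛ2 : 2 * Λ ≤ Real.log (yy ε N ^ 2 + ε) - Real.log (1 / 4 + ε) ∧
      Real.log (yy ε N ^ 2 + ε) - Real.log (1 / 4 + ε) ≤ 2 * Λ + N * (4 * ε) := by
    rw [← log_sum hε0 N, hΛ, Finset.mul_sum]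
    constructor
    · refine Finset.sum_le_sum fun n hn => ?_
      have h3 : 0 < 1 + yy ε n := by linarith [(hy n hn).1]
      have h4 : 2 * Real.log (1 + yy ε n) = Real.log ((1 + yy ε n) ^ 2) := by
        rw [Real.log_pow]; norm_num
      rw [h4]
      exact Real.log_le_log (by positivity) (by linarith)
    · have h3 : (N : ℝ) * (4 * ε) = ∑ n ∈ Finset.range N, 4 * ε := by simp
      rw [h3, ← Finset.sum_add_distrib]
      refine Finset.sum_le_sum fun n hn => ?_
      have h3 : 0 < 1 + yy ε n := by linarith [(hy n hn).1]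
      have h4 : 2 * Real.log (1 + yy ε n) = Real.log ((1 + yy ε n) ^ 2) := by
        rw [Real.log_pow]; norm_num
      have h5 : (1 + yy ε n) ^ 2 + ε = (1 + yy ε n) ^ 2 * (1 + ε / (1 + yy ε n) ^ 2) := by
        field_simp
      rw [h4, h5, Real.log_mul (by positivity) (by positivity)]
      have h6 := Real.log_le_sub_one_of_pos (show 0 < 1 + ε / (1 + yy ε n) ^ 2 by positivity)
      have h7 : ε / (1 + yy ε n) ^ 2 ≤ 4 * ε := by
        rw [div_le_iff₀ (by positivity)]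
        have h8 : 1 / 4 ≤ (1 + yy ε n) ^ 2 := by nlinarith [(hy n hn).1]
        nlinarith
      linarith
  have hlog1 : 0 ≤ Real.log (yy ε N ^ 2 + ε) := Real.log_nonneg (by nlinarith)
  have hlog2 : Real.log (yy ε N ^ 2 + ε) ≤ 5 := by
    have h3 : yy ε N ^ 2 + ε ≤ 2 ^ 5 := by nlinarith
    have h4 := Real.log_le_log (by positivity) h3
    rw [Real.log_pow] at h4
    push_cast at h4
    linarith [Real.log_two_lt_d9]
  have hlog3 : Real.log (1 / 4 + ε) ≤ 1 := by
    have h4 := Real.log_le_sub_one_of_pos (show 0 < 1 / 4 + ε by positivity)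
    linarith
  have hlog4 : -2 ≤ Real.log (1 / 4 + ε) := by
    have h3 : Real.log ((2 : ℝ)⁻¹ ^ 2) ≤ Real.log (1 / 4 + ε) :=
      Real.log_le_log (by positivity) (by norm_num; linarith)
    rw [Real.log_pow, Real.log_inv] at h3
    push_cast at h3
    linarith [Real.log_two_lt_d9]
  have hN0 : (0 : ℝ) ≤ N := Nat.cast_nonneg N
  -- crude bound of N
  have hNs : N * s ≤ 40 := by
    have h3 : (N : ℝ) * (s / 12) ≤ Θ := by
      rw [hΘ]
      have h4 : (N : ℝ) * (s / 12) = ∑ n ∈ Finset.range N, s / 12 := by simp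
      rw [h4]
      refine Finset.sum_le_sum fun n hn => ?_
      obtain ⟨h5, h6⟩ := hy n hn
      have h7 : s / 6 ≤ s / (1 + yy ε n) := div_le_div_of_nonneg_left hs.le (by linarith) (by linarith)
      have h8 : Real.arctan (s / 6) ≤ Real.arctan (s / (1 + yy ε n)) := Real.arctan_mono h7
      have h9 := arctan_lower (show 0 ≤ s / 6 by positivity)
      have h10 : (s / 6) ^ 3 ≤ s / 12 := by
        have : s ^ 3 ≤ s := by nlinarith
        nlinarith
      linarith
    linarith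
  have hNε : N * ε ≤ 40 * s := by
    rw [← hε]
    nlinarith
  have hNs3 : N * (8 * s ^ 3) ≤ 320 * s ^ 2 := by nlinarith
  have hΛ3 : |T| ≤ 15 + 80 * s := by
    rw [abs_le]
    constructor <;> nlinarith [hΛ2.1, hΛ2.2]
  have hTs : |s * T| ≤ s * (15 + 80 * s) := by
    rw [abs_mul, abs_of_pos hs]
    exact mul_le_mul_of_nonneg_left hΛ3 hs.le
  obtain ⟨h3, h4⟩ := abs_le.1 hTs
  rw [hsT] at hsum1 hsum2
  have hs2 : s ^ 2 ≤ s := by nlinarith
  have e1 : N * s ≤ Real.pi + s * (15 + 80 * s) + 320 * s ^ 2 := by linarith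
  have e2 : Real.pi - 3 * s - s * (15 + 80 * s) ≤ N * s := by linarith
  rw [abs_le]
  constructor
  · nlinarith
  · nlinarith

theorem yy_lower {ε : ℝ} (hε : 0 < ε) (n : ℕ) : -1 / 2 + n * ε ≤ yy ε n := by
  induction n with
  | zero => rw [yy_zero]; norm_num
  | succ n ih =>
    rw [yy_succ]
    push_cast
    nlinarith [sq_nonneg (yy ε n)]

/-- **the exterior map on the real axis near the cusp `1/4`** -/
theorem cusp {ψ : ℂ → ℂ} (hψ : IsExteriorMap (multibrotSet 2) ψ) :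
    ∃ h₁ : ℝ, 0 < h₁ ∧ h₁ ≤ 1 / 2 ∧ ∀ h ∈ Ioo 0 h₁,
      ‖ψ ((1 + h : ℝ) : ℂ) - 1 / 4 - (((Real.pi * Real.log 2) ^ 2 / (Real.log h) ^ 2 : ℝ) : ℂ)‖ ≤
        17000 / |Real.log h| ^ 3 := by
  refine ⟨Real.exp (-600), Real.exp_pos _, ?_, ?_⟩
  · have h1 : Real.exp (-600) ≤ Real.exp (-1) := Real.exp_le_exp.2 (by norm_num)
    have h2 : Real.exp (-1) ≤ 1 / 2 := by
      rw [Real.exp_neg, ← one_div, div_le_div_iff₀ (Real.exp_pos _) (by norm_num)]
      linarith [Real.exp_one_gt_d9]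
    exact h1.trans h2
  intro h hh
  obtain ⟨hh0, hh1⟩ := hh
  have hh2 : h < 2 / 5 := by
    have h1 : Real.exp (-600) ≤ Real.exp (-1) := Real.exp_le_exp.2 (by norm_num)
    have h2 : Real.exp (-1) ≤ 2 / 5 := by
      rw [Real.exp_neg, ← one_div, div_le_div_iff₀ (Real.exp_pos _) (by norm_num)]
      linarith [Real.exp_one_gt_d9]
    linarith
  obtain ⟨L, hL⟩ : ∃ L, L = -Real.log h := ⟨_, rfl⟩
  have hL600 : 600 ≤ L := by
    rw [hL]
    have := (Real.log_lt_log hh0 hh1)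
    rw [Real.log_exp] at this
    linarith
  obtain ⟨r, hr⟩ : ∃ r, r = 1 + h := ⟨_, rfl⟩
  have hr1 : 1 < r := by rw [hr]; linarith
  have hrn : ‖(r : ℂ)‖ = r := by
    rw [Complex.norm_real, Real.norm_eq_abs, abs_of_pos (by linarith)]
  obtain ⟨c, hc, hc1⟩ := psi_real_pos hψ hr1
  obtain ⟨ε, hε⟩ : ∃ ε, ε = c - 1 / 4 := ⟨_, rfl⟩
  have hce : c = 1 / 4 + ε := by rw [hε]; ring
  have hε0 : 0 < ε := by rw [hε]; linarith
  have hPn : ∀ n, ‖P 2 n (ψ r)‖ = |pr c n| := by
    intro n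
    rw [hc, P_real, Complex.norm_real, Real.norm_eq_abs]
  have hPle : ∀ n, |pr c (n + 1)| ≤ 2 * r ^ (2 ^ n) := by
    intro n
    rw [← hPn]
    have := Pool.Agent.W677.MB.P_le_two hψ (z := (r : ℂ)) (by rw [hrn]; exact hr1) n
    rwa [hrn] at this
  have hε1 : ε ≤ 1 := by
    by_contra hcon
    push Not at hcon
    have h1 := (le_abs_self _).trans (hPle 2)
    have h2 : r ^ (2 ^ 2) ≤ (7 / 5) ^ (2 ^ 2) := pow_le_pow_left₀ (by linarith) (by linarith) _
    have h3 : 5 / 4 < c := by linarith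
    have h4 : pr c (2 + 1) = ((c ^ 2 + c) ^ 2 + c) := by simp [pr]
    rw [h4] at h1
    have h5 : 25 / 16 + 5 / 4 < c ^ 2 + c := by nlinarith
    have h6 : (25 / 16 + 5 / 4) ^ 2 < (c ^ 2 + c) ^ 2 := pow_lt_pow_left₀ h5 (by norm_num) (by norm_num)
    rw [show (2 : ℕ) ^ 2 = 4 by norm_num] at h1 h2
    norm_num at h2 h6
    linarith
  obtain ⟨s, hs⟩ : ∃ s, s = Real.sqrt ε := ⟨_, rfl⟩
  have hs0 : 0 < s := by rw [hs]; exact Real.sqrt_pos.2 hε0
  have hs2 : s ^ 2 = ε := by rw [hs]; exact Real.sq_sqrt hε0.le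
  have hs1 : s ≤ 1 := by nlinarith
  have hyp : ∀ n, pr c n = yy ε n + 1 / 2 := by
    intro n
    simp only [yy]
    rw [hce]
    ring
  -- the escape time
  have hex : ∃ n, 3 / 2 < yy ε n := by
    obtain ⟨n, hn⟩ := exists_nat_gt (2 / ε)
    refine ⟨n, ?_⟩
    have := yy_lower hε0 n
    rw [div_lt_iff₀ hε0] at hn
    linarith
  classical
  obtain ⟨N, hN⟩ : ∃ N, N = Nat.find hex := ⟨_, rfl⟩
  have hN1 : 3 / 2 < yy ε N := by rw [hN]; exact Nat.find_spec hex
  have hN2 : ∀ m, m < N → yy ε m ≤ 3 / 2 := fun m hm => by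
    rw [hN] at hm
    exact not_lt.1 (Nat.find_min hex hm)
  have hy1 : yy ε 1 = -1 / 4 + ε := by
    rw [show (1 : ℕ) = 0 + 1 by rfl, yy_succ, yy_zero]
    ring
  have hNge : 2 ≤ N := by
    by_contra hcon
    push Not at hcon
    interval_cases N
    · rw [yy_zero] at hN1; linarith
    · rw [hy1] at hN1; linarith
  obtain ⟨M, rfl⟩ := Nat.exists_eq_add_of_le hNge
  have hM : yy ε (M + 1) ≤ 3 / 2 := hN2 (M + 1) (by omega)
  have hN5 : yy ε (2 + M) ≤ 5 := by
    rw [show 2 + M = (M + 1) + 1 by ring, yy_succ]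
    have := yy_ge hε0 (M + 1)
    nlinarith
  have hst := steps hs0 hs1 hs2 (N := 2 + M) (by linarith) hN5
  -- comparison with the potential
  have hgl := Pool.Agent.W677.MB.green_lower hψ (z := (r : ℂ)) (by rw [hrn]; exact hr1) (n := M)
    (by rw [hc, Complex.norm_real, Real.norm_eq_abs, abs_of_pos (by linarith)]; linarith)
    (by
      rw [hPn, hyp, abs_of_nonneg (by linarith [yy_ge hε0 (M + 1)])]
      linarith)
  rw [hrn] at hgl
  have hup : 2 < r ^ (2 ^ (2 + M)) := by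
    have h1 := (le_abs_self _).trans (hPle (2 + M))
    have h2 : 4 < pr c (2 + M + 1) := by
      rw [pr_succ, hyp (2 + M)]
      nlinarith
    linarith
  have hlr1 : Real.log r ≤ h := by
    have := Real.log_le_sub_one_of_pos (show 0 < r by linarith)
    rw [hr] at this ⊢
    linarith
  have hlr2 : h / 2 ≤ Real.log r := by
    have h1 := Real.log_le_sub_one_of_pos (show 0 < r⁻¹ by positivity)
    rw [Real.log_inv] at h1
    have h2 : r⁻¹ ≤ 1 - h / 2 := by
      rw [inv_le_comm₀ (by linarith) (by linarith), hr]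
      rw [inv_le_comm₀ (by linarith) (by linarith), ← one_div, div_le_iff₀ (by linarith)]
      nlinarith
    linarith
  have hlog3 : Real.log 3 ≤ 2 := by
    have := Real.log_le_sub_one_of_pos (show (0 : ℝ) < 3 by norm_num)
    linarith
  have hl2a := Real.log_two_gt_d9
  have hl2b := Real.log_two_lt_d9
  have hk1 : 2 ^ (2 + M) * h ≤ 16 := by
    have h1 := Real.log_le_log (by positivity) hgl
    rw [Real.log_pow] at h1
    push_cast at h1
    have h2 : (2 : ℝ) ^ M * (h / 2) ≤ 2 ^ M * Real.log r := mul_le_mul_of_nonneg_left hlr2 (by positivity)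
    have h3 : (2 : ℝ) ^ (2 + M) * h = 8 * (2 ^ M * (h / 2)) := by rw [pow_add]; ring
    rw [h3]
    linarith
  have hk2 : 1 / 2 ≤ 2 ^ (2 + M) * h := by
    have h1 := Real.log_lt_log (by norm_num) hup
    rw [Real.log_pow] at h1
    push_cast at h1
    have h2 : (2 : ℝ) ^ (2 + M) * Real.log r ≤ 2 ^ (2 + M) * h :=
      mul_le_mul_of_nonneg_left hlr1 (by positivity)
    linarith
  have hk3 : |(2 + M : ℕ) * Real.log 2 - L| ≤ 3 := by
    have h1 := Real.log_le_log (by positivity) hk1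
    have h2 := Real.log_le_log (by norm_num) hk2
    rw [Real.log_mul (by positivity) hh0.ne', Real.log_pow] at h1 h2
    have h3 : Real.log 16 = 4 * Real.log 2 := by
      rw [show (16 : ℝ) = 2 ^ 4 by norm_num, Real.log_pow]; norm_num
    have h4 : Real.log (1 / 2) = -Real.log 2 := by rw [one_div, Real.log_inv]
    rw [h3] at h1
    rw [h4] at h2
    rw [abs_le, hL]
    constructor <;> linarith
  obtain ⟨κ, hκ⟩ : ∃ κ, κ = Real.pi * Real.log 2 := ⟨_, rfl⟩
  have hpi := Real.pi_lt_d2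
  have hpi3 := Real.pi_gt_three
  have hκ1 : 0 < κ := by rw [hκ]; positivity
  have hκ2 : κ ≤ 3 := by rw [hκ]; nlinarith
  have hmain : |s * L - κ| ≤ 300 * s := by
    have h1 : s * L - κ = -(s * ((2 + M : ℕ) * Real.log 2 - L)) +
        ((2 + M : ℕ) * s - Real.pi) * Real.log 2 := by rw [hκ]; ring
    rw [h1]
    refine (abs_add_le _ _).trans ?_
    rw [abs_neg, abs_mul, abs_mul, abs_of_pos hs0, abs_of_pos (show 0 < Real.log 2 by linarith)]
    have h2 : s * |(2 + M : ℕ) * Real.log 2 - L| ≤ s * 3 := mul_le_mul_of_nonneg_left hk3 hs0.le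
    have h3 : |(2 + M : ℕ) * s - Real.pi| * Real.log 2 ≤ 420 * s * 0.7 :=
      mul_le_mul hst (by linarith) (by linarith) (by positivity)
    linarith
  have hL0 : 0 < L := by linarith
  have hsL : s ≤ 6 / L := by
    rw [le_div_iff₀ hL0]
    have := (abs_le.1 hmain).2
    nlinarith
  have hd1 : |s - κ / L| ≤ 1800 / L ^ 2 := by
    have h1 : s - κ / L = (s * L - κ) / L := by field_simp
    rw [h1, abs_div, abs_of_pos hL0, div_le_div_iff₀ hL0 (by positivity)]
    have h2 : s * L ≤ 6 := by rwa [le_div_iff₀ hL0] at hsL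
    calc |s * L - κ| * L ^ 2 ≤ 300 * s * L ^ 2 := mul_le_mul_of_nonneg_right hmain (by positivity)
      _ = 300 * (s * L) * L := by ring
      _ ≤ 300 * 6 * L := by gcongr
      _ = 1800 * L := by ring
  have hd2 : |s + κ / L| ≤ 9 / L := by
    rw [abs_of_pos (by positivity)]
    have h1 : κ / L ≤ 3 / L := div_le_div_of_nonneg_right hκ2 hL0.le
    have h2 : 9 / L = 6 / L + 3 / L := by ring
    linarith
  have e1 : ψ ((1 + h : ℝ) : ℂ) - 1 / 4 -
      (((Real.pi * Real.log 2) ^ 2 / (Real.log h) ^ 2 : ℝ) : ℂ) =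
      (((s - κ / L) * (s + κ / L) : ℝ) : ℂ) := by
    rw [← hr, hc, ← hκ]
    have h1 : (Real.log h) ^ 2 = L ^ 2 := by rw [hL]; ring
    rw [h1, hce, ← hs2]
    push_cast
    field_simp
    ring
  rw [e1, Complex.norm_real, Real.norm_eq_abs, abs_mul]
  have h1 : |Real.log h| = L := by
    rw [hL, abs_of_neg (by linarith)]
  rw [h1]
  calc |s - κ / L| * |s + κ / L| ≤ 1800 / L ^ 2 * (9 / L) :=
        mul_le_mul hd1 hd2 (abs_nonneg _) (by positivity)
    _ = 16200 / L ^ 3 := by field_simp; ring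
    _ ≤ 17000 / L ^ 3 := by gcongr; norm_num

end Pool.Agent.H13MD
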