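import Mathlib

set_option autoImplicit false

/-! # Fejér's Tauberian theorem -/

namespace Pool.Agent.H13MD

open Filter Topology Set

theorem one_sub_inv_pow_le {h : ℝ} (hh : 0 ≤ h) (m : ℕ) : 1 - ((1 + h) ^ m)⁻¹ ≤ m * h := by
  have h0 : 0 < 1 + h := by linarith
  obtain ⟨x, hx⟩ : ∃ x, x = (1 + h)⁻¹ := ⟨_, rfl⟩
  have hx0 : 0 < x := by rw [hx]; positivity
  have hx1 : 1 - x ≤ h := by
    have : 1 - x = h / (1 + h) := by rw [hx]; field_simp; ring
    rw [this, div_le_iff₀ h0]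
    nlinarith
  have h1 := one_add_mul_le_pow (show -2 ≤ -(1 - x) by linarith) m
  rw [show 1 + -(1 - x) = x by ring] at h1
  rw [← inv_pow, ← hx]
  have h2 : (m : ℝ) * (1 - x) ≤ m * h := mul_le_mul_of_nonneg_left hx1 (Nat.cast_nonneg m)
  linarith

theorem fejer {B : ℕ → ℝ} (hB : Summable fun m : ℕ => (m : ℝ) * B m ^ 2) {S : ℝ → ℝ} {s h₁ : ℝ}
    (hh₁ : 0 < h₁) (hS : ∀ h ∈ Ioo 0 h₁, HasSum (fun m => B m / (1 + h) ^ m) (S h))
    (hs : Tendsto S (𝓝[>] 0) (𝓝 s)) :
    Tendsto (fun N => ∑ m ∈ Finset.range N, B m) atTop (𝓝 s) := by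
  -- reduce to the difference
  have hN0 : Tendsto (fun N : ℕ => 1 / ((N : ℝ) + 1)) atTop (𝓝[>] 0) := by
    rw [tendsto_nhdsWithin_iff]
    exact ⟨tendsto_one_div_add_atTop_nhds_zero_nat, Eventually.of_forall fun N => by
      show (0 : ℝ) < _; positivity⟩
  have h1 : Tendsto (fun N : ℕ => S (1 / ((N : ℝ) + 1))) atTop (𝓝 s) := hs.comp hN0
  suffices h2 : Tendsto (fun N : ℕ => ∑ m ∈ Finset.range (N + 1), B m - S (1 / ((N : ℝ) + 1)))
      atTop (𝓝 0) by
    have h3 := h2.add h1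
    simp only [sub_add_cancel, zero_add] at h3
    exact (tendsto_add_atTop_iff_nat (f := fun N => ∑ m ∈ Finset.range N, B m) 1).1 h3
  rw [Metric.tendsto_atTop]
  intro ε₀ hε₀
  obtain ⟨ε, hε⟩ : ∃ ε, ε = ε₀ / 4 := ⟨_, rfl⟩
  have hε1 : 0 < ε := by rw [hε]; linarith
  -- the tail
  have htail := tendsto_sum_nat_add (fun m : ℕ => (m : ℝ) * B m ^ 2)
  obtain ⟨M, hM⟩ := (htail.eventually (gt_mem_nhds (show (0 : ℝ) < ε ^ 2 by positivity))).exists
  have hMs : HasSum (fun m : ℕ => ((m + M : ℕ) : ℝ) * B (m + M) ^ 2)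
      (∑' m : ℕ, ((m + M : ℕ) : ℝ) * B (m + M) ^ 2) :=
    ((summable_nat_add_iff M).2 hB).hasSum
  -- the function `if M ≤ m then m B m ^ 2 else 0`
  have hg : HasSum (fun m : ℕ => if M ≤ m then (m : ℝ) * B m ^ 2 else 0)
      (∑' m : ℕ, ((m + M : ℕ) : ℝ) * B (m + M) ^ 2) := by
    rw [← hasSum_nat_add_iff' M]
    have h4 : ∑ i ∈ Finset.range M, (if M ≤ i then (i : ℝ) * B i ^ 2 else 0) = 0 :=
      Finset.sum_eq_zero fun i hi => by
        rw [if_neg (not_le.2 (Finset.mem_range.1 hi))]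
    rw [h4, sub_zero]
    refine hMs.congr_fun fun m => ?_
    rw [if_pos (by omega)]
  obtain ⟨CM, hCM⟩ : ∃ CM, CM = ∑ m ∈ Finset.range M, (m : ℝ) * |B m| := ⟨_, rfl⟩
  have hCM0 : 0 ≤ CM := by rw [hCM]; positivity
  obtain ⟨N₀, hN₀⟩ := exists_nat_gt (max (CM / ε) (1 / h₁))
  refine ⟨N₀, fun N hN => ?_⟩
  have hNr : max (CM / ε) (1 / h₁) < (N : ℝ) + 1 := by
    have : (N₀ : ℝ) ≤ N := by exact_mod_cast hN
    linarith
  obtain ⟨n, hn⟩ : ∃ n : ℝ, n = (N : ℝ) + 1 := ⟨_, rfl⟩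
  have hn0 : 0 < n := by rw [hn]; positivity
  have hn1 : CM / n < ε := by
    have h5 : CM / ε < n := by rw [hn]; exact lt_of_le_of_lt (le_max_left _ _) hNr
    rw [div_lt_iff₀ hε1] at h5
    rw [div_lt_iff₀ hn0]
    linarith
  obtain ⟨h, hh⟩ : ∃ h, h = 1 / ((N : ℝ) + 1) := ⟨_, rfl⟩
  have hhn : h = 1 / n := by rw [hh, hn]
  have hh0 : 0 < h := by rw [hhn]; positivity
  have hh1 : h < h₁ := by
    have h5 : 1 / h₁ < n := by rw [hn]; exact lt_of_le_of_lt (le_max_right _ _) hNr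
    rw [hhn, div_lt_iff₀ hn0]
    rwa [div_lt_iff₀ hh₁, mul_comm] at h5
  have hhl1 : h ≤ 1 := by
    rw [hhn, div_le_one hn0, hn]
    have : (0 : ℝ) ≤ N := Nat.cast_nonneg N
    linarith
  have hS1 := hS h ⟨hh0, hh1⟩
  -- the difference as a series
  have hfin : HasSum (fun m : ℕ => if m < N + 1 then B m else 0)
      (∑ m ∈ Finset.range (N + 1), B m) := by
    have h5 : HasSum (fun m : ℕ => if m < N + 1 then B m else 0)
        (∑ m ∈ Finset.range (N + 1), if m < N + 1 then B m else 0) :=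
      hasSum_sum_of_ne_finset_zero (fun m hm => by
        rw [Finset.mem_range] at hm
        rw [if_neg hm])
    have h6 : ∑ m ∈ Finset.range (N + 1), (if m < N + 1 then B m else 0) =
        ∑ m ∈ Finset.range (N + 1), B m :=
      Finset.sum_congr rfl fun m hm => by rw [if_pos (Finset.mem_range.1 hm)]
    rwa [h6] at h5
  have hdiff := hfin.sub hS1
  -- the dominating series
  obtain ⟨x, hx⟩ : ∃ x, x = (1 + h)⁻¹ := ⟨_, rfl⟩
  have hx0 : 0 < x := by rw [hx]; positivity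
  have hx1 : x < 1 := by rw [hx]; exact inv_lt_one_of_one_lt₀ (by linarith)
  have hgeo := (hasSum_geometric_of_lt_one hx0.le hx1).mul_left (ε / (2 * n))
  have hd1 : HasSum (fun m : ℕ => if m < M then (m : ℝ) * |B m| / n else 0) (CM / n) := by
    have h5 : HasSum (fun m : ℕ => if m < M then (m : ℝ) * |B m| / n else 0)
        (∑ m ∈ Finset.range M, if m < M then (m : ℝ) * |B m| / n else 0) :=
      hasSum_sum_of_ne_finset_zero (fun m hm => by
        rw [Finset.mem_range] at hm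
        rw [if_neg hm])
    have h6 : ∑ m ∈ Finset.range M, (if m < M then (m : ℝ) * |B m| / n else 0) = CM / n := by
      rw [hCM, Finset.sum_div]
      exact Finset.sum_congr rfl fun m hm => by rw [if_pos (Finset.mem_range.1 hm)]
    rwa [h6] at h5
  have hd2 := hg.mul_left (1 / (2 * ε))
  have hd3 : HasSum (fun m : ℕ => if m < N + 1 then ε / (2 * n ^ 2) * (m : ℝ) else 0)
      (∑ m ∈ Finset.range (N + 1), ε / (2 * n ^ 2) * (m : ℝ)) := by
    have h5 : HasSum (fun m : ℕ => if m < N + 1 then ε / (2 * n ^ 2) * (m : ℝ) else 0)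
        (∑ m ∈ Finset.range (N + 1), if m < N + 1 then ε / (2 * n ^ 2) * (m : ℝ) else 0) :=
      hasSum_sum_of_ne_finset_zero (fun m hm => by
        rw [Finset.mem_range] at hm
        rw [if_neg hm])
    have h6 : ∑ m ∈ Finset.range (N + 1), (if m < N + 1 then ε / (2 * n ^ 2) * (m : ℝ) else 0) =
        ∑ m ∈ Finset.range (N + 1), ε / (2 * n ^ 2) * (m : ℝ) :=
      Finset.sum_congr rfl fun m hm => by rw [if_pos (Finset.mem_range.1 hm)]
    rwa [h6] at h5
  have hdom := ((hd1.add hd2).add hd3).add hgeo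
  have hbound : ∀ m : ℕ, |(if m < N + 1 then B m else 0) - B m / (1 + h) ^ m| ≤
      (if m < M then (m : ℝ) * |B m| / n else 0) +
        1 / (2 * ε) * (if M ≤ m then (m : ℝ) * B m ^ 2 else 0) +
        (if m < N + 1 then ε / (2 * n ^ 2) * (m : ℝ) else 0) + ε / (2 * n) * x ^ m := by
    intro m
    have hm0 : (0 : ℝ) ≤ m := Nat.cast_nonneg m
    have hxm : 0 < x ^ m := by positivity
    have hdiv : B m / (1 + h) ^ m = B m * x ^ m := by rw [hx, inv_pow, div_eq_mul_inv]
    have hx1m : x ^ m ≤ 1 := pow_le_one₀ hx0.le hx1.le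
    have hn12 : 0 ≤ 1 / (2 * ε) * ((m : ℝ) * B m ^ 2) := by positivity
    have hgn : 0 ≤ ε / (2 * n) * x ^ m := by positivity
    have h3n : 0 ≤ ε / (2 * n ^ 2) * (m : ℝ) := by positivity
    have h1n : 0 ≤ (m : ℝ) * |B m| / n := by positivity
    rw [hdiv]
    by_cases hmN : m < N + 1
    · rw [if_pos hmN, if_pos hmN]
      have h7 : B m - B m * x ^ m = B m * (1 - x ^ m) := by ring
      have h8 : 1 - x ^ m ≤ m / n := by
        have := one_sub_inv_pow_le hh0.le m
        rw [← inv_pow, ← hx, hhn] at this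
        linarith [show (m : ℝ) * (1 / n) = m / n by ring]
      rw [h7, abs_mul, abs_of_nonneg (by linarith : 0 ≤ 1 - x ^ m)]
      have h9 : |B m| * (1 - x ^ m) ≤ |B m| * (m / n) :=
        mul_le_mul_of_nonneg_left h8 (abs_nonneg _)
      by_cases hmM : m < M
      · rw [if_pos hmM, if_neg (by omega)]
        have h10 : |B m| * (m / n) = m * |B m| / n := by ring
        linarith
      · rw [if_neg hmM, if_pos (by omega)]
        have h10 : |B m| * (m / n) ≤ 1 / (2 * ε) * ((m : ℝ) * B m ^ 2) + ε / (2 * n ^ 2) * m := by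
          have h11 : 0 ≤ (m : ℝ) / (2 * ε) * (|B m| - ε / n) ^ 2 := by positivity
          have h12 : (m : ℝ) / (2 * ε) * (|B m| - ε / n) ^ 2 =
              1 / (2 * ε) * ((m : ℝ) * |B m| ^ 2) + ε / (2 * n ^ 2) * m - |B m| * (m / n) := by
            field_simp
            ring
          rw [sq_abs] at h12
          linarith
        linarith
    · rw [if_neg hmN, if_neg hmN, zero_sub, abs_neg, abs_mul, abs_of_pos hxm]
      have hmn : n ≤ m := by
        rw [hn]
        exact_mod_cast not_lt.1 hmN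
      have hm0' : (0 : ℝ) < m := lt_of_lt_of_le hn0 hmn
      by_cases hmM : m < M
      · rw [if_pos hmM, if_neg (by omega)]
        have h10 : |B m| * x ^ m ≤ m * |B m| / n := by
          rw [le_div_iff₀ hn0]
          have : |B m| * x ^ m * n ≤ |B m| * 1 * m := by gcongr
          linarith
        linarith
      · rw [if_neg hmM, if_pos (by omega)]
        have h10 : |B m| * x ^ m ≤ 1 / (2 * ε) * ((m : ℝ) * B m ^ 2) + ε / (2 * n) * x ^ m := by
          have h11 : 0 ≤ (m : ℝ) / (2 * ε) * (|B m| - ε * x ^ m / m) ^ 2 := by positivity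
          have h12 : (m : ℝ) / (2 * ε) * (|B m| - ε * x ^ m / m) ^ 2 =
              1 / (2 * ε) * ((m : ℝ) * |B m| ^ 2) + ε / (2 * m) * (x ^ m) ^ 2 - |B m| * x ^ m := by
            field_simp
            ring
          rw [sq_abs] at h12
          have h13 : ε / (2 * m) * (x ^ m) ^ 2 ≤ ε / (2 * n) * x ^ m := by
            have h14 : (x ^ m) ^ 2 ≤ x ^ m := by nlinarith
            have h15 : ε / (2 * m) ≤ ε / (2 * n) := by gcongr
            calc ε / (2 * m) * (x ^ m) ^ 2 ≤ ε / (2 * m) * x ^ m :=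
                  mul_le_mul_of_nonneg_left h14 (by positivity)
              _ ≤ _ := mul_le_mul_of_nonneg_right h15 hxm.le
          linarith
        linarith
  have hfinal := hdiff.norm_le_of_bounded hdom (fun m => by rw [Real.norm_eq_abs]; exact hbound m)
  rw [Real.dist_eq, sub_zero, ← hh]
  rw [Real.norm_eq_abs] at hfinal
  refine lt_of_le_of_lt hfinal ?_
  -- the value of the dominating series
  have hv2 : 1 / (2 * ε) * (∑' m : ℕ, ((m + M : ℕ) : ℝ) * B (m + M) ^ 2) ≤ ε / 2 := by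
    have h5 : ∑' m : ℕ, ((m + M : ℕ) : ℝ) * B (m + M) ^ 2 ≤ ε ^ 2 := hM.le
    calc 1 / (2 * ε) * (∑' m : ℕ, ((m + M : ℕ) : ℝ) * B (m + M) ^ 2) ≤ 1 / (2 * ε) * ε ^ 2 :=
          mul_le_mul_of_nonneg_left h5 (by positivity)
      _ = ε / 2 := by field_simp
  have hv3 : ∑ m ∈ Finset.range (N + 1), ε / (2 * n ^ 2) * (m : ℝ) ≤ ε / 2 := by
    have h5 : ∀ m ∈ Finset.range (N + 1), ε / (2 * n ^ 2) * (m : ℝ) ≤ ε / (2 * n ^ 2) * n := by
      intro m hm
      have : (m : ℝ) ≤ n := by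
        rw [hn]
        exact_mod_cast (Finset.mem_range.1 hm).le
      gcongr
    refine (Finset.sum_le_sum h5).trans (le_of_eq ?_)
    rw [Finset.sum_const, Finset.card_range, nsmul_eq_mul]
    push_cast
    rw [← hn]
    field_simp
  have hv4 : ε / (2 * n) * (1 - x)⁻¹ ≤ ε := by
    have h5 : (1 - x)⁻¹ = (1 + h) * n := by
      rw [hx, hhn]
      field_simp
      ring
    rw [h5]
    calc ε / (2 * n) * ((1 + h) * n) = ε * (1 + h) / 2 := by field_simp
      _ ≤ ε := by nlinarith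
  rw [hε] at *
  linarith

end Pool.Agent.H13MD
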