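import Pool.Agent.H13MD.Land
import Pool.Agent.H13MD.Cusp
import Pool.Agent.H13MD.Fej

set_option autoImplicit false

/-! # The Laurent coefficients in a residue class modulo a power of two -/

namespace Pool.Agent.H13MD

open Complex Metric Set Filter Topology Bornology Asymptotics Pool.Agent.H712R2
  Pool.Agent.H713R2 N62a1eb23

/-- the roots of unity filter -/
theorem root_filter {q : ℕ} {ω : ℂ} (hω : IsPrimitiveRoot ω q) {a : ℕ} (ha : a < q) (m : ℕ) :
    ∑ j ∈ Finset.range q, ω ^ (j * a) / (ω ^ j) ^ m = if m % q = a then (q : ℂ) else 0 := by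
  have hω0 : ω ≠ 0 := hω.ne_zero (by omega)
  obtain ⟨x, hx⟩ : ∃ x, x = ω ^ a / ω ^ m := ⟨_, rfl⟩
  have h1 : ∀ j ∈ Finset.range q, ω ^ (j * a) / (ω ^ j) ^ m = x ^ j := by
    intro j _
    rw [hx, div_pow, ← pow_mul, ← pow_mul, ← pow_mul, mul_comm j a, mul_comm j m]
  rw [Finset.sum_congr rfl h1]
  split_ifs with h
  · have h2 : ω ^ m = ω ^ a := by
      conv_lhs => rw [← Nat.div_add_mod m q, h, pow_add, pow_mul, hω.pow_eq_one, one_pow, one_mul]
    have h3 : x = 1 := by rw [hx, h2]; exact div_self (pow_ne_zero _ hω0)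
    rw [h3]
    simp
  · have h2 : x ≠ 1 := by
      intro h3
      rw [hx, div_eq_one_iff_eq (pow_ne_zero _ hω0)] at h3
      have h4 : ω ^ m = ω ^ (m % q) := by
        conv_lhs => rw [← Nat.div_add_mod m q, pow_add, pow_mul, hω.pow_eq_one, one_pow, one_mul]
      rw [h4] at h3
      exact h (hω.pow_inj (Nat.mod_lt _ (by omega)) ha h3.symm)
    have h3 : x ^ q = 1 := by
      rw [hx, div_pow, ← pow_mul, ← pow_mul, mul_comm a q, mul_comm m q, pow_mul, pow_mul,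
        hω.pow_eq_one, one_pow, one_pow, div_one]
    have h4 := geom_sum_mul x q
    rw [h3, sub_self] at h4
    exact (mul_eq_zero.1 h4).resolve_right (sub_ne_zero.2 h2)

theorem rpow_isBigO {δ : ℝ} (hδ : 0 < δ) :
    (fun h : ℝ => h ^ δ) =O[𝓝[>] 0] (fun h : ℝ => 1 / |Real.log h| ^ 3) := by
  have h1 := tendsto_log_mul_rpow_nhdsGT_zero (show 0 < δ / 3 by positivity)
  have h2 := h1.eventually (ball_mem_nhds (0 : ℝ) one_pos)
  refine IsBigO.of_bound 1 ?_
  have h3 : ∀ᶠ h : ℝ in 𝓝[>] 0, h < 1 := by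
    exact mem_nhdsWithin_of_mem_nhds (Iio_mem_nhds one_pos)
  filter_upwards [h2, self_mem_nhdsWithin, h3] with h h4 h5 h6
  have h5' : 0 < h := h5
  have hl : 0 < |Real.log h| := abs_pos.2 (Real.log_neg h5' h6).ne
  rw [dist_zero_right, Real.norm_eq_abs, abs_mul] at h4
  rw [Real.norm_eq_abs, abs_of_pos (by positivity), Real.norm_eq_abs,
    abs_of_pos (by positivity), one_mul, le_div_iff₀ (by positivity)]
  have h7 : h ^ δ = (h ^ (δ / 3)) ^ 3 := by
    rw [← Real.rpow_natCast, ← Real.rpow_mul h5'.le]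
    congr 1
    push_cast
    ring
  rw [abs_of_pos (show 0 < h ^ (δ / 3) by positivity)] at h4
  rw [h7, ← mul_pow]
  exact pow_le_one₀ (by positivity) (by linarith)

section

variable {ψ : ℂ → ℂ} (hψ : IsExteriorMap (multibrotSet 2) ψ)

include hψ

theorem ray_asymp {ζ : ℂ} {k : ℕ} (hk : ζ ^ (2 ^ k) = 1) : ∃ z : ℂ,
    (fun h : ℝ => ψ ((1 + h : ℝ) * ζ) - (1 + h : ℝ) * ζ - z -
      (if ζ = 1 then (((Real.pi * Real.log 2) ^ 2 / (Real.log h) ^ 2 : ℝ) : ℂ) else 0))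
      =O[𝓝[>] 0] (fun h : ℝ => 1 / |Real.log h| ^ 3) := by
  have hid : (fun h : ℝ => (h : ℂ) * ζ) =O[𝓝[>] 0] (fun h : ℝ => 1 / |Real.log h| ^ 3) := by
    have hζ : ‖ζ‖ = 1 := Complex.norm_eq_one_of_pow_eq_one hk (by positivity)
    have h1 := rpow_isBigO one_pos
    simp only [Real.rpow_one] at h1
    refine IsBigO.trans ?_ h1
    refine IsBigO.of_bound 1 (Eventually.of_forall fun h => ?_)
    rw [norm_mul, hζ, Complex.norm_real, mul_one, one_mul]
  by_cases hζ1 : ζ = 1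
  · obtain ⟨h₁, hh₁, -, hc⟩ := cusp hψ
    refine ⟨1 / 4 - 1, ?_⟩
    have h2 : (fun h : ℝ => ψ ((1 + h : ℝ) : ℂ) - 1 / 4 -
        (((Real.pi * Real.log 2) ^ 2 / (Real.log h) ^ 2 : ℝ) : ℂ))
        =O[𝓝[>] 0] (fun h : ℝ => 1 / |Real.log h| ^ 3) := by
      refine IsBigO.of_bound 17000 ?_
      filter_upwards [Ioo_mem_nhdsGT hh₁] with h hh
      refine (hc h hh).trans (le_of_eq ?_)
      rw [Real.norm_eq_abs, abs_of_nonneg (show (0 : ℝ) ≤ 1 / |Real.log h| ^ 3 by positivity)]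
      ring
    refine (h2.sub hid).congr (fun h => ?_) (fun h => rfl)
    rw [if_pos hζ1, hζ1]
    push_cast
    ring_nf
  · obtain ⟨z, C, δ, h₁, hC, hδ, hh₁, hz⟩ := landing hψ hk hζ1
    refine ⟨z - ζ, ?_⟩
    have h2 : (fun h : ℝ => ψ ((1 + h : ℝ) * ζ) - z) =O[𝓝[>] 0]
        (fun h : ℝ => 1 / |Real.log h| ^ 3) := by
      refine IsBigO.trans ?_ (rpow_isBigO hδ)
      refine IsBigO.of_bound C ?_
      filter_upwards [Ioo_mem_nhdsGT hh₁] with h hh
      refine (hz h hh).trans (le_of_eq ?_)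
      have hh0 := hh.1
      rw [Real.norm_eq_abs, abs_of_nonneg (by positivity)]
    refine (h2.sub hid).congr (fun h => ?_) (fun h => rfl)
    rw [if_neg hζ1]
    push_cast
    ring

/-- **the sum over a residue class** -/
theorem class_asymp {b : ℕ → ℂ} (hb : HasLaurent ψ b) (k : ℕ) {a : ℕ} (ha : a < 2 ^ k) :
    ∃ (S : ℝ → ℝ) (s : ℝ),
      (∀ h : ℝ, 0 < h → HasSum
        (fun m : ℕ => (if m % 2 ^ k = a then (b m).re else 0) / (1 + h) ^ m) (S h)) ∧
      (fun h : ℝ => S h - s - (Real.pi * Real.log 2) ^ 2 / (2 ^ k * (Real.log h) ^ 2))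
        =O[𝓝[>] 0] (fun h : ℝ => 1 / |Real.log h| ^ 3) := by
  obtain ⟨q, hq⟩ : ∃ q, q = 2 ^ k := ⟨_, rfl⟩
  have hq0 : q ≠ 0 := by rw [hq]; positivity
  have hqC : (q : ℂ) ≠ 0 := by exact_mod_cast hq0
  obtain ⟨ω, hω⟩ : ∃ ω : ℂ, IsPrimitiveRoot ω q := ⟨_, Complex.isPrimitiveRoot_exp q hq0⟩
  have hωj : ∀ j : ℕ, (ω ^ j) ^ (2 ^ k) = 1 := by
    intro j
    rw [← hq, ← pow_mul, mul_comm, pow_mul, hω.pow_eq_one, one_pow]
  choose z hz using fun j : ℕ => ray_asymp hψ (hωj j)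
  obtain ⟨SC, hSC⟩ : ∃ SC : ℝ → ℂ, SC = fun h : ℝ => ∑ j ∈ Finset.range q,
      ω ^ (j * a) / q * (ψ ((1 + h : ℝ) * ω ^ j) - (1 + h : ℝ) * ω ^ j) := ⟨_, rfl⟩
  have hsum : ∀ h : ℝ, 0 < h → HasSum
      (fun m : ℕ => (if m % q = a then b m else 0) / ((1 + h : ℝ) : ℂ) ^ m) (SC h) := by
    intro h hh
    have h1 : ∀ j ∈ Finset.range q, HasSum
        (fun m : ℕ => ω ^ (j * a) / q * (b m / (((1 + h : ℝ) : ℂ) * ω ^ j) ^ m))
        (ω ^ (j * a) / q * (ψ ((1 + h : ℝ) * ω ^ j) - (1 + h : ℝ) * ω ^ j)) := by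
      intro j _
      refine (hb _ ?_).mul_left _
      rw [norm_rz (Complex.norm_eq_one_of_pow_eq_one (hωj j) (by positivity)) (by linarith)]
      linarith
    have h2 := hasSum_sum h1
    rw [hSC]
    refine h2.congr_fun fun m => ?_
    have h3 : ∀ j ∈ Finset.range q, ω ^ (j * a) / q * (b m / (((1 + h : ℝ) : ℂ) * ω ^ j) ^ m) =
        b m / ((1 + h : ℝ) : ℂ) ^ m / q * (ω ^ (j * a) / (ω ^ j) ^ m) := by
      intro j _
      rw [mul_pow]
      have h4 : ω ^ j ≠ 0 := pow_ne_zero _ (hω.ne_zero hq0)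
      have h5 : ((1 + h : ℝ) : ℂ) ≠ 0 := by
        exact_mod_cast (show (1 + h : ℝ) ≠ 0 by linarith)
      field_simp
    rw [Finset.sum_congr rfl h3, ← Finset.mul_sum, root_filter hω (by rw [hq]; exact ha)]
    split_ifs with h4
    · field_simp
    · simp
  refine ⟨fun h => (SC h).re, (∑ j ∈ Finset.range q, ω ^ (j * a) / q * z j).re, ?_, ?_⟩
  · intro h hh
    have h1 := (Complex.hasSum_re (hsum h hh))
    refine h1.congr_fun fun m => ?_
    rw [← hq, ← Complex.ofReal_pow, Complex.div_ofReal_re]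
    split_ifs <;> simp
  · -- the expansion
    have h1 : (fun h : ℝ => ∑ j ∈ Finset.range q, ω ^ (j * a) / q *
        (ψ ((1 + h : ℝ) * ω ^ j) - (1 + h : ℝ) * ω ^ j - z j -
        (if ω ^ j = 1 then (((Real.pi * Real.log 2) ^ 2 / (Real.log h) ^ 2 : ℝ) : ℂ) else 0)))
        =O[𝓝[>] 0] (fun h : ℝ => 1 / |Real.log h| ^ 3) := by
      refine (IsBigO.sum (s := Finset.range q)
        (fun j _ => (hz j).const_mul_left (ω ^ (j * a) / q))).congr_left (fun h => ?_)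
      rw [Finset.sum_apply]
    have h2 : ∀ h : ℝ, ∑ j ∈ Finset.range q, ω ^ (j * a) / q *
        (ψ ((1 + h : ℝ) * ω ^ j) - (1 + h : ℝ) * ω ^ j - z j -
        (if ω ^ j = 1 then (((Real.pi * Real.log 2) ^ 2 / (Real.log h) ^ 2 : ℝ) : ℂ) else 0)) =
        SC h - (∑ j ∈ Finset.range q, ω ^ (j * a) / q * z j) -
          (((Real.pi * Real.log 2) ^ 2 / (2 ^ k * (Real.log h) ^ 2) : ℝ) : ℂ) := by
      intro h
      have h3 : ∑ j ∈ Finset.range q, ω ^ (j * a) / q *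
          (if ω ^ j = 1 then (((Real.pi * Real.log 2) ^ 2 / (Real.log h) ^ 2 : ℝ) : ℂ) else 0) =
          (((Real.pi * Real.log 2) ^ 2 / (2 ^ k * (Real.log h) ^ 2) : ℝ) : ℂ) := by
        rw [Finset.sum_eq_single_of_mem 0 (Finset.mem_range.2 (Nat.pos_of_ne_zero hq0))]
        · rw [zero_mul, pow_zero, if_pos rfl, hq]
          push_cast
          by_cases hl : (Real.log h : ℂ) = 0
          · rw [hl]; simp
          · field_simp
        · intro j hj hj0
          rw [if_neg, mul_zero]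
          intro h4
          rw [hω.pow_eq_one_iff_dvd] at h4
          exact hj0 (Nat.eq_zero_of_dvd_of_lt h4 (Finset.mem_range.1 hj))
      rw [hSC, ← h3, ← Finset.sum_sub_distrib, ← Finset.sum_sub_distrib]
      exact Finset.sum_congr rfl fun j _ => by ring
    simp only [h2] at h1
    refine IsBigO.trans (IsBigO.of_bound 1 (Eventually.of_forall fun h => ?_)) h1
    rw [one_mul, Real.norm_eq_abs]
    refine le_trans (le_of_eq ?_) (Complex.abs_re_le_norm _)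
    rw [Complex.sub_re, Complex.sub_re, Complex.ofReal_re]

end

end Pool.Agent.H13MD
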