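import Mathlib

set_option autoImplicit false

/-! # Contraction towards the fixed point -/

namespace Pool.Agent.H13MD

open Complex

/-- a square root in the closed fourth quadrant -/
theorem exists_root {c : ℂ} (hc : 0 ≤ c.im) (hc' : c.re < 0 ∨ 0 < c.im) :
    ∃ s : ℂ, s ^ 2 = 1 / 4 - c ∧ 0 < s.re ∧ s.im ≤ 0 ∧ 2 * s.re * s.im = - c.im := by
  obtain ⟨s, hs⟩ := IsAlgClosed.exists_pow_nat_eq (1 / 4 - c : ℂ) (show 0 < 2 by norm_num)
  have hre : s.re ^ 2 - s.im ^ 2 = 1 / 4 - c.re := by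
    have h := congrArg Complex.re hs
    rw [sq, Complex.mul_re] at h
    simp only [Complex.sub_re, one_div, Complex.inv_re, Complex.re_ofNat, Complex.normSq_ofNat] at h
    nlinarith
  have him : 2 * s.re * s.im = - c.im := by
    have h := congrArg Complex.im hs
    rw [sq, Complex.mul_im] at h
    simp only [Complex.sub_im, one_div, Complex.inv_im, Complex.im_ofNat, Complex.normSq_ofNat,
      neg_zero, zero_div, zero_sub] at h
    linarith
  have hne : s.re ≠ 0 := by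
    intro h0
    rw [h0] at hre him
    rcases hc' with h | h
    · nlinarith [sq_nonneg s.im]
    · linarith
  rcases lt_or_gt_of_ne hne with h | h
  · refine ⟨-s, by rw [neg_sq]; exact hs, by rw [Complex.neg_re]; linarith, ?_, ?_⟩
    · rw [Complex.neg_im]
      by_contra hcon
      push Not at hcon
      have : 0 < (-s.re) * (-s.im) := mul_pos (by linarith) hcon
      nlinarith
    · rw [Complex.neg_re, Complex.neg_im]
      linarith
  · refine ⟨s, hs, h, ?_, him⟩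
    by_contra hcon
    push Not at hcon
    have : 0 < s.re * s.im := mul_pos h hcon
    nlinarith

theorem normSq_eq (z : ℂ) : ‖z‖ ^ 2 = z.re ^ 2 + z.im ^ 2 := by
  rw [Complex.sq_norm, Complex.normSq_apply]
  ring

/-- one step of the hyperbolic contraction; `z' = z ^ 2 + c`, `b ^ 2 + c = b` -/
theorem step_hyp {c b z : ℂ} {η R : ℝ} (hη : 0 < η) (hη1 : η ≤ 1) (hR : 3 ≤ R)
    (hc : η ≤ c.im) (hb : b ^ 2 + c = b) (hbn : ‖b‖ ≤ R) (hbi : b.im ≤ -(η / 4))
    (hz : ‖z‖ ≤ R) (hzr : 0 < z.re) (hzi : z.im < 0) (hz' : (z ^ 2 + c).im ≤ 0) :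
    ‖z - b‖ ^ 2 * ‖z ^ 2 + c - (starRingEnd ℂ) b‖ ^ 2 ≤
      (1 - η ^ 2 / (8 * R ^ 3)) * (‖z ^ 2 + c - b‖ ^ 2 * ‖z - (starRingEnd ℂ) b‖ ^ 2) := by
  have e1 : z ^ 2 + c - b = (z - b) * (z + b) := by
    linear_combination hb
  have e2 : ‖z ^ 2 + c - (starRingEnd ℂ) b‖ ^ 2 ≤
      ‖z - (starRingEnd ℂ) b‖ ^ 2 * ‖z + (starRingEnd ℂ) b‖ ^ 2 := by
    have h1 : (z - (starRingEnd ℂ) b) * (z + (starRingEnd ℂ) b) =
        z ^ 2 + c - (starRingEnd ℂ) b - (c - (starRingEnd ℂ) c) := by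
      have h2 := congrArg (starRingEnd ℂ) hb
      rw [map_add, map_pow] at h2
      linear_combination -h2
    rw [← mul_pow, ← norm_mul, h1, normSq_eq, normSq_eq]
    simp only [Complex.sub_re, Complex.sub_im, Complex.conj_re, Complex.conj_im]
    have h3 : 0 ≤ c.im := by linarith
    nlinarith [mul_nonneg h3 (show 0 ≤ -((z ^ 2 + c).im) by linarith),
      mul_nonneg h3 (show 0 ≤ -b.im by linarith), mul_nonneg h3 h3]
  -- the lower bound of `|im z|`
  have hzre : z.re ≤ R := (Complex.re_le_norm z).trans hz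
  have hzim : η / (2 * R) ≤ -z.im := by
    rw [Complex.add_im, sq, Complex.mul_im] at hz'
    rw [div_le_iff₀ (by linarith)]
    have h4 : η ≤ 2 * (z.re * (-z.im)) := by linarith
    have h5 : z.re * (-z.im) ≤ R * (-z.im) := mul_le_mul_of_nonneg_right hzre (by linarith)
    linarith
  have e3 : ‖z + (starRingEnd ℂ) b‖ ^ 2 ≤ (1 - η ^ 2 / (8 * R ^ 3)) * ‖z + b‖ ^ 2 := by
    have h6 : ‖z + b‖ ≤ 2 * R := (norm_add_le _ _).trans (by linarith)
    have h7 : ‖z + b‖ ^ 2 ≤ (2 * R) ^ 2 := pow_le_pow_left₀ (norm_nonneg _) h6 2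
    have h8 : ‖z + (starRingEnd ℂ) b‖ ^ 2 = ‖z + b‖ ^ 2 - 4 * ((-z.im) * (-b.im)) := by
      rw [normSq_eq, normSq_eq]
      simp only [Complex.add_re, Complex.add_im, Complex.conj_re, Complex.conj_im]
      ring
    have h9 : η / (2 * R) * (η / 4) ≤ (-z.im) * (-b.im) :=
      mul_le_mul hzim (by linarith) (by linarith) (by linarith)
    have h10 : η ^ 2 / (8 * R ^ 3) * (2 * R) ^ 2 = 4 * (η / (2 * R) * (η / 4)) := by
      field_simp
      ring
    have h11 : η ^ 2 / (8 * R ^ 3) * ‖z + b‖ ^ 2 ≤ η ^ 2 / (8 * R ^ 3) * (2 * R) ^ 2 :=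
      mul_le_mul_of_nonneg_left h7 (by positivity)
    rw [h8]
    nlinarith
  calc ‖z - b‖ ^ 2 * ‖z ^ 2 + c - (starRingEnd ℂ) b‖ ^ 2
      ≤ ‖z - b‖ ^ 2 * (‖z - (starRingEnd ℂ) b‖ ^ 2 * ‖z + (starRingEnd ℂ) b‖ ^ 2) :=
        mul_le_mul_of_nonneg_left e2 (by positivity)
    _ ≤ ‖z - b‖ ^ 2 * (‖z - (starRingEnd ℂ) b‖ ^ 2 * ((1 - η ^ 2 / (8 * R ^ 3)) * ‖z + b‖ ^ 2)) := by
        gcongr
    _ = _ := by
        rw [e1, norm_mul]
        ring

/-- one step of the euclidean contraction -/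
theorem step_euc {c b z : ℂ} {η : ℝ} (hη : 0 < η) (hc : c.re ≤ -η) (hb : b ^ 2 + c = b)
    (hbr : 1 ≤ b.re) (hzr : 0 < z.re) (hz' : 0 ≤ (z ^ 2 + c).re) :
    (1 + Real.sqrt η) * ‖z - b‖ ≤ ‖z ^ 2 + c - b‖ := by
  have e1 : z ^ 2 + c - b = (z - b) * (z + b) := by
    linear_combination hb
  have h1 : η ≤ z.re ^ 2 := by
    rw [Complex.add_re, sq, Complex.mul_re] at hz'
    nlinarith [mul_self_nonneg z.im]
  have h2 : Real.sqrt η ≤ z.re := by
    rw [Real.sqrt_le_left hzr.le]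
    exact h1
  have h3 : 1 + Real.sqrt η ≤ ‖z + b‖ := by
    refine le_trans ?_ (Complex.re_le_norm _)
    rw [Complex.add_re]
    linarith
  rw [e1, norm_mul, mul_comm]
  exact mul_le_mul_of_nonneg_left h3 (norm_nonneg _)

/-- the contraction along an orbit, in both cases -/
theorem orbit_close {η R : ℝ} (hη : 0 < η) (hη1 : η ≤ 1) (hR : 3 ≤ R) :
    ∃ C q : ℝ, 0 < C ∧ 0 < q ∧ q < 1 ∧ ∀ (c : ℂ) (z : ℕ → ℂ) (m : ℕ), ‖c‖ ≤ 3 → 0 ≤ c.im →
      (c.re ≤ -η ∨ η ≤ c.im) → (∀ i, z (i + 1) = z i ^ 2 + c) →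
      (∀ i, 0 < (z i).re) → (∀ i, (z i).im ≤ 0) → (0 < c.im → ∀ i, (z i).im < 0) →
      (∀ i, i ≤ m → ‖z i‖ ≤ R) → ‖z 1 - z 0‖ ≤ C * q ^ m := by
  obtain ⟨q₁, hq₁⟩ : ∃ q₁, q₁ = Real.sqrt (1 - η ^ 2 / (8 * R ^ 3)) := ⟨_, rfl⟩
  have hR3 : 27 ≤ R ^ 3 := by
    have := pow_le_pow_left₀ (by norm_num) hR 3
    linarith
  have hfrac : 0 < η ^ 2 / (8 * R ^ 3) ∧ η ^ 2 / (8 * R ^ 3) < 1 := by
    constructor
    · positivity
    · rw [div_lt_one (by positivity)]
      nlinarith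
  have hq₁0 : 0 < q₁ := by rw [hq₁]; exact Real.sqrt_pos.2 (by linarith [hfrac.2])
  have hq₁1 : q₁ < 1 := by
    rw [hq₁, Real.sqrt_lt' one_pos]
    linarith [hfrac.1]
  have hq₁2 : q₁ ^ 2 = 1 - η ^ 2 / (8 * R ^ 3) := by
    rw [hq₁]; exact Real.sq_sqrt (by linarith [hfrac.2])
  obtain ⟨q₂, hq₂⟩ : ∃ q₂, q₂ = (1 + Real.sqrt η)⁻¹ := ⟨_, rfl⟩
  have hsη : 0 < Real.sqrt η := Real.sqrt_pos.2 hη
  have hq₂0 : 0 < q₂ := by rw [hq₂]; positivity
  have hq₂1 : q₂ < 1 := by rw [hq₂]; exact inv_lt_one_of_one_lt₀ (by linarith)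
  refine ⟨(2 * R + 1) * (16 * R ^ 2 / η + 2 * R), max q₁ q₂, by positivity,
    lt_of_lt_of_le hq₁0 (le_max_left _ _), max_lt hq₁1 hq₂1, ?_⟩
  intro c z m hcn hci hcase hz hzr hzi hzi' hzb
  have hcase' : c.re < 0 ∨ 0 < c.im := by
    rcases hcase with h | h
    · left; linarith
    · right; linarith
  obtain ⟨s, hs, hsr, hsi, hsm⟩ := exists_root hci hcase'
  obtain ⟨b, hb⟩ : ∃ b, b = 1 / 2 + s := ⟨_, rfl⟩
  have hbb : b ^ 2 + c = b := by
    rw [hb]
    linear_combination hs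
  have hsn : ‖s‖ ≤ 2 := by
    have h1 : ‖s‖ ^ 2 ≤ 4 := by
      rw [← norm_pow, hs]
      refine (norm_sub_le _ _).trans ?_
      have : ‖(1 / 4 : ℂ)‖ = 1 / 4 := by norm_num
      rw [this]
      linarith
    nlinarith [norm_nonneg s]
  have hbn : ‖b‖ ≤ R := by
    rw [hb]
    refine (norm_add_le _ _).trans ?_
    have : ‖(1 / 2 : ℂ)‖ = 1 / 2 := by norm_num
    rw [this]
    linarith
  have hbre : b.re = 1 / 2 + s.re := by rw [hb]; simp
  have hbim : b.im = s.im := by rw [hb]; simp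
  -- it is enough to estimate `z 0 - b`
  have hfin : ∀ X : ℝ, ‖z 0 - b‖ ≤ X → ‖z 1 - z 0‖ ≤ (2 * R + 1) * X := by
    intro X hX
    have h1 : z 1 - z 0 = (z 0 - b) * (z 0 + b - 1) := by
      rw [show (1 : ℕ) = 0 + 1 by rfl, hz]
      linear_combination hbb
    have h2 : ‖z 0 + b - 1‖ ≤ 2 * R + 1 := by
      refine (norm_sub_le _ _).trans ?_
      rw [norm_one]
      have := norm_add_le (z 0) b
      linarith [hzb 0 (Nat.zero_le _)]
    rw [h1, norm_mul, mul_comm]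
    exact mul_le_mul h2 hX (norm_nonneg _) (by linarith)
  have hlast : ‖z m - b‖ ≤ 2 * R := (norm_sub_le _ _).trans (by linarith [hzb m le_rfl])
  rcases hcase with h | h
  · -- euclidean case
    have hbr : 1 ≤ b.re := by
      have h1 : s.re ^ 2 - s.im ^ 2 = 1 / 4 - c.re := by
        have h := congrArg Complex.re hs
        rw [sq, Complex.mul_re] at h
        simp only [Complex.sub_re, one_div, Complex.inv_re, Complex.re_ofNat,
          Complex.normSq_ofNat] at h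
        nlinarith
      rw [hbre]
      nlinarith [sq_nonneg s.im]
    have key : ∀ j, ‖z 0 - b‖ ≤ q₂ ^ j * ‖z j - b‖ := by
      intro j
      induction j with
      | zero => simp
      | succ j ih =>
        have h1 := step_euc hη h hbb hbr (hzr j) (by rw [← hz]; exact (hzr (j + 1)).le)
        rw [← hz] at h1
        have h2 : ‖z j - b‖ ≤ q₂ * ‖z (j + 1) - b‖ := by
          rw [hq₂, ← div_eq_inv_mul, le_div_iff₀ (by positivity), mul_comm]
          exact h1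
        refine ih.trans ?_
        rw [pow_succ, mul_assoc]
        exact mul_le_mul_of_nonneg_left h2 (by positivity)
    have h1 := hfin _ (key m)
    refine h1.trans ?_
    have h2 : q₂ ^ m ≤ (max q₁ q₂) ^ m := pow_le_pow_left₀ hq₂0.le (le_max_right _ _) m
    have h3 : 0 ≤ q₂ ^ m := by positivity
    have h4 : 0 ≤ 16 * R ^ 2 / η := by positivity
    calc (2 * R + 1) * (q₂ ^ m * ‖z m - b‖)
        ≤ (2 * R + 1) * ((max q₁ q₂) ^ m * (16 * R ^ 2 / η + 2 * R)) := by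
          apply mul_le_mul_of_nonneg_left _ (by linarith)
          exact mul_le_mul h2 (by linarith) (norm_nonneg _) (by positivity)
      _ = _ := by ring
  · -- hyperbolic case
    have hci0 : 0 < c.im := by linarith
    have hsre : s.re ≤ 2 := (Complex.re_le_norm s).trans hsn
    have hbi : b.im ≤ -(η / 4) := by
      rw [hbim]
      have h1 : η ≤ 2 * (s.re * (-s.im)) := by linarith
      have h2 : s.re * (-s.im) ≤ 2 * (-s.im) := mul_le_mul_of_nonneg_right hsre (by linarith)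
      linarith
    have hB : ∀ i, η / 4 ≤ ‖z i - (starRingEnd ℂ) b‖ := by
      intro i
      have h1 := Complex.abs_im_le_norm (z i - (starRingEnd ℂ) b)
      rw [Complex.sub_im, Complex.conj_im] at h1
      have h2 := (abs_le.1 h1).1
      linarith [hzi i]
    have hBu : ∀ i, i ≤ m → ‖z i - (starRingEnd ℂ) b‖ ≤ 2 * R := by
      intro i hi
      refine (norm_sub_le _ _).trans ?_
      rw [Complex.norm_conj]
      linarith [hzb i hi]
    have key : ∀ j, j ≤ m → ‖z 0 - b‖ * ‖z j - (starRingEnd ℂ) b‖ ≤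
        q₁ ^ j * (‖z j - b‖ * ‖z 0 - (starRingEnd ℂ) b‖) := by
      intro j
      induction j with
      | zero => intro _; simp
      | succ j ih =>
        intro hj
        have h1 := step_hyp hη hη1 hR h hbb hbn hbi (hzb j (by omega)) (hzr j) (hzi' hci0 j)
          (by rw [← hz]; exact hzi (j + 1))
        rw [← hz, ← hq₁2] at h1
        have h2 : ‖z j - b‖ * ‖z (j + 1) - (starRingEnd ℂ) b‖ ≤
            q₁ * (‖z (j + 1) - b‖ * ‖z j - (starRingEnd ℂ) b‖) := by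
          refine le_of_sq_le_sq ?_ (by positivity)
          rw [mul_pow, mul_pow, mul_pow]
          exact h1
        have h3 := ih (by omega)
        have hBj : 0 < ‖z j - (starRingEnd ℂ) b‖ := lt_of_lt_of_le (by positivity) (hB j)
        have h4 : (‖z 0 - b‖ * ‖z (j + 1) - (starRingEnd ℂ) b‖) * ‖z j - (starRingEnd ℂ) b‖ ≤
            (q₁ ^ (j + 1) * (‖z (j + 1) - b‖ * ‖z 0 - (starRingEnd ℂ) b‖)) *
              ‖z j - (starRingEnd ℂ) b‖ := by
          calc (‖z 0 - b‖ * ‖z (j + 1) - (starRingEnd ℂ) b‖) * ‖z j - (starRingEnd ℂ) b‖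
              = (‖z 0 - b‖ * ‖z j - (starRingEnd ℂ) b‖) * ‖z (j + 1) - (starRingEnd ℂ) b‖ := by
                ring
            _ ≤ (q₁ ^ j * (‖z j - b‖ * ‖z 0 - (starRingEnd ℂ) b‖)) *
                  ‖z (j + 1) - (starRingEnd ℂ) b‖ :=
                mul_le_mul_of_nonneg_right h3 (norm_nonneg _)
            _ = (q₁ ^ j * ‖z 0 - (starRingEnd ℂ) b‖) *
                  (‖z j - b‖ * ‖z (j + 1) - (starRingEnd ℂ) b‖) := by ring
            _ ≤ (q₁ ^ j * ‖z 0 - (starRingEnd ℂ) b‖) *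
                  (q₁ * (‖z (j + 1) - b‖ * ‖z j - (starRingEnd ℂ) b‖)) :=
                mul_le_mul_of_nonneg_left h2 (by positivity)
            _ = _ := by ring
        exact le_of_mul_le_mul_right h4 hBj
    have h1 := key m le_rfl
    have h2 : ‖z 0 - b‖ ≤ q₁ ^ m * (16 * R ^ 2 / η) := by
      have h3 : ‖z 0 - b‖ * (η / 4) ≤ q₁ ^ m * ((2 * R) * (2 * R)) := by
        calc ‖z 0 - b‖ * (η / 4) ≤ ‖z 0 - b‖ * ‖z m - (starRingEnd ℂ) b‖ :=
              mul_le_mul_of_nonneg_left (hB m) (norm_nonneg _)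
          _ ≤ _ := h1
          _ ≤ _ := by
              apply mul_le_mul_of_nonneg_left _ (by positivity)
              exact mul_le_mul hlast (hBu 0 (Nat.zero_le _)) (norm_nonneg _) (by linarith)
      rw [← mul_div_assoc, le_div_iff₀ hη]
      nlinarith
    have h3 := hfin _ h2
    refine h3.trans ?_
    have h4 : q₁ ^ m ≤ (max q₁ q₂) ^ m := pow_le_pow_left₀ hq₁0.le (le_max_left _ _) m
    calc (2 * R + 1) * (q₁ ^ m * (16 * R ^ 2 / η))
        ≤ (2 * R + 1) * ((max q₁ q₂) ^ m * (16 * R ^ 2 / η + 2 * R)) := by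
          apply mul_le_mul_of_nonneg_left _ (by linarith)
          exact mul_le_mul h4 (by linarith) (by positivity) (by positivity)
      _ = _ := by ring

end Pool.Agent.H13MD
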