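import Pool.Agent.H13MD.Win
import Pool.Agent.H13MD.Fej

set_option autoImplicit false

/-! # Signs of the Laurent coefficients in residue classes modulo powers of two -/

namespace Pool.Agent.H13MD

open Complex Metric Set Filter Topology Bornology Asymptotics Pool.Agent.H712R2
  Pool.Agent.H713R2 N62a1eb23

theorem abel_lim {S : ℝ → ℝ} {s K : ℝ}
    (hS : (fun h : ℝ => S h - s - K / (Real.log h) ^ 2) =O[𝓝[>] 0]
      (fun h : ℝ => 1 / |Real.log h| ^ 3)) :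
    Tendsto (fun h : ℝ => (Real.log h) ^ 2 * (S h - s)) (𝓝[>] 0) (𝓝 K) := by
  have hlog : Tendsto (fun h : ℝ => |Real.log h|) (𝓝[>] 0) atTop :=
    tendsto_abs_atBot_atTop.comp Real.tendsto_log_nhdsGT_zero
  have h1 : (fun h : ℝ => (Real.log h) ^ 2 * (S h - s - K / (Real.log h) ^ 2)) =O[𝓝[>] 0]
      (fun h : ℝ => (Real.log h) ^ 2 * (1 / |Real.log h| ^ 3)) := (isBigO_refl _ _).mul hS
  have h2 : Tendsto (fun h : ℝ => (Real.log h) ^ 2 * (1 / |Real.log h| ^ 3)) (𝓝[>] 0) (𝓝 0) := by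
    have h3 : Tendsto (fun h : ℝ => |Real.log h|⁻¹) (𝓝[>] 0) (𝓝 0) :=
      tendsto_inv_atTop_zero.comp hlog
    refine h3.congr' ?_
    filter_upwards [hlog.eventually (eventually_gt_atTop 0)] with h hh
    rw [← sq_abs]
    field_simp
  have h4 := h1.trans_tendsto h2
  have h5 : Tendsto (fun h : ℝ => (Real.log h) ^ 2 * (S h - s - K / (Real.log h) ^ 2) + K)
      (𝓝[>] 0) (𝓝 (0 + K)) := h4.add_const K
  rw [zero_add] at h5
  refine h5.congr' ?_
  filter_upwards [hlog.eventually (eventually_gt_atTop 0)] with h hh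
  have : Real.log h ≠ 0 := abs_pos.1 hh
  field_simp
  ring

theorem tendsto_rpow_neg {p : ℝ} (hp : 0 < p) :
    Tendsto (fun N : ℕ => ((N : ℝ)) ^ (-p)) atTop (𝓝[>] 0) := by
  rw [tendsto_nhdsWithin_iff]
  refine ⟨(tendsto_rpow_neg_atTop hp).comp tendsto_natCast_atTop_atTop, ?_⟩
  filter_upwards [eventually_gt_atTop 0] with N hN
  have : (0 : ℝ) < N := by exact_mod_cast hN
  exact Real.rpow_pos_of_pos this _

theorem abel_lim_pow {S : ℝ → ℝ} {s K : ℝ}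
    (hS : Tendsto (fun h : ℝ => (Real.log h) ^ 2 * (S h - s)) (𝓝[>] 0) (𝓝 K)) {p : ℝ}
    (hp : 0 < p) :
    Tendsto (fun N : ℕ => (Real.log N) ^ 2 * (S ((N : ℝ) ^ (-p)) - s)) atTop
      (𝓝 (K / p ^ 2)) := by
  have h1 := (hS.comp (tendsto_rpow_neg hp)).div_const (p ^ 2)
  refine h1.congr' ?_
  filter_upwards [eventually_gt_atTop 0] with N hN
  have hN0 : (0 : ℝ) < N := by exact_mod_cast hN
  simp only [Function.comp]
  rw [Real.log_rpow hN0]
  field_simp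

theorem log_sq_mul_rpow_neg {p : ℝ} (hp : 0 < p) :
    Tendsto (fun N : ℕ => (Real.log N) ^ 2 * (N : ℝ) ^ (-p)) atTop (𝓝 0) := by
  have h1 : (fun x : ℝ => Real.log x ^ 2) =o[atTop] fun x => x ^ p := by
    have := isLittleO_log_rpow_rpow_atTop (s := p) 2 hp
    simpa using this
  have h2 := h1.tendsto_div_nhds_zero
  have h3 := h2.comp tendsto_natCast_atTop_atTop
  refine h3.congr' ?_
  filter_upwards [eventually_gt_atTop 0] with N hN
  have hN0 : (0 : ℝ) < N := by exact_mod_cast hN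
  simp only [Function.comp]
  rw [Real.rpow_neg hN0.le, div_eq_mul_inv]

theorem exp_small {p q : ℝ} (hp : 0 < p) :
    Tendsto (fun N : ℕ => (Real.log N) ^ 2 * ((N : ℝ) ^ q * Real.exp (-((N : ℝ) ^ p / 2)))) atTop
      (𝓝 0) := by
  -- `y ^ r * exp (-y/2) → 0`
  have h1 := tendsto_rpow_mul_exp_neg_mul_atTop_nhds_zero ((q + 1) / p) (1 / 2) (by norm_num)
  have h2 : Tendsto (fun N : ℕ => (N : ℝ) ^ p) atTop atTop :=
    (tendsto_rpow_atTop hp).comp tendsto_natCast_atTop_atTop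
  have h3 := h1.comp h2
  have h4 := log_sq_mul_rpow_neg (p := 1) one_pos
  have h5 := h4.mul h3
  rw [zero_mul] at h5
  refine h5.congr' ?_
  filter_upwards [eventually_gt_atTop 0] with N hN
  have hN0 : (0 : ℝ) < N := by exact_mod_cast hN
  simp only [Function.comp]
  rw [← Real.rpow_mul hN0.le]
  have e1 : p * ((q + 1) / p) = q + 1 := by field_simp
  have e2 : -(1 / 2) * (N : ℝ) ^ p = -((N : ℝ) ^ p / 2) := by ring
  rw [e1, e2, Real.rpow_add hN0, Real.rpow_one, Real.rpow_neg hN0.le, Real.rpow_one]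
  field_simp

/-- negative coefficients -/
theorem neg_windows {B : ℕ → ℝ} {E : ℝ} (hB2 : ∀ m, |B m| ≤ 2)
    (hE : ∀ n, ∑ m ∈ Finset.range n, (m : ℝ) * B m ^ 2 ≤ E)
    {T : ℝ → ℝ} (hT : ∀ h : ℝ, 0 < h → HasSum (fun m : ℕ => B m / (1 + h) ^ m) (T h))
    {s K : ℝ} (hS : Tendsto (fun h : ℝ => (Real.log h) ^ 2 * (T h - s)) (𝓝[>] 0) (𝓝 K))
    {A η : ℝ} (hA : 1 < A) (hη : η < K * (1 - 1 / A ^ 2)) :
    ∀ᶠ N : ℕ in atTop, ∀ N' : ℕ, (N : ℝ) ^ A ≤ N' →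
      η / (Real.log N) ^ 2 ≤ ∑ m ∈ Finset.Ico N N', max (-B m) 0 := by
  -- the choice of `δ`
  obtain ⟨δ, hδ0, hδ1, hδ⟩ : ∃ δ : ℝ, 0 < δ ∧ 1 + δ < A - δ ∧
      η < K / (1 + δ) ^ 2 - K / (A - δ) ^ 2 := by
    have hc : ContinuousAt (fun δ : ℝ => K / (1 + δ) ^ 2 - K / (A - δ) ^ 2) 0 := by
      refine ContinuousAt.sub ?_ ?_
      · exact continuousAt_const.div (by fun_prop) (by norm_num)
      · exact continuousAt_const.div (by fun_prop) (by
          rw [sub_zero]; positivity)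
    have h1 : η < (fun δ : ℝ => K / (1 + δ) ^ 2 - K / (A - δ) ^ 2) 0 := by
      simp only [add_zero, sub_zero, one_pow, div_one]
      have : K * (1 - 1 / A ^ 2) = K - K / A ^ 2 := by ring
      linarith
    have h2 := hc.eventually (lt_mem_nhds h1)
    have h3 : ∀ᶠ δ : ℝ in 𝓝[>] 0, η < K / (1 + δ) ^ 2 - K / (A - δ) ^ 2 :=
      h2.filter_mono nhdsWithin_le_nhds
    have h4 : ∀ᶠ δ : ℝ in 𝓝[>] 0, δ ∈ Ioo 0 ((A - 1) / 2) :=
      Ioo_mem_nhdsGT (by linarith)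
    obtain ⟨δ, h5, h6⟩ := (h3.and h4).exists
    exact ⟨δ, h6.1, by linarith [h6.2], h5⟩
  have g1 := abel_lim_pow hS (show 0 < 1 + δ by linarith)
  have g2 := abel_lim_pow hS (show 0 < A - δ by linarith)
  have g3 := (log_sq_mul_rpow_neg hδ0).const_mul (E + 1)
  have g4 := (exp_small (p := δ) (q := A - δ) hδ0).const_mul 4
  have g5 := ((g1.sub g2).sub g3).sub g4
  rw [mul_zero, mul_zero, sub_zero, sub_zero] at g5
  filter_upwards [g5.eventually (lt_mem_nhds hδ), eventually_ge_atTop 2] with N hN hN2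
  intro N' hN'
  have hN0 : (1 : ℝ) < N := by exact_mod_cast hN2
  have hNpos : (0 : ℝ) < N := by linarith
  have hlog : 0 < Real.log N := Real.log_pos hN0
  obtain ⟨h₁, hh₁⟩ : ∃ h, h = (N : ℝ) ^ (-(1 + δ)) := ⟨_, rfl⟩
  obtain ⟨h₂, hh₂⟩ : ∃ h, h = (N : ℝ) ^ (-(A - δ)) := ⟨_, rfl⟩
  have p1 : 0 < h₁ := by rw [hh₁]; exact Real.rpow_pos_of_pos hNpos _
  have p2 : 0 < h₂ := by rw [hh₂]; exact Real.rpow_pos_of_pos hNpos _
  have p3 : h₂ ≤ h₁ := by
    rw [hh₁, hh₂]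
    exact Real.rpow_le_rpow_of_exponent_le hN0.le (by linarith)
  have p4 : h₁ ≤ 1 := by
    rw [hh₁]
    exact Real.rpow_le_one_of_one_le_of_nonpos hN0.le (by linarith)
  have p5 : N ≤ N' := by
    have : (N : ℝ) ≤ N' := by
      refine le_trans ?_ hN'
      calc (N : ℝ) = (N : ℝ) ^ (1 : ℝ) := (Real.rpow_one _).symm
        _ ≤ _ := Real.rpow_le_rpow_of_exponent_le hN0.le hA.le
    exact_mod_cast this
  have hw := window_neg hB2 hE hT p2 p3 p4 p5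
  have e1 : (N : ℝ) * (E + 1) * h₁ = (E + 1) * (N : ℝ) ^ (-δ) := by
    rw [hh₁]
    have : (N : ℝ) ^ (-(1 + δ)) = (N : ℝ)⁻¹ * (N : ℝ) ^ (-δ) := by
      rw [← Real.rpow_neg_one, ← Real.rpow_add hNpos]
      congr 1
      ring
    rw [this]
    field_simp
  have e2 : 4 * Real.exp (-(N' * h₂ / 2)) / h₂ ≤
      4 * ((N : ℝ) ^ (A - δ) * Real.exp (-((N : ℝ) ^ δ / 2))) := by
    have q1 : (N : ℝ) ^ δ ≤ N' * h₂ := by
      calc (N : ℝ) ^ δ = (N : ℝ) ^ A * h₂ := by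
            rw [hh₂, ← Real.rpow_add hNpos]
            congr 1
            ring
        _ ≤ N' * h₂ := mul_le_mul_of_nonneg_right hN' p2.le
    have q2 : Real.exp (-(N' * h₂ / 2)) ≤ Real.exp (-((N : ℝ) ^ δ / 2)) :=
      Real.exp_le_exp.2 (by linarith)
    have q3 : (N : ℝ) ^ (A - δ) = h₂⁻¹ := by
      rw [hh₂, Real.rpow_neg hNpos.le, inv_inv]
    rw [q3, div_eq_mul_inv]
    calc 4 * Real.exp (-(N' * h₂ / 2)) * h₂⁻¹ ≤ 4 * Real.exp (-((N : ℝ) ^ δ / 2)) * h₂⁻¹ := by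
          gcongr
      _ = _ := by ring
  rw [← hh₁, ← hh₂] at hN
  rw [div_le_iff₀ (by positivity)]
  rw [e1] at hw
  have hfin : T h₁ - T h₂ - (E + 1) * (N : ℝ) ^ (-δ) -
      4 * ((N : ℝ) ^ (A - δ) * Real.exp (-((N : ℝ) ^ δ / 2))) ≤
      ∑ m ∈ Finset.Ico N N', max (-B m) 0 := by linarith
  have hfin2 := mul_le_mul_of_nonneg_right hfin (show 0 ≤ Real.log N ^ 2 by positivity)
  refine le_trans (le_of_lt ?_) hfin2
  refine lt_of_lt_of_eq hN ?_
  ring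

/-- positive coefficients, from a lower bound for the absolute values -/
theorem pos_windows {B : ℕ → ℝ} {E : ℝ} (hB2 : ∀ m, |B m| ≤ 2)
    (hE : ∀ n, ∑ m ∈ Finset.range n, (m : ℝ) * B m ^ 2 ≤ E)
    {T : ℝ → ℝ} (hT : ∀ h : ℝ, 0 < h → HasSum (fun m : ℕ => B m / (1 + h) ^ m) (T h))
    {s K : ℝ} (hS : Tendsto (fun h : ℝ => (Real.log h) ^ 2 * (T h - s)) (𝓝[>] 0) (𝓝 K))
    {c : ℝ} {A : ℕ} (hc : 0 < c) (hA : 1 ≤ A) (hw : ∀ N : ℕ, 2 ≤ N →
      c / Real.log N ≤ ∑ m ∈ Finset.Ico N (N ^ A), |B m|) :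
    ∀ᶠ N : ℕ in atTop,
      c / 32 / Real.log N ≤ ∑ m ∈ Finset.Ico N (N ^ (2 * A + 1)), max (B m) 0 := by
  -- a bound for `T h - s`
  obtain ⟨h₀, hh₀, hbd⟩ : ∃ h₀ : ℝ, 0 < h₀ ∧ ∀ h : ℝ, 0 < h → h < h₀ →
      |(Real.log h) ^ 2 * (T h - s)| ≤ |K| + 1 := by
    have h1 := hS.abs.eventually (gt_mem_nhds (show |K| < |K| + 1 by linarith))
    obtain ⟨u, hu, hsub⟩ := (mem_nhdsGT_iff_exists_Ioo_subset).1 h1
    exact ⟨u, hu, fun h h1 h2 => le_of_lt (hsub ⟨h1, h2⟩)⟩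
  have g1 : Tendsto (fun N : ℕ => (2 * (|K| + 1)) / Real.log N) atTop (𝓝 0) :=
    (tendsto_const_nhds).div_atTop (Real.tendsto_log_atTop.comp tendsto_natCast_atTop_atTop)
  have g2 := (log_sq_mul_rpow_neg (p := 1) one_pos).const_mul (E + 1)
  have g3 : Tendsto (fun N : ℕ => Real.log N ^ 2 * (16 * (N : ℝ) ^ (2 * A) *
      Real.exp (-((N : ℝ) / 8)))) atTop (𝓝 0) := by
    have h1 := tendsto_rpow_mul_exp_neg_mul_atTop_nhds_zero (((2 * A : ℕ) : ℝ) + 1) (1 / 8)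
      (by norm_num)
    have h3 := (h1.comp tendsto_natCast_atTop_atTop).const_mul 16
    have h4 := log_sq_mul_rpow_neg (p := 1) one_pos
    have h5 := h4.mul h3
    rw [mul_zero, zero_mul] at h5
    refine h5.congr' ?_
    filter_upwards [eventually_gt_atTop 0] with N hN
    have hN0 : (0 : ℝ) < N := by exact_mod_cast hN
    simp only [Function.comp]
    rw [Real.rpow_add hN0, Real.rpow_one, Real.rpow_natCast, Real.rpow_neg hN0.le, Real.rpow_one]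
    have e2 : -(1 / 8) * (N : ℝ) = -((N : ℝ) / 8) := by ring
    rw [e2]
    field_simp
  have g4 := (g1.add g2).add g3
  rw [mul_zero, add_zero, add_zero] at g4
  have g5 : Tendsto (fun N : ℕ => ((N : ℝ) ^ 2)⁻¹) atTop (𝓝 0) := by
    have := (tendsto_pow_atTop (α := ℝ) (n := 2) (by norm_num)).comp
      tendsto_natCast_atTop_atTop
    exact tendsto_inv_atTop_zero.comp this
  filter_upwards [g4.eventually (gt_mem_nhds (show (0 : ℝ) < c / 16 by positivity)),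
    g5.eventually (gt_mem_nhds hh₀), eventually_ge_atTop 3] with N hN hNh hN3
  have hNr3 : (3 : ℝ) ≤ N := by exact_mod_cast hN3
  have hNpos : (0 : ℝ) < N := by linarith
  have hlog1 : 1 ≤ Real.log N := by
    rw [Real.le_log_iff_exp_le hNpos]
    have := Real.exp_one_lt_d9
    linarith
  have hlog : 0 < Real.log N := by linarith
  obtain ⟨h₁, hh₁⟩ : ∃ h : ℝ, h = ((N : ℝ) ^ 2)⁻¹ := ⟨_, rfl⟩
  obtain ⟨h₂, hh₂⟩ : ∃ h : ℝ, h = (4 * (N : ℝ) ^ (2 * A))⁻¹ := ⟨_, rfl⟩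
  have p1 : 0 < h₁ := by rw [hh₁]; positivity
  have p2 : 0 < h₂ := by rw [hh₂]; positivity
  have hNA : (N : ℝ) ^ 2 ≤ (N : ℝ) ^ (2 * A) :=
    pow_le_pow_right₀ (by linarith) (by omega)
  have p3 : h₂ ≤ h₁ := by
    rw [hh₁, hh₂]
    apply inv_anti₀ (by positivity)
    have : 0 < (N : ℝ) ^ (2 * A) := by positivity
    linarith
  have p4 : h₁ ≤ 1 := by
    rw [hh₁]
    exact inv_le_one_of_one_le₀ (one_le_pow₀ (by linarith))
  have p5 : N ≤ N ^ (2 * A + 1) := Nat.le_self_pow (by omega) N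
  have p6 : N ≤ N ^ 2 := Nat.le_self_pow (by norm_num) N
  have p7 : (N ^ 2) ^ A ≤ N ^ (2 * A + 1) := by
    rw [← pow_mul]
    exact Nat.pow_le_pow_right (by omega) (by omega)
  have hl1 : Real.log h₁ = -(2 * Real.log N) := by
    rw [hh₁, Real.log_inv, Real.log_pow]
    push_cast
    ring
  have hl2 : Real.log N ≤ -Real.log h₂ := by
    rw [hh₂, Real.log_inv, neg_neg]
    apply Real.log_le_log hNpos
    have : (N : ℝ) ≤ (N : ℝ) ^ 2 := by nlinarith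
    linarith
  have hb1 : |T h₁ - s| ≤ (|K| + 1) / Real.log N ^ 2 := by
    have h3 := hbd h₁ p1 (by rw [hh₁]; exact hNh)
    rw [abs_mul, abs_of_nonneg (by positivity : 0 ≤ Real.log h₁ ^ 2)] at h3
    rw [le_div_iff₀ (by positivity)]
    refine le_trans ?_ h3
    rw [mul_comm]
    apply mul_le_mul_of_nonneg_right _ (abs_nonneg _)
    rw [hl1]
    nlinarith
  have hb2 : |T h₂ - s| ≤ (|K| + 1) / Real.log N ^ 2 := by
    have h3 := hbd h₂ p2 (lt_of_le_of_lt p3 (by rw [hh₁]; exact hNh))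
    rw [abs_mul, abs_of_nonneg (by positivity : 0 ≤ Real.log h₂ ^ 2)] at h3
    rw [le_div_iff₀ (by positivity)]
    refine le_trans ?_ h3
    rw [mul_comm]
    apply mul_le_mul_of_nonneg_right _ (abs_nonneg _)
    nlinarith
  have hb3 : |T h₁ - T h₂| ≤ 2 * (|K| + 1) / Real.log N ^ 2 := by
    have : T h₁ - T h₂ = (T h₁ - s) - (T h₂ - s) := by ring
    rw [this]
    refine (abs_sub _ _).trans ?_
    rw [mul_div_assoc]
    linarith
  -- the weights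
  have hv : ∀ m ∈ Finset.Ico (N ^ 2) ((N ^ 2) ^ A),
      (1 : ℝ) / 4 ≤ ((1 + h₂) ^ m)⁻¹ - ((1 + h₁) ^ m)⁻¹ := by
    intro m hm
    rw [Finset.mem_Ico] at hm
    have hm1 : (N : ℝ) ^ 2 ≤ m := by exact_mod_cast hm.1
    have hm2 : (m : ℝ) ≤ (N : ℝ) ^ (2 * A) := by
      rw [pow_mul]
      exact_mod_cast hm.2.le
    have h3 := one_sub_inv_pow_le p2.le m
    have h4 : (m : ℝ) * h₂ ≤ 1 / 4 := by
      rw [hh₂, ← div_eq_mul_inv, div_le_iff₀ (by positivity)]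
      linarith
    have h5 : ((1 + h₁) ^ m)⁻¹ ≤ 1 / 2 := by
      have h6 : 1 + (m : ℝ) * h₁ ≤ (1 + h₁) ^ m := one_add_mul_le_pow (by linarith) m
      have h7 : 1 ≤ (m : ℝ) * h₁ := by
        rw [hh₁, ← div_eq_mul_inv, le_div_iff₀ (by positivity)]
        linarith
      rw [one_div]
      exact inv_anti₀ (by norm_num) (by linarith)
    linarith
  have hwin := window_pos hB2 hE hT p2 p3 p4 p5 p6 p7 hv
  have hw2 := hw (N ^ 2) (by nlinarith)
  have e0 : Real.log ((N ^ 2 : ℕ) : ℝ) = 2 * Real.log N := by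
    push_cast
    rw [Real.log_pow]
    push_cast
    ring
  rw [e0] at hw2
  have e1 : (N : ℝ) * (E + 1) * h₁ = (E + 1) * (N : ℝ) ^ (-(1 : ℝ)) := by
    rw [hh₁, Real.rpow_neg hNpos.le, Real.rpow_one]
    field_simp
  have e2 : 4 * Real.exp (-(((N ^ (2 * A + 1) : ℕ) : ℝ) * h₂ / 2)) / h₂ =
      16 * (N : ℝ) ^ (2 * A) * Real.exp (-((N : ℝ) / 8)) := by
    have q1 : ((N ^ (2 * A + 1) : ℕ) : ℝ) * h₂ / 2 = (N : ℝ) / 8 := by
      rw [hh₂]
      push_cast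
      rw [pow_succ]
      have : (N : ℝ) ^ (2 * A) ≠ 0 := by positivity
      field_simp
      norm_num
    rw [q1, hh₂, div_inv_eq_mul]
    ring
  rw [e1, e2] at hwin
  -- conclusion
  obtain ⟨Y, hY⟩ : ∃ x, x = ∑ m ∈ Finset.Ico N (N ^ (2 * A + 1)), max (B m) 0 := ⟨_, rfl⟩
  rw [← hY] at hwin ⊢
  obtain ⟨X, hX⟩ : ∃ x, x = (E + 1) * (N : ℝ) ^ (-(1 : ℝ)) +
      16 * (N : ℝ) ^ (2 * A) * Real.exp (-((N : ℝ) / 8)) := ⟨_, rfl⟩
  have hE0 : 0 ≤ E := le_trans (by simp) (hE 0)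
  have hX0 : 0 ≤ X := by rw [hX]; positivity
  rw [← hX] at hwin
  have h8 : 1 / 4 * (c / (2 * Real.log N)) ≤ 2 * Y + 2 * (|K| + 1) / Real.log N ^ 2 + X := by
    have := mul_le_mul_of_nonneg_left hw2 (show (0 : ℝ) ≤ 1 / 4 by norm_num)
    linarith
  have h9 : 2 * (|K| + 1) / Real.log N + Real.log N ^ 2 * X < c / 16 := by
    rw [hX]
    refine lt_of_eq_of_lt ?_ hN
    ring
  have h10 : Real.log N * X ≤ Real.log N ^ 2 * X := by
    have : Real.log N ≤ Real.log N ^ 2 := by nlinarith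
    exact mul_le_mul_of_nonneg_right this hX0
  have h11 : Real.log N * (1 / 4 * (c / (2 * Real.log N))) = c / 8 := by
    field_simp
    norm_num
  have h12 : Real.log N * (2 * (|K| + 1) / Real.log N ^ 2) = 2 * (|K| + 1) / Real.log N := by
    field_simp
  have h13 := mul_le_mul_of_nonneg_left h8 hlog.le
  rw [h11, mul_add, mul_add, h12] at h13
  rw [div_le_iff₀ hlog]
  nlinarith

end Pool.Agent.H13MD
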