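import Pool.Agent.H13MD.Jen

set_option autoImplicit false

/-! # The mean of the Green's function over circles and the size of sublevel sets -/

namespace Pool.Agent.H13MD

open Complex Metric Set Filter Topology Bornology Asymptotics Pool.Agent.H712R2
  Pool.Agent.H713R2 N62a1eb23 Real MeasureTheory

/-- the measure on the circle of angles -/
noncomputable def mu : Measure ℝ := volume.restrict (Ioc 0 (2 * π))

instance : IsFiniteMeasure mu := by
  unfold mu
  infer_instance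

theorem mu_univ : mu.real univ = 2 * π := by
  unfold mu
  rw [measureReal_restrict_apply MeasurableSet.univ, univ_inter, Real.volume_real_Ioc]
  rw [sub_zero, max_eq_left (by positivity)]

theorem avg_eq (F : ℂ → ℝ) (r : ℝ) :
    ∫ θ, F (circleMap 0 r θ) ∂mu = 2 * π * circleAverage F 0 r := by
  rw [circleAverage_def, smul_eq_mul, intervalIntegral.integral_of_le (by positivity), ← mul_assoc,
    mul_inv_cancel₀ (by positivity), one_mul]
  rfl

theorem int_const_mu (c : ℝ) : ∫ _, c ∂mu = 2 * π * c := by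
  rw [integral_const, mu_univ, smul_eq_mul]

theorem log_meas {a : ℝ → ℂ} (ha : Continuous a) (σ : ℝ) :
    Measurable (fun p : ℝ × ℝ => Real.log ‖a p.1 - circleMap 0 σ p.2‖) := by
  have hcm : Continuous (circleMap 0 σ) := continuous_circleMap 0 σ
  apply Real.measurable_log.comp
  apply Continuous.measurable
  fun_prop

theorem log_inner {a : ℝ → ℂ} {σ : ℝ} (hσ : 0 < σ) (θ : ℝ) :
    ∫ φ, Real.log ‖a θ - circleMap 0 σ φ‖ ∂mu =
      2 * π * (Real.log σ + Real.posLog (σ⁻¹ * ‖a θ‖)) := by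
  have h1 := avg_eq (fun z => Real.log ‖z - a θ‖) σ
  rw [circleAverage_log_norm_sub_const_eq_log_radius_add_posLog hσ.ne', zero_sub, norm_neg] at h1
  rw [← h1]
  apply integral_congr_ae
  filter_upwards with φ
  rw [norm_sub_rev]

theorem int_prod {a : ℝ → ℂ} (ha : Continuous a) {σ : ℝ} (hσ : 0 < σ) :
    Integrable (fun p : ℝ × ℝ => Real.log ‖a p.1 - circleMap 0 σ p.2‖) (mu.prod mu) := by
  obtain ⟨A, hA⟩ : ∃ A, ∀ θ ∈ Icc 0 (2 * π), ‖a θ‖ ≤ A :=
    isCompact_Icc.exists_bound_of_continuousOn ha.continuousOn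
  have hmem : ∀ᵐ θ ∂mu, θ ∈ Ioc 0 (2 * π) := by
    unfold mu
    exact ae_restrict_mem measurableSet_Ioc
  have hKm := log_meas ha σ
  have hint : ∀ θ, ∫ φ, Real.log ‖a θ - circleMap 0 σ φ‖ ∂mu =
      2 * π * (Real.log σ + Real.posLog (σ⁻¹ * ‖a θ‖)) := fun θ => log_inner hσ θ
  have hsl : ∀ θ, Integrable (fun φ => Real.log ‖a θ - circleMap 0 σ φ‖) mu := by
    intro θ
    have h1 : CircleIntegrable (fun z => Real.log ‖z - a θ‖) 0 σ :=
      circleIntegrable_log_norm_sub_const σ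
    have h2 := (intervalIntegrable_iff_integrableOn_Ioc_of_le (by positivity)).1 h1
    refine Integrable.congr h2 ?_
    filter_upwards with φ
    rw [norm_sub_rev]
  rw [integrable_prod_iff hKm.aestronglyMeasurable]
  refine ⟨Filter.Eventually.of_forall hsl, ?_⟩
  have hm : AEStronglyMeasurable
      (fun θ => ∫ φ, ‖Real.log ‖a θ - circleMap 0 σ φ‖‖ ∂mu) mu :=
    (hKm.norm.aestronglyMeasurable (μ := mu.prod mu)).integral_prod_right'
  refine Integrable.of_bound hm (4 * π * Real.posLog (A + σ) + 2 * π * |Real.log σ|) ?_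
  filter_upwards [hmem] with θ hθ
  have hAθ : ‖a θ‖ ≤ A := hA θ (Ioc_subset_Icc_self hθ)
  rw [Real.norm_eq_abs, abs_of_nonneg (integral_nonneg fun φ => norm_nonneg _)]
  have h1 : ∀ φ, ‖Real.log ‖a θ - circleMap 0 σ φ‖‖ ≤
      2 * Real.posLog (A + σ) - Real.log ‖a θ - circleMap 0 σ φ‖ := by
    intro φ
    have h2 : Real.posLog ‖a θ - circleMap 0 σ φ‖ ≤ Real.posLog (A + σ) := by
      apply Real.posLog_le_posLog (norm_nonneg _)
      refine (norm_sub_le _ _).trans ?_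
      rw [norm_circleMap_zero, abs_of_pos hσ]
      linarith
    have h3 : Real.posLog ‖a θ - circleMap 0 σ φ‖ =
        max 0 (Real.log ‖a θ - circleMap 0 σ φ‖) := rfl
    rw [h3] at h2
    rw [Real.norm_eq_abs]
    rcases le_total 0 (Real.log ‖a θ - circleMap 0 σ φ‖) with h4 | h4
    · rw [abs_of_nonneg h4]
      rw [max_eq_right h4] at h2
      linarith
    · rw [abs_of_nonpos h4]
      have : 0 ≤ Real.posLog (A + σ) := Real.posLog_nonneg
      linarith
  have h5 : ∫ φ, ‖Real.log ‖a θ - circleMap 0 σ φ‖‖ ∂mu ≤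
      ∫ φ, (2 * Real.posLog (A + σ) - Real.log ‖a θ - circleMap 0 σ φ‖) ∂mu :=
    integral_mono (μ := mu) (hsl θ).norm ((integrable_const _).sub (hsl θ)) h1
  refine h5.trans ?_
  have h6 : ∫ φ, (2 * Real.posLog (A + σ) - Real.log ‖a θ - circleMap 0 σ φ‖) ∂mu =
      2 * π * (2 * Real.posLog (A + σ)) -
        2 * π * (Real.log σ + Real.posLog (σ⁻¹ * ‖a θ‖)) := by
    rw [integral_sub (integrable_const _) (hsl θ), int_const_mu, hint]
  rw [h6]
  have h8 : 0 ≤ Real.posLog (σ⁻¹ * ‖a θ‖) := Real.posLog_nonneg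
  have h9 := neg_abs_le (Real.log σ)
  have hpi := Real.pi_pos
  nlinarith [mul_nonneg hpi.le h8]

theorem fubini_log {a : ℝ → ℂ} (ha : Continuous a) {σ : ℝ} (hσ : 0 < σ) :
    2 * π * ∫ θ, (Real.log σ + Real.posLog (σ⁻¹ * ‖a θ‖)) ∂mu =
      ∫ φ, (∫ θ, Real.log ‖a θ - circleMap 0 σ φ‖ ∂mu) ∂mu := by
  have hsw := integral_integral_swap
    (f := fun θ φ => Real.log ‖a θ - circleMap 0 σ φ‖) (int_prod ha hσ)
  rw [← hsw, ← integral_const_mul]
  apply integral_congr_ae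
  filter_upwards with θ
  rw [log_inner hσ]

theorem int_outer {a : ℝ → ℂ} (ha : Continuous a) {σ : ℝ} (hσ : 0 < σ) :
    Integrable (fun φ => ∫ θ, Real.log ‖a θ - circleMap 0 σ φ‖ ∂mu) mu :=
  (int_prod ha hσ).integral_prod_right

section

variable {ψ : ℂ → ℂ} (hψ : IsExteriorMap (multibrotSet 2) ψ)
include hψ

theorem psi_circle_cont {r : ℝ} (hr : 1 < r) :
    Continuous fun θ : ℝ => ψ (circleMap 0 r θ) := by
  have h1 : ContinuousOn ψ {z | 1 < ‖z‖} := psi_cont hψ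
  refine h1.comp_continuous (continuous_circleMap 0 r) (fun θ => ?_)
  show 1 < ‖circleMap 0 r θ‖
  rw [norm_circleMap_zero, abs_of_pos (by linarith)]
  exact hr

theorem quarter_mem : (1 / 4 : ℂ) ∈ multibrotSet 2 := by
  have h2 := real_mem (c := 1 / 4) (by norm_num) le_rfl
  rwa [show ((1 / 4 : ℝ) : ℂ) = 1 / 4 by push_cast; ring] at h2

/-- the mean of the positive part -/
theorem mean_eq {r : ℝ} (hr : 1 < r) {σ : ℝ} (hσ : 0 < σ) :
    2 * π * ∫ θ, max (Real.log σ - Real.log ‖ψ (circleMap 0 r θ) - 1 / 4‖) 0 ∂mu =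
      ∫ φ, (∫ θ, Real.log ‖ψ (circleMap 0 r θ) - (1 / 4 + circleMap 0 σ φ)‖ ∂mu) ∂mu -
        (2 * π) ^ 2 * Real.log r := by
  have hc := psi_circle_cont hψ hr
  have ha : Continuous fun θ : ℝ => ψ (circleMap 0 r θ) - 1 / 4 := hc.sub continuous_const
  have hne : ∀ θ : ℝ, ψ (circleMap 0 r θ) - 1 / 4 ≠ 0 := by
    intro θ h
    have h1 := psi_notMem hψ (z := circleMap 0 r θ) (by
      rw [norm_circleMap_zero, abs_of_pos (by linarith)]; exact hr)
    rw [sub_eq_zero.1 h] at h1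
    exact h1 (quarter_mem hψ)
  have h1 := fubini_log ha hσ
  have h2 : ∀ φ θ : ℝ, ψ (circleMap 0 r θ) - 1 / 4 - circleMap 0 σ φ =
      ψ (circleMap 0 r θ) - (1 / 4 + circleMap 0 σ φ) := by
    intro φ θ; ring
  simp only [h2] at h1
  rw [← h1]
  have h3 : ∀ θ : ℝ, max (Real.log σ - Real.log ‖ψ (circleMap 0 r θ) - 1 / 4‖) 0 =
      (Real.log σ + Real.posLog (σ⁻¹ * ‖ψ (circleMap 0 r θ) - 1 / 4‖)) -
        Real.log ‖ψ (circleMap 0 r θ) - 1 / 4‖ := by
    intro θ
    have hn : 0 < ‖ψ (circleMap 0 r θ) - 1 / 4‖ := norm_pos_iff.2 (hne θ)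
    rw [Real.posLog, Real.log_mul (by positivity) hn.ne', Real.log_inv]
    rcases le_total (Real.log σ) (Real.log ‖ψ (circleMap 0 r θ) - 1 / 4‖) with h4 | h4
    · rw [max_eq_right (by linarith), max_eq_right (by linarith)]
      ring
    · rw [max_eq_left (by linarith), max_eq_left (by linarith)]
      ring
  simp only [h3]
  have hI1 : Continuous fun θ : ℝ => Real.log ‖ψ (circleMap 0 r θ) - 1 / 4‖ :=
    ha.norm.log (fun θ => norm_ne_zero_iff.2 (hne θ))
  have hI2 : Continuous fun θ : ℝ =>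
      Real.log σ + Real.posLog (σ⁻¹ * ‖ψ (circleMap 0 r θ) - 1 / 4‖) := by
    have := Real.continuous_posLog
    fun_prop
  have hint : ∀ f : ℝ → ℝ, Continuous f → Integrable f mu := by
    intro f hf
    unfold mu
    exact (hf.integrableOn_Icc).mono_set Ioc_subset_Icc_self
  rw [integral_sub (hint _ hI2) (hint _ hI1)]
  have h5 := avg_eq (fun z => Real.log ‖ψ z - 1 / 4‖) r
  rw [jensen_mem hψ (quarter_mem hψ) hr] at h5
  rw [h5]
  ring

/-- the inner integral -/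
theorem inner_eq {r : ℝ} (hr : 1 < r) (c : ℂ) :
    (c ∈ multibrotSet 2 ∧ ∫ θ, Real.log ‖ψ (circleMap 0 r θ) - c‖ ∂mu = 2 * π * Real.log r) ∨
    ∃ z₀ : ℂ, 1 < ‖z₀‖ ∧ ψ z₀ = c ∧ ∫ θ, Real.log ‖ψ (circleMap 0 r θ) - c‖ ∂mu =
      2 * π * max (Real.log r) (Real.log ‖z₀‖) := by
  by_cases h : c ∈ multibrotSet 2
  · left
    refine ⟨h, ?_⟩
    rw [avg_eq (fun z => Real.log ‖ψ z - c‖) r, jensen_mem hψ h hr]
  · right
    have h1 : c ∈ (multibrotSet 2)ᶜ := h
    rw [← hψ.image] at h1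
    obtain ⟨z₀, hz₀, hz⟩ := h1
    refine ⟨z₀, hz₀, hz, ?_⟩
    rw [avg_eq (fun z => Real.log ‖ψ z - c‖) r, ← hz, jensen_not hψ hz₀ hr]

end

end Pool.Agent.H13MD
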