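import Pool.Agent.H13MD.Koe

set_option autoImplicit false

/-! # Harmonic measure of the Mandelbrot set at the cusp -/

namespace Pool.Agent.H13MD

open Complex Metric Set Filter Topology Bornology Asymptotics Pool.Agent.H712R2
  Pool.Agent.H713R2 N62a1eb23 Real MeasureTheory

theorem kappa_bd : 4.5 ≤ (π * Real.log 2) ^ 2 ∧ (π * Real.log 2) ^ 2 ≤ 5 ∧
    2 ≤ π * Real.log 2 ∧ π * Real.log 2 ≤ 2.2 := by
  have h4 := Real.pi_gt_d2
  have h4' := Real.pi_lt_d2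
  have h5 := Real.log_two_gt_d9
  have h5' := Real.log_two_lt_d9
  have h6 : (2.15 : ℝ) ≤ π * Real.log 2 := by nlinarith
  have h7 : π * Real.log 2 ≤ 2.2 := by nlinarith
  refine ⟨by nlinarith, by nlinarith, by linarith, h7⟩

theorem log_one_add_half {y : ℝ} (h0 : 0 ≤ y) (h1 : y ≤ 1) : y / 2 ≤ Real.log (1 + y) := by
  have h2 := Real.one_sub_inv_le_log_of_pos (show 0 < 1 + y by linarith)
  have h3 : y / 2 ≤ 1 - (1 + y)⁻¹ := by
    have h4 : 1 - (1 + y)⁻¹ = y / (1 + y) := by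
      field_simp
      ring
    rw [h4, div_le_div_iff₀ (by norm_num) (by linarith)]
    nlinarith
  linarith

section

variable {ψ : ℂ → ℂ} (hψ : IsExteriorMap (multibrotSet 2) ψ)
include hψ

theorem cusp_x : ∃ x₁ : ℝ, 100000 ≤ x₁ ∧ ∀ x : ℝ, x₁ ≤ x →
    |(ψ ((1 + Real.exp (-x) : ℝ) : ℂ)).re - 1 / 4 - (π * Real.log 2) ^ 2 / x ^ 2| ≤
      17000 / x ^ 3 := by
  obtain ⟨h₁, h0, -, h⟩ := g_cusp hψ
  refine ⟨max 100000 (-Real.log h₁ + 1), le_max_left _ _, fun x hx => ?_⟩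
  have hx1 : 100000 ≤ x := (le_max_left _ _).trans hx
  have hx2 : -Real.log h₁ + 1 ≤ x := (le_max_right _ _).trans hx
  have h2 : Real.exp (-x) < h₁ := by
    rw [← Real.exp_log h0]
    exact Real.exp_lt_exp.2 (by linarith)
  have h3 := h (Real.exp (-x)) ⟨Real.exp_pos _, h2⟩
  rw [Real.log_exp, abs_neg, abs_of_pos (by linarith : 0 < x), neg_sq] at h3
  exact h3

theorem upper_final {x₁ : ℝ} (hx₁ : 100000 ≤ x₁) (hcusp : ∀ x : ℝ, x₁ ≤ x →
    |(ψ ((1 + Real.exp (-x) : ℝ) : ℂ)).re - 1 / 4 - (π * Real.log 2) ^ 2 / x ^ 2| ≤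
      17000 / x ^ 3) {ρ τ : ℝ} (hρ : 0 < ρ) (hρ1 : ρ ≤ 1)
    (hτ : τ = π * Real.log 2 / √ρ) (hτ1 : x₁ + 4010 ≤ τ) {r : ℝ} (hr : 1 < r) :
    mu.real {θ : ℝ | ‖ψ (circleMap 0 r θ) - 1 / 4‖ < ρ} ≤
      4 * π * Real.exp 4010 / √ρ * Real.exp (-τ) := by
  obtain ⟨hk1, hk2, hκ1, hκ2⟩ := kappa_bd
  obtain ⟨κ, hκ⟩ : ∃ κ, κ = π * Real.log 2 := ⟨_, rfl⟩
  rw [← hκ] at hk1 hk2 hκ1 hκ2 hτ hcusp
  have hsq : 0 < √ρ := Real.sqrt_pos.2 hρ
  have hsq1 : √ρ ≤ 1 := by rw [Real.sqrt_le_one]; exact hρ1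
  have hτ0 : 0 < τ := by linarith
  have hρτ : √ρ = κ / τ := by
    rw [hτ]
    field_simp
  have hρe : ρ = κ ^ 2 / τ ^ 2 := by
    rw [← Real.sq_sqrt hρ.le, hρτ, div_pow]
  obtain ⟨t, ht⟩ : ∃ t, t = τ - 4010 := ⟨_, rfl⟩
  have htx : x₁ ≤ t := by linarith
  have ht0 : 0 < t := by linarith
  have hs : 1 < 1 + Real.exp (-t) := by linarith [Real.exp_pos (-t)]
  have h1 := (abs_le.1 (hcusp t htx)).1
  -- the main inequality
  have h2 : ρ * (1 + √ρ) ≤ κ ^ 2 / t ^ 2 - 17000 / t ^ 3 := by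
    have h3 : κ ^ 2 / t ^ 2 * (1 - 4000 / t) ≤ κ ^ 2 / t ^ 2 - 17000 / t ^ 3 := by
      have h4 : κ ^ 2 / t ^ 2 * (1 - 4000 / t) = κ ^ 2 / t ^ 2 - κ ^ 2 * 4000 / t ^ 3 := by
        field_simp
      rw [h4]
      have h5 : 17000 / t ^ 3 ≤ κ ^ 2 * 4000 / t ^ 3 := by
        apply div_le_div_of_nonneg_right _ (by positivity)
        linarith
      linarith
    refine le_trans ?_ h3
    rw [hρτ, hρe]
    have h4 : κ ^ 2 / τ ^ 2 * (1 + κ / τ) = κ ^ 2 * ((τ + κ) / τ ^ 3) := by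
      field_simp
    have h5 : κ ^ 2 / t ^ 2 * (1 - 4000 / t) = κ ^ 2 * ((t - 4000) / t ^ 3) := by
      field_simp
    rw [h4, h5]
    apply mul_le_mul_of_nonneg_left _ (by positivity)
    rw [div_le_div_iff₀ (by positivity) (by positivity), ht]
    have h6 : 0 ≤ (4017 : ℝ) * τ - 48240300 := by linarith
    have h7 : (τ - 4010 - 4000) * τ ^ 3 - (τ + κ) * (τ - 4010) ^ 3 =
        (4020 - κ) * τ ^ 3 - 3 * 4010 * (4010 - κ) * τ ^ 2 + 4010 ^ 2 * (4010 - 3 * κ) * τ +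
          κ * 4010 ^ 3 := by ring
    have h8 : 4017 * τ ^ 3 ≤ (4020 - κ) * τ ^ 3 :=
      mul_le_mul_of_nonneg_right (by linarith) (by positivity)
    have h9 : 3 * 4010 * (4010 - κ) * τ ^ 2 ≤ 48240300 * τ ^ 2 :=
      mul_le_mul_of_nonneg_right (by linarith) (by positivity)
    have h10 : 0 ≤ 4010 ^ 2 * (4010 - 3 * κ) * τ := by
      have : 0 ≤ 4010 - 3 * κ := by linarith
      positivity
    have h11 : 0 ≤ κ * 4010 ^ 3 := by positivity
    have h12 : 0 ≤ ((4017 : ℝ) * τ - 48240300) * τ ^ 2 := mul_nonneg h6 (by positivity)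
    nlinarith
  have h3 : ρ * (1 + √ρ) ≤ (ψ ((1 + Real.exp (-t) : ℝ) : ℂ)).re - 1 / 4 := by linarith
  have h4 := measure_upper hψ hr hs hρ (σ := ρ * (1 + √ρ)) (by nlinarith) h3
  have h5 : ρ * (1 + √ρ) / ρ = 1 + √ρ := by field_simp
  rw [h5] at h4
  have h6 := log_one_add_half hsq.le hsq1
  have h7 : Real.log (1 + Real.exp (-t)) ≤ Real.exp (-t) := by
    have := Real.log_le_sub_one_of_pos (show 0 < 1 + Real.exp (-t) by linarith)
    linarith
  have h8 : Real.exp (-t) = Real.exp 4010 * Real.exp (-τ) := by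
    rw [← Real.exp_add]
    congr 1
    rw [ht]
    ring
  have hm : 0 ≤ mu.real {θ : ℝ | ‖ψ (circleMap 0 r θ) - 1 / 4‖ < ρ} := measureReal_nonneg
  have h9 : mu.real {θ : ℝ | ‖ψ (circleMap 0 r θ) - 1 / 4‖ < ρ} * (√ρ / 2) ≤
      2 * π * (Real.exp 4010 * Real.exp (-τ)) := by
    calc mu.real {θ : ℝ | ‖ψ (circleMap 0 r θ) - 1 / 4‖ < ρ} * (√ρ / 2)
        ≤ mu.real {θ : ℝ | ‖ψ (circleMap 0 r θ) - 1 / 4‖ < ρ} * Real.log (1 + √ρ) :=
          mul_le_mul_of_nonneg_left h6 hm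
      _ ≤ 2 * π * Real.log (1 + Real.exp (-t)) := h4
      _ ≤ 2 * π * (Real.exp 4010 * Real.exp (-τ)) := by
          rw [← h8]
          exact mul_le_mul_of_nonneg_left h7 (by positivity)
  rw [div_mul_eq_mul_div, le_div_iff₀ hsq]
  linarith

theorem lower_final {x₁ : ℝ} (hx₁ : 100000 ≤ x₁) (hcusp : ∀ x : ℝ, x₁ ≤ x →
    |(ψ ((1 + Real.exp (-x) : ℝ) : ℂ)).re - 1 / 4 - (π * Real.log 2) ^ 2 / x ^ 2| ≤
      17000 / x ^ 3) {ρ τ : ℝ} (hρ : 0 < ρ)
    (hτ : τ = π * Real.log 2 / √ρ) (hτ1 : x₁ ≤ τ) {r : ℝ} (hr : 1 < r)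
    (hr2 : r < 1 + Real.exp (-(τ + 104000)) / 8) :
    √ρ / (12800 * Real.exp 104000) * Real.exp (-τ) ≤
      mu.real {θ : ℝ | ‖ψ (circleMap 0 r θ) - 1 / 4‖ < ρ} := by
  obtain ⟨hk1, hk2, hκ1, hκ2⟩ := kappa_bd
  obtain ⟨κ, hκ⟩ : ∃ κ, κ = π * Real.log 2 := ⟨_, rfl⟩
  have hcusp' := hcusp
  rw [← hκ] at hk1 hk2 hκ1 hκ2 hτ hcusp
  have hsq : 0 < √ρ := Real.sqrt_pos.2 hρ
  have hτ0 : 0 < τ := by linarith
  have hρτ : √ρ = κ / τ := by
    rw [hτ]
    field_simp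
  have hρe : ρ = κ ^ 2 / τ ^ 2 := by
    rw [← Real.sq_sqrt hρ.le, hρτ, div_pow]
  obtain ⟨t, ht⟩ : ∃ t, t = τ + 4000 := ⟨_, rfl⟩
  have htx : x₁ ≤ t := by linarith
  have ht0 : 0 < t := by linarith
  obtain ⟨t', ht', hder⟩ := exists_deriv hψ (t := t) (by linarith) (fun x hx =>
    hcusp' x (htx.trans hx))
  have ht't : t < t' := ht'.1
  have ht't2 : t' < t + 100000 := ht'.2
  have ht'0 : 0 < t' := by linarith
  have hexp : 0 < Real.exp (-t') := Real.exp_pos _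
  have hexp1 : Real.exp (-t') ≤ 1 := Real.exp_le_one_iff.2 (by linarith)
  obtain ⟨s, hs⟩ : ∃ s, s = 1 + Real.exp (-t') := ⟨_, rfl⟩
  have hs1 : 1 < s := by rw [hs]; linarith
  have hs' : s - 1 = Real.exp (-t') := by rw [hs]; ring
  rw [← hs] at hder
  obtain ⟨σ, hσe⟩ : ∃ σ, σ = (ψ s).re - 1 / 4 := ⟨_, rfl⟩
  have hc1 := hcusp t' (by linarith)
  rw [← hs, ← hσe] at hc1
  have hσ0 : 0 < σ := by rw [hσe]; exact g_pos hψ hs1
  -- `σ` is a bit larger than `κ² / t'²`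
  have hb : 17000 / t' ^ 3 ≤ κ ^ 2 / t' ^ 2 * (4000 / t') := by
    have h4 : κ ^ 2 / t' ^ 2 * (4000 / t') = κ ^ 2 * 4000 / t' ^ 3 := by
      field_simp
    rw [h4]
    apply div_le_div_of_nonneg_right _ (by positivity)
    linarith
  have hσle : σ ≤ κ ^ 2 / t' ^ 2 * (1 + 4000 / t') := by
    have := (abs_le.1 hc1).2
    linarith
  have hσρ : σ ≤ ρ := by
    refine hσle.trans ?_
    rw [hρe]
    have h4 : κ ^ 2 / t' ^ 2 * (1 + 4000 / t') = κ ^ 2 * ((t' + 4000) / t' ^ 3) := by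
      field_simp
    have h5 : κ ^ 2 / τ ^ 2 = κ ^ 2 * (1 / τ ^ 2) := by ring
    rw [h4, h5]
    apply mul_le_mul_of_nonneg_left _ (by positivity)
    rw [div_le_div_iff₀ (by positivity) (by positivity), one_mul]
    have h6 : (τ + 4000) ^ 2 ≤ t' ^ 2 := pow_le_pow_left₀ (by linarith) (by linarith) 2
    have h7 : t' * (τ + 4000) ^ 2 ≤ t' ^ 3 := by
      have := mul_le_mul_of_nonneg_left h6 ht'0.le
      calc t' * (τ + 4000) ^ 2 ≤ t' * t' ^ 2 := this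
        _ = t' ^ 3 := by ring
    refine le_trans ?_ h7
    have h8 : τ * τ ≤ τ * t' := mul_le_mul_of_nonneg_left (by linarith) hτ0.le
    nlinarith
  -- the disc around `ψ s`
  obtain ⟨δ, hδ⟩ : ∃ δ, δ = (s - 1) * ‖deriv ψ s‖ / 8 := ⟨_, rfl⟩
  have hδlow : 1 / (8 * t ^ 3) ≤ δ := by
    rw [hδ, hs']
    have : 1 / (8 * t ^ 3) = 1 / t ^ 3 / 8 := by
      field_simp
    rw [this]
    linarith
  have hδ0 : 0 < δ := lt_of_lt_of_le (by positivity) hδlow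
  have hδσ : δ ≤ σ := by
    have := deriv_le hψ hs1
    rw [← hσe] at this
    rw [hδ]
    linarith
  -- the second radius
  obtain ⟨s', hs'e⟩ : ∃ s', s' = 1 + Real.exp (-(5 / 4 * t')) := ⟨_, rfl⟩
  have hs'1 : 1 < s' := by rw [hs'e]; linarith [Real.exp_pos (-(5 / 4 * t'))]
  have hg' : σ / 2 ≤ (ψ s').re - 1 / 4 := by
    have h1 := (abs_le.1 (hcusp (5 / 4 * t') (by linarith))).1
    rw [← hs'e] at h1
    have h2 : κ ^ 2 / (5 / 4 * t') ^ 2 = 16 / 25 * (κ ^ 2 / t' ^ 2) := by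
      field_simp
      norm_num
    have h3 : 17000 / (5 / 4 * t') ^ 3 ≤ 17000 / t' ^ 3 := by
      apply div_le_div_of_nonneg_left (by norm_num) (by positivity)
      exact pow_le_pow_left₀ ht'0.le (by linarith) 3
    have h4 : 4000 / t' ≤ 1 / 25 := by
      rw [div_le_div_iff₀ ht'0 (by norm_num)]
      linarith
    obtain ⟨Q, hQ⟩ : ∃ Q, Q = κ ^ 2 / t' ^ 2 := ⟨_, rfl⟩
    have hQ0 : 0 ≤ Q := by rw [hQ]; positivity
    rw [h2, ← hQ] at h1
    rw [← hQ] at hσle hb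
    have h5 : Q * (4000 / t') ≤ Q * (1 / 25) := mul_le_mul_of_nonneg_left h4 hQ0
    linarith
  have hl := measure_lower hψ hr hs1 hs'1 (s₁ := 1 + (s - 1) / 2) (δ := δ)
    (by rw [← hσe]; exact hg') hδ0 (by rw [← hσe]; exact hδσ)
    (fun c hc => koebe_ball hψ hs1 (by rw [← hδ]; exact hc)) (by linarith)
  rw [← hσe] at hl
  -- estimates
  have hm0 : 0 ≤ mu.real {θ : ℝ | ‖ψ (circleMap 0 r θ) - 1 / 4‖ < σ} := measureReal_nonneg
  have hmono : mu.real {θ : ℝ | ‖ψ (circleMap 0 r θ) - 1 / 4‖ < σ} ≤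
      mu.real {θ : ℝ | ‖ψ (circleMap 0 r θ) - 1 / 4‖ < ρ} :=
    measureReal_mono (fun θ hθ => lt_of_lt_of_le hθ hσρ)
  have e1 : 1 / (160 * t) ≤ δ / σ := by
    rw [div_le_div_iff₀ (by positivity) hσ0, one_mul]
    have h1 : σ ≤ 20 / t ^ 2 := by
      refine hσρ.trans ?_
      rw [hρe, div_le_div_iff₀ (by positivity) (by positivity)]
      have h2 : t ^ 2 ≤ (2 * τ) ^ 2 := pow_le_pow_left₀ ht0.le (by linarith) 2
      nlinarith [sq_nonneg τ]
    have h2 : 20 / t ^ 2 = 1 / (8 * t ^ 3) * (160 * t) := by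
      field_simp
      norm_num
    calc σ ≤ 20 / t ^ 2 := h1
      _ = 1 / (8 * t ^ 3) * (160 * t) := h2
      _ ≤ δ * (160 * t) := mul_le_mul_of_nonneg_right hδlow (by positivity)
  have e2 : Real.exp (-t') / 4 ≤ Real.log (1 + (s - 1) / 2) := by
    rw [hs']
    have := log_one_add_half (y := Real.exp (-t') / 2) (by positivity) (by linarith)
    linarith
  have e3 : Real.log r ≤ Real.exp (-t') / 8 := by
    have h1 := Real.log_le_sub_one_of_pos (show 0 < r by linarith)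
    have h2 : Real.exp (-(τ + 104000)) ≤ Real.exp (-t') := Real.exp_le_exp.2 (by linarith)
    linarith
  have e4 : Real.log s' ≤ Real.exp (-(5 / 4 * t')) := by
    have := Real.log_le_sub_one_of_pos (show 0 < s' by linarith)
    rw [hs'e] at this ⊢
    linarith
  have e5 : 2 * π * Real.exp (-(5 / 4 * t')) ≤ Real.exp (-t') / (2560 * t) := by
    have h1 : Real.exp (-(5 / 4 * t')) = Real.exp (-t') * Real.exp (-(t' / 4)) := by
      rw [← Real.exp_add]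
      congr 1
      ring
    have h2 : Real.exp (-(t' / 4)) ≤ 384 / t' ^ 3 := by
      have h3 := Real.pow_div_factorial_le_exp (t' / 4) (by positivity) 3
      have h4 : (t' / 4) ^ 3 / ((Nat.factorial 3 : ℕ) : ℝ) = t' ^ 3 / 384 := by
        simp [Nat.factorial]
        ring
      rw [h4] at h3
      rw [Real.exp_neg, ← one_div, div_le_div_iff₀ (Real.exp_pos _) (by positivity)]
      rw [div_le_iff₀ (by norm_num)] at h3
      linarith
    rw [h1]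
    have h5 : 2 * π * (384 / t' ^ 3) ≤ 1 / (2560 * t) := by
      rw [mul_div_assoc', div_le_div_iff₀ (by positivity) (by positivity)]
      have hpi := Real.pi_lt_d2
      have h6 : 2 * π * 384 * (2560 * t) ≤ 2 * 3.15 * 384 * (2560 * t') := by
        gcongr
      refine h6.trans ?_
      have h7 : (100000 : ℝ) ^ 2 ≤ t' ^ 2 := pow_le_pow_left₀ (by norm_num) (by linarith) 2
      nlinarith
    calc 2 * π * (Real.exp (-t') * Real.exp (-(t' / 4)))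
        ≤ 2 * π * (Real.exp (-t') * (384 / t' ^ 3)) := by gcongr
      _ = Real.exp (-t') * (2 * π * (384 / t' ^ 3)) := by ring
      _ ≤ Real.exp (-t') * (1 / (2560 * t)) := mul_le_mul_of_nonneg_left h5 hexp.le
      _ = Real.exp (-t') / (2560 * t) := by ring
  have hl2 : Real.log 2 ≤ 1 := by linarith [Real.log_two_lt_d9]
  have e6 : 1 / (160 * t) * (Real.exp (-t') / 8) ≤
      δ / σ * (Real.log (1 + (s - 1) / 2) - Real.log r) := by
    apply mul_le_mul e1 (by linarith) (by positivity) (by positivity)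
  have e7 : 1 / (160 * t) * (Real.exp (-t') / 8) = 2 * (Real.exp (-t') / (2560 * t)) := by
    field_simp
    norm_num
  have e8 : Real.exp (-t') / (2560 * t) ≤
      mu.real {θ : ℝ | ‖ψ (circleMap 0 r θ) - 1 / 4‖ < σ} := by
    have h1 : mu.real {θ : ℝ | ‖ψ (circleMap 0 r θ) - 1 / 4‖ < σ} * Real.log 2 ≤
        mu.real {θ : ℝ | ‖ψ (circleMap 0 r θ) - 1 / 4‖ < σ} := mul_le_of_le_one_right hm0 hl2
    have h2 : 2 * π * Real.log s' ≤ 2 * π * Real.exp (-(5 / 4 * t')) :=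
      mul_le_mul_of_nonneg_left e4 (by positivity)
    linarith
  refine le_trans ?_ (e8.trans hmono)
  have e9 : Real.exp (-τ) / Real.exp 104000 ≤ Real.exp (-t') := by
    rw [← Real.exp_sub]
    exact Real.exp_le_exp.2 (by linarith)
  have e10 : √ρ / 12800 ≤ 1 / (2560 * t) := by
    rw [hρτ, div_div, div_le_div_iff₀ (by positivity) (by positivity)]
    nlinarith
  calc √ρ / (12800 * Real.exp 104000) * Real.exp (-τ)
      = √ρ / 12800 * (Real.exp (-τ) / Real.exp 104000) := by ring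
    _ ≤ 1 / (2560 * t) * Real.exp (-t') := by
        apply mul_le_mul e10 e9 (by positivity) (by positivity)
    _ = Real.exp (-t') / (2560 * t) := by ring

end

theorem harmonic_main :
    (∃ ψ : ℂ → ℂ, IsExteriorMap mandelbrotSet ψ) ∧
    ∀ ψ : ℂ → ℂ, IsExteriorMap mandelbrotSet ψ →
      ∃ C ρ₀ : ℝ, 0 < C ∧ 0 < ρ₀ ∧ ∀ ρ ∈ Ioo 0 ρ₀, ∃ r₀ : ℝ, 1 < r₀ ∧ ∀ r ∈ Ioo 1 r₀,
        √ρ / C * Real.exp (-(π * Real.log 2 / √ρ)) ≤
          (volume {θ ∈ Ioc 0 (2 * π) |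
            ‖ψ (r * Complex.exp (θ * I)) - 1 / 4‖ < ρ}).toReal / (2 * π) ∧
        (volume {θ ∈ Ioc 0 (2 * π) |
            ‖ψ (r * Complex.exp (θ * I)) - 1 / 4‖ < ρ}).toReal / (2 * π) ≤
          C / √ρ * Real.exp (-(π * Real.log 2 / √ρ)) := by
  obtain ⟨β, hβ⟩ := exists_beta (d := 2) le_rfl
  refine ⟨⟨_, exteriorMap_of_beta hβ⟩, ?_⟩
  intro ψ hψ
  obtain ⟨x₁, hx₁, hcusp⟩ := cusp_x hψ
  obtain ⟨hk1, hk2, hκ1, hκ2⟩ := kappa_bd
  have hpi := Real.pi_pos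
  have hpi2 := Real.pi_lt_d2
  have he1 : Real.exp 4010 ≤ Real.exp 104000 := Real.exp_le_exp.2 (by norm_num)
  have he2 := Real.exp_pos 4010
  refine ⟨2 * π * (12800 * Real.exp 104000),
    min 1 ((π * Real.log 2 / (x₁ + 4010)) ^ 2), by positivity, by
      have : 0 < π * Real.log 2 / (x₁ + 4010) := div_pos (by linarith) (by linarith)
      positivity, ?_⟩
  intro ρ hρ
  have hρ0 : 0 < ρ := hρ.1
  have hρ1 : ρ ≤ 1 := (hρ.2.trans_le (min_le_left _ _)).le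
  have hρ2 : ρ < (π * Real.log 2 / (x₁ + 4010)) ^ 2 := hρ.2.trans_le (min_le_right _ _)
  have hsq : 0 < √ρ := Real.sqrt_pos.2 hρ0
  have hsq2 : √ρ ≤ π * Real.log 2 / (x₁ + 4010) := by
    apply Real.sqrt_le_iff.2
    exact ⟨(div_pos (by linarith) (by linarith)).le, hρ2.le⟩
  obtain ⟨τ, hτ⟩ : ∃ τ, τ = π * Real.log 2 / √ρ := ⟨_, rfl⟩
  have hτ1 : x₁ + 4010 ≤ τ := by
    rw [hτ, le_div_iff₀ hsq]
    rw [le_div_iff₀ (by linarith)] at hsq2
    linarith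
  refine ⟨1 + Real.exp (-(τ + 104000)) / 8, by
    have := Real.exp_pos (-(τ + 104000))
    linarith, ?_⟩
  intro r hr
  have hset : (volume {θ ∈ Ioc 0 (2 * π) |
      ‖ψ (r * Complex.exp (θ * I)) - 1 / 4‖ < ρ}).toReal =
      mu.real {θ : ℝ | ‖ψ (circleMap 0 r θ) - 1 / 4‖ < ρ} := by
    unfold mu
    rw [measureReal_restrict_apply (set_meas hψ hr.1 ρ)]
    unfold Measure.real
    congr 2
    ext θ
    simp only [circleMap, zero_add, Set.mem_setOf_eq, Set.mem_inter_iff]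
    tauto
  rw [hset, ← hτ]
  have hup := upper_final hψ hx₁ hcusp hρ0 hρ1 hτ hτ1 hr.1
  have hlo := lower_final hψ hx₁ hcusp hρ0 hτ (by linarith) hr.1 hr.2
  constructor
  · rw [le_div_iff₀ (by positivity)]
    refine le_trans (le_of_eq ?_) hlo
    field_simp
  · rw [div_le_iff₀ (by positivity)]
    refine hup.trans ?_
    have h1 : 4 * π * Real.exp 4010 / √ρ * Real.exp (-τ) =
        (4 * π * Real.exp 4010) * (Real.exp (-τ) / √ρ) := by ring
    have h2 : 2 * π * (12800 * Real.exp 104000) / √ρ * Real.exp (-τ) * (2 * π) =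
        (2 * π * (12800 * Real.exp 104000) * (2 * π)) * (Real.exp (-τ) / √ρ) := by ring
    rw [h1, h2]
    apply mul_le_mul_of_nonneg_right _ (by positivity)
    have hpi3 := Real.pi_gt_three
    have h3 : 4 * π * Real.exp 4010 ≤ 4 * π * Real.exp 104000 := by gcongr
    refine h3.trans ?_
    have h4 : 0 < π * Real.exp 104000 := by positivity
    nlinarith

end Pool.Agent.H13MD
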