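import Pool.Agent.H13MD.Fub

set_option autoImplicit false

/-! # Two-sided bounds for the angular size of a disc around the cusp -/

namespace Pool.Agent.H13MD

open Complex Metric Set Filter Topology Bornology Asymptotics Pool.Agent.H712R2
  Pool.Agent.H713R2 N62a1eb23 Real MeasureTheory

theorem int_cont (f : ℝ → ℝ) (hf : Continuous f) : Integrable f mu := by
  unfold mu
  exact (hf.integrableOn_Icc).mono_set Ioc_subset_Icc_self

variable {ψ : ℂ → ℂ} (hψ : IsExteriorMap (multibrotSet 2) ψ)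
include hψ

theorem psi_sub_ne {r : ℝ} (hr : 1 < r) (θ : ℝ) : ψ (circleMap 0 r θ) - 1 / 4 ≠ 0 := by
  intro h
  have h1 := psi_notMem hψ (z := circleMap 0 r θ) (by
    rw [norm_circleMap_zero, abs_of_pos (by linarith)]; exact hr)
  rw [sub_eq_zero.1 h] at h1
  exact h1 (quarter_mem hψ)

theorem W_cont {r : ℝ} (hr : 1 < r) (σ : ℝ) :
    Continuous fun θ : ℝ =>
      max (Real.log σ - Real.log ‖ψ (circleMap 0 r θ) - 1 / 4‖) 0 := by
  have ha : Continuous fun θ : ℝ => ψ (circleMap 0 r θ) - 1 / 4 :=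
    (psi_circle_cont hψ hr).sub continuous_const
  exact (continuous_const.sub (ha.norm.log fun θ =>
    norm_ne_zero_iff.2 (psi_sub_ne hψ hr θ))).max continuous_const

theorem W_upper {r s σ : ℝ} (hr : 1 < r) (hs : 1 < s) (hσ : 0 < σ)
    (hg : σ ≤ (ψ s).re - 1 / 4) :
    ∫ θ, max (Real.log σ - Real.log ‖ψ (circleMap 0 r θ) - 1 / 4‖) 0 ∂mu ≤
      2 * π * Real.log s := by
  have h1 := mean_eq hψ hr hσ
  have hlr : 0 < Real.log r := Real.log_pos hr
  have hls : 0 < Real.log s := Real.log_pos hs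
  have h2 : ∫ φ, (∫ θ, Real.log ‖ψ (circleMap 0 r θ) - (1 / 4 + circleMap 0 σ φ)‖ ∂mu) ∂mu ≤
      ∫ _, 2 * π * (Real.log r + Real.log s) ∂mu := by
    apply integral_mono_of_nonneg
    · filter_upwards with φ
      rcases inner_eq hψ hr (1 / 4 + circleMap 0 σ φ) with ⟨-, h⟩ | ⟨z₀, -, -, h⟩
      · rw [h]
        simp only [Pi.zero_apply]
        positivity
      · rw [h]
        simp only [Pi.zero_apply]
        have := le_max_left (Real.log r) (Real.log ‖z₀‖)
        have h3 : 0 ≤ max (Real.log r) (Real.log ‖z₀‖) := by linarith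
        positivity
    · exact integrable_const _
    · filter_upwards with φ
      rcases inner_eq hψ hr (1 / 4 + circleMap 0 σ φ) with ⟨-, h⟩ | ⟨z₀, hz₀, hz, h⟩
      · rw [h]
        exact mul_le_mul_of_nonneg_left (by linarith) (by positivity)
      · rw [h]
        apply mul_le_mul_of_nonneg_left _ (by positivity)
        have h3 := green_le hψ hz₀ hs (by
          rw [hz, add_sub_cancel_left, norm_circleMap_zero, abs_of_pos hσ]
          exact hg)
        have h4 := Real.log_le_log (by linarith) h3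
        exact max_le (by linarith) (by linarith)
  rw [int_const_mu] at h2
  have hpi := Real.pi_pos
  have h3 : 2 * π * ∫ θ, max (Real.log σ - Real.log ‖ψ (circleMap 0 r θ) - 1 / 4‖) 0 ∂mu ≤
      2 * π * (2 * π * Real.log s) := by
    rw [h1]
    linarith [h2]
  exact le_of_mul_le_mul_left h3 (by positivity)

theorem set_meas {r : ℝ} (hr : 1 < r) (ρ : ℝ) :
    MeasurableSet {θ : ℝ | ‖ψ (circleMap 0 r θ) - 1 / 4‖ < ρ} := by
  have ha : Continuous fun θ : ℝ => ‖ψ (circleMap 0 r θ) - 1 / 4‖ :=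
    ((psi_circle_cont hψ hr).sub continuous_const).norm
  exact (isOpen_lt ha continuous_const).measurableSet

theorem measure_upper {r s ρ σ : ℝ} (hr : 1 < r) (hs : 1 < s) (hρ : 0 < ρ) (hρσ : ρ < σ)
    (hg : σ ≤ (ψ s).re - 1 / 4) :
    mu.real {θ : ℝ | ‖ψ (circleMap 0 r θ) - 1 / 4‖ < ρ} * Real.log (σ / ρ) ≤
      2 * π * Real.log s := by
  have hσ : 0 < σ := hρ.trans hρσ
  refine le_trans ?_ (W_upper hψ hr hs hσ hg)
  have h1 : ∫ θ, ({θ : ℝ | ‖ψ (circleMap 0 r θ) - 1 / 4‖ < ρ}).indicator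
      (fun _ => Real.log (σ / ρ)) θ ∂mu =
      mu.real {θ : ℝ | ‖ψ (circleMap 0 r θ) - 1 / 4‖ < ρ} * Real.log (σ / ρ) := by
    rw [integral_indicator_const _ (set_meas hψ hr ρ), smul_eq_mul]
  rw [← h1]
  apply integral_mono
  · exact (integrable_const _).indicator (set_meas hψ hr ρ)
  · exact int_cont _ (W_cont hψ hr σ)
  · intro θ
    simp only [Set.indicator_apply, Set.mem_setOf_eq]
    split_ifs with h
    · refine le_trans ?_ (le_max_left _ _)
      rw [Real.log_div hσ.ne' hρ.ne']
      have := Real.log_le_log (norm_pos_iff.2 (psi_sub_ne hψ hr θ)) h.le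
      linarith
    · exact le_max_right _ _

theorem measure_lower {r s s' s₁ δ : ℝ} (hr : 1 < r) (hs : 1 < s) (hs' : 1 < s')
    (hg : ((ψ s).re - 1 / 4) / 2 ≤ (ψ s').re - 1 / 4) (hδ : 0 < δ)
    (hδσ : δ ≤ (ψ s).re - 1 / 4)
    (hball : ∀ c : ℂ, ‖c - ψ s‖ < δ → ∃ z₀ : ℂ, 1 < ‖z₀‖ ∧ ψ z₀ = c ∧ s₁ ≤ ‖z₀‖)
    (hs₁ : 1 < s₁) :
    δ / ((ψ s).re - 1 / 4) * (Real.log s₁ - Real.log r) ≤
      mu.real {θ : ℝ | ‖ψ (circleMap 0 r θ) - 1 / 4‖ < (ψ s).re - 1 / 4} * Real.log 2 +
        2 * π * Real.log s' := by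
  obtain ⟨σ, hσe⟩ : ∃ σ, σ = (ψ s).re - 1 / 4 := ⟨_, rfl⟩
  rw [← hσe] at hg hδσ ⊢
  have hσ : 0 < σ := hδ.trans_le hδσ
  have hpi := Real.pi_pos
  have hlr : 0 < Real.log r := Real.log_pos hr
  -- lower bound for the integral
  have h1 := mean_eq hψ hr hσ
  have hcont : Continuous fun θ : ℝ => ψ (circleMap 0 r θ) - 1 / 4 :=
    (psi_circle_cont hψ hr).sub continuous_const
  have hIo := int_outer hcont hσ
  have h2 : ∀ φ θ : ℝ, ψ (circleMap 0 r θ) - 1 / 4 - circleMap 0 σ φ =
      ψ (circleMap 0 r θ) - (1 / 4 + circleMap 0 σ φ) := by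
    intro φ θ; ring
  simp only [h2] at hIo
  obtain ⟨D, hD⟩ : ∃ D, D = 2 * π * (Real.log s₁ - Real.log r) := ⟨_, rfl⟩
  have h3 : ∫ φ, (2 * π * Real.log r + (Ioo 0 (δ / σ)).indicator (fun _ => D) φ) ∂mu ≤
      ∫ φ, (∫ θ, Real.log ‖ψ (circleMap 0 r θ) - (1 / 4 + circleMap 0 σ φ)‖ ∂mu) ∂mu := by
    apply integral_mono
    · exact (integrable_const _).add ((integrable_const _).indicator measurableSet_Ioo)
    · exact hIo
    · intro φ
      simp only [Set.indicator_apply]
      split_ifs with h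
      · -- in the small arc
        have h4 : ‖(1 / 4 + circleMap 0 σ φ) - ψ s‖ < δ := by
          rw [psi_real_eq hψ hs, ← hσe]
          have h5 : (1 / 4 + circleMap 0 σ φ) - ((1 / 4 + σ : ℝ) : ℂ) =
              σ * (Complex.exp (φ * I) - 1) := by
            simp only [circleMap, zero_add]
            push_cast
            ring
          rw [h5, norm_mul, Complex.norm_real, Real.norm_eq_abs, abs_of_pos hσ]
          have h6 : ‖Complex.exp (φ * I) - 1‖ ≤ |φ| := by
            have := Real.norm_exp_I_mul_ofReal_sub_one_le (x := φ)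
            rw [mul_comm (φ : ℂ) I]
            simpa using this
          have h7 : |φ| < δ / σ := by
            rw [abs_of_pos h.1]; exact h.2
          calc σ * ‖Complex.exp (φ * I) - 1‖ ≤ σ * |φ| := mul_le_mul_of_nonneg_left h6 hσ.le
            _ < σ * (δ / σ) := mul_lt_mul_of_pos_left h7 hσ
            _ = δ := by field_simp
        obtain ⟨z₁, hz₁, hz₁c, hz₁s⟩ := hball _ h4
        rcases inner_eq hψ hr (1 / 4 + circleMap 0 σ φ) with ⟨hm, -⟩ | ⟨z₀, hz₀, hz, h⟩
        · exfalso
          rw [← hz₁c] at hm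
          exact psi_notMem hψ hz₁ hm
        · rw [h]
          have h8 : z₀ = z₁ := hψ.inj hz₀ hz₁ (hz.trans hz₁c.symm)
          rw [h8]
          have h9 := Real.log_le_log (by linarith) hz₁s
          have h10 := le_max_right (Real.log r) (Real.log ‖z₁‖)
          rw [hD]
          have h11 : 2 * π * Real.log r + 2 * π * (Real.log s₁ - Real.log r) =
              2 * π * Real.log s₁ := by ring
          rw [h11]
          exact mul_le_mul_of_nonneg_left (h9.trans h10) (by positivity)
      · rcases inner_eq hψ hr (1 / 4 + circleMap 0 σ φ) with ⟨-, h⟩ | ⟨z₀, -, -, h⟩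
        · rw [h, add_zero]
        · rw [h, add_zero]
          exact mul_le_mul_of_nonneg_left (le_max_left _ _) (by positivity)
  have h4 : ∫ φ, (2 * π * Real.log r + (Ioo 0 (δ / σ)).indicator (fun _ => D) φ) ∂mu =
      2 * π * (2 * π * Real.log r) + δ / σ * D := by
    rw [integral_add (integrable_const _) ((integrable_const _).indicator measurableSet_Ioo),
      int_const_mu, integral_indicator_const _ measurableSet_Ioo, smul_eq_mul]
    congr 2
    have h5 : Ioo 0 (δ / σ) ⊆ Ioc 0 (2 * π) := by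
      intro x hx
      refine ⟨hx.1, ?_⟩
      have h6 : δ / σ ≤ 1 := (div_le_one hσ).2 hδσ
      have := Real.pi_gt_three
      linarith [hx.2]
    unfold mu
    rw [measureReal_restrict_apply measurableSet_Ioo, inter_eq_left.2 h5, Real.volume_real_Ioo,
      sub_zero, max_eq_left (by positivity)]
  rw [h4] at h3
  have h5 : δ / σ * (Real.log s₁ - Real.log r) ≤
      ∫ θ, max (Real.log σ - Real.log ‖ψ (circleMap 0 r θ) - 1 / 4‖) 0 ∂mu := by
    have h6 : 2 * π * (δ / σ * (Real.log s₁ - Real.log r)) ≤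
        2 * π * ∫ θ, max (Real.log σ - Real.log ‖ψ (circleMap 0 r θ) - 1 / 4‖) 0 ∂mu := by
      rw [h1]
      have h7 : 2 * π * (δ / σ * (Real.log s₁ - Real.log r)) = δ / σ * D := by rw [hD]; ring
      rw [h7]
      have h8 : 2 * π * (2 * π * Real.log r) = (2 * π) ^ 2 * Real.log r := by ring
      rw [h8] at h3
      linarith
    exact le_of_mul_le_mul_left h6 (by positivity)
  refine h5.trans ?_
  -- comparison with the half radius
  have h6 := W_upper hψ hr hs' (half_pos hσ) hg
  have h7 : ∫ θ, max (Real.log σ - Real.log ‖ψ (circleMap 0 r θ) - 1 / 4‖) 0 ∂mu ≤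
      ∫ θ, (({θ : ℝ | ‖ψ (circleMap 0 r θ) - 1 / 4‖ < σ}).indicator
        (fun _ => Real.log 2) θ +
        max (Real.log (σ / 2) - Real.log ‖ψ (circleMap 0 r θ) - 1 / 4‖) 0) ∂mu := by
    apply integral_mono
    · exact int_cont _ (W_cont hψ hr σ)
    · exact ((integrable_const _).indicator (set_meas hψ hr σ)).add
        (int_cont _ (W_cont hψ hr (σ / 2)))
    · intro θ
      simp only [Set.indicator_apply, Set.mem_setOf_eq]
      rw [Real.log_div hσ.ne' (by norm_num)]
      have hl2 : 0 < Real.log 2 := Real.log_pos (by norm_num)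
      split_ifs with h
      · rcases le_total 0 (Real.log σ - Real.log ‖ψ (circleMap 0 r θ) - 1 / 4‖) with h8 | h8
        · rw [max_eq_left h8]
          have := le_max_left (Real.log σ - Real.log 2 -
            Real.log ‖ψ (circleMap 0 r θ) - 1 / 4‖) 0
          linarith
        · rw [max_eq_right h8]
          have := le_max_right (Real.log σ - Real.log 2 -
            Real.log ‖ψ (circleMap 0 r θ) - 1 / 4‖) 0
          linarith
      · push Not at h
        have h9 := Real.log_le_log hσ h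
        rw [max_eq_right (by linarith), zero_add]
        exact le_max_right _ _
  refine h7.trans ?_
  rw [integral_add ((integrable_const _).indicator (set_meas hψ hr σ))
    (int_cont _ (W_cont hψ hr (σ / 2))), integral_indicator_const _ (set_meas hψ hr σ),
    smul_eq_mul]
  linarith

end Pool.Agent.H13MD
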