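import Pool.Agent.H13MD.Min
import Pool.Agent.H792R2.SS.KB

set_option autoImplicit false

/-! # Jensen's formula for the exterior map -/

namespace Pool.Agent.H13MD

open Complex Metric Set Filter Topology Bornology Asymptotics Pool.Agent.H712R2
  Pool.Agent.H713R2 N62a1eb23 Real

theorem circleAverage_inv (F : ℂ → ℝ) {r : ℝ} :
    circleAverage F 0 r = circleAverage (fun x => F x⁻¹) 0 r⁻¹ := by
  rw [circleAverage_def, circleAverage_def]
  congr 1
  have h1 : ∀ θ : ℝ, (circleMap 0 r⁻¹ θ)⁻¹ = circleMap 0 r (2 * π - θ) := by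
    intro θ
    simp only [circleMap, zero_add]
    rw [mul_inv, Complex.ofReal_inv, inv_inv, ← Complex.exp_neg]
    congr 1
    rw [Complex.ofReal_sub, sub_mul, Complex.exp_sub]
    push_cast
    rw [Complex.exp_two_pi_mul_I, one_div, ← Complex.exp_neg]
  simp only [h1]
  rw [intervalIntegral.integral_comp_sub_left (fun θ => F (circleMap 0 r θ)) (2 * π)]
  simp

section

variable {β : ℂ → ℂ} (hβ : IsBeta 2 β)
include hβ

theorem jensen_beta_mem {c₀ : ℂ} (hc : c₀ ∈ multibrotSet 2) {q : ℝ} (hq0 : 0 < q) (hq : q < 1) :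
    circleAverage (fun x => Real.log ‖β x - c₀ * x‖) 0 q = 0 := by
  have hsub : closedBall (0 : ℂ) |q| ⊆ ball (0 : ℂ) 1 := by
    intro x hx
    rw [mem_closedBall_zero_iff, abs_of_pos hq0] at hx
    rw [mem_ball_zero_iff]
    linarith
  have han : AnalyticOnNhd ℂ (fun x => β x - c₀ * x) (ball (0 : ℂ) 1) :=
    (hβ.diff.sub (by fun_prop)).analyticOnNhd isOpen_ball
  have h1 := AnalyticOnNhd.circleAverage_log_norm_of_ne_zero (han.mono hsub) (fun u hu h0 => by
    have hu' := hsub hu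
    by_cases hu0 : u = 0
    · rw [hu0, hβ.zero] at h0
      norm_num at h0
    · have h2 : u⁻¹ * β u = c₀ := by
        rw [sub_eq_zero.1 h0]
        field_simp
      exact hβ.notMem u hu' hu0 (by rw [h2]; exact hc))
  rw [h1, hβ.zero]
  norm_num

theorem jensen_beta_not {x₀ : ℂ} (hx₀ : x₀ ∈ ball (0 : ℂ) 1) (hx0 : x₀ ≠ 0) {q : ℝ}
    (hq0 : 0 < q) (hq : q < 1) :
    circleAverage (fun x => Real.log ‖β x - x₀⁻¹ * β x₀ * x‖) 0 q =
      max (Real.log q - Real.log ‖x₀‖) 0 := by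
  obtain ⟨c₀, hc₀⟩ : ∃ c, c = x₀⁻¹ * β x₀ := ⟨_, rfl⟩
  rw [← hc₀]
  obtain ⟨f, hf⟩ : ∃ f : ℂ → ℂ, f = fun x => β x - c₀ * x := ⟨_, rfl⟩
  have hfd : DifferentiableOn ℂ f (ball 0 1) := by
    rw [hf]; exact hβ.diff.sub (by fun_prop)
  have hfx₀ : f x₀ = 0 := by
    rw [hf, hc₀]
    simp only
    field_simp
    ring
  have hf0 : f 0 = 1 := by
    rw [hf]; simp [hβ.zero]
  have hfne : ∀ x ∈ ball (0 : ℂ) 1, x ≠ x₀ → f x ≠ 0 := by
    intro x hx hne h0
    by_cases hxz : x = 0
    · rw [hxz, hf0] at h0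
      exact one_ne_zero h0
    · apply hne
      apply hβ.inj x hx x₀ hx₀ hxz hx0
      rw [← hc₀]
      have h1 : β x = c₀ * x := by
        rw [hf] at h0
        exact sub_eq_zero.1 h0
      rw [h1]
      field_simp
  have hderiv : deriv f x₀ ≠ 0 := by
    obtain ⟨ε, hε, hball⟩ : ∃ ε > 0, ball x₀ ε ⊆ ball (0 : ℂ) 1 \ {0} :=
      Metric.isOpen_iff.1 (isOpen_ball.sdiff isClosed_singleton) x₀ ⟨hx₀, hx0⟩
    have hFd : DifferentiableOn ℂ (fun x => x⁻¹ * β x) (ball x₀ ε) := by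
      intro x hx
      have h1 := hball hx
      exact ((differentiableAt_inv h1.2).mul
        (hβ.diff.differentiableAt (isOpen_ball.mem_nhds h1.1))).differentiableWithinAt
    have hFi : InjOn (fun x => x⁻¹ * β x) (ball x₀ ε) := by
      intro x hx y hy hxy
      exact hβ.inj x (hball hx).1 y (hball hy).1 (hball hx).2 (hball hy).2 hxy
    have h2 := (Pool.Agent.H792R2.SS.t_KB _ x₀ ε hε hFd hFi).1
    have hF : HasDerivAt (fun x => x⁻¹ * β x) (deriv (fun x => x⁻¹ * β x) x₀) x₀ :=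
      (hFd.differentiableAt (isOpen_ball.mem_nhds (mem_ball_self hε))).hasDerivAt
    have h3 : HasDerivAt (fun x => x * (x⁻¹ * β x - c₀))
        (1 * (x₀⁻¹ * β x₀ - c₀) + x₀ * deriv (fun x => x⁻¹ * β x) x₀) x₀ :=
      (hasDerivAt_id' x₀).mul (hF.sub_const c₀)
    have h4 : f =ᶠ[𝓝 x₀] fun x => x * (x⁻¹ * β x - c₀) := by
      filter_upwards [isOpen_ball.mem_nhds (mem_ball_self hε : x₀ ∈ ball x₀ ε)] with x hx
      have hx0' : x ≠ 0 := (hball hx).2
      rw [hf]
      simp only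
      field_simp
    rw [h4.deriv_eq, h3.deriv, ← hc₀, sub_self, mul_zero, zero_add]
    exact mul_ne_zero hx0 h2
  obtain ⟨g, hg⟩ : ∃ g, g = dslope f x₀ := ⟨_, rfl⟩
  have hgd : DifferentiableOn ℂ g (ball 0 1) := by
    rw [hg]
    exact (Complex.differentiableOn_dslope (isOpen_ball.mem_nhds hx₀)).2 hfd
  have hfg : ∀ x, f x = (x - x₀) * g x := by
    intro x
    have h1 := sub_smul_dslope f x₀ x
    rw [smul_eq_mul, hfx₀, sub_zero] at h1
    rw [hg, h1]
  have hgne : ∀ x ∈ ball (0 : ℂ) 1, g x ≠ 0 := by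
    intro x hx h0
    by_cases hxx : x = x₀
    · rw [hg, hxx, dslope_same] at h0
      exact hderiv h0
    · exact hfne x hx hxx (by rw [hfg, h0, mul_zero])
  have hsub : closedBall (0 : ℂ) |q| ⊆ ball (0 : ℂ) 1 := by
    intro x hx
    rw [mem_closedBall_zero_iff, abs_of_pos hq0] at hx
    rw [mem_ball_zero_iff]
    linarith
  have h1 := AnalyticOnNhd.circleAverage_log_norm_of_ne_zero
    ((hgd.analyticOnNhd isOpen_ball).mono hsub) (fun u hu => hgne u (hsub hu))
  have h2 := circleAverage_log_norm_sub_const_eq_log_radius_add_posLog (a := x₀) (c := 0)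
    (R := q) hq0.ne'
  have hg0 : g 0 = - x₀⁻¹ := by
    have h3 := hfg 0
    rw [hf0] at h3
    have : g 0 = 1 / (0 - x₀) := by
      rw [eq_div_iff (by simpa using hx0)]
      linear_combination -h3
    rw [this]
    field_simp
    norm_num
  have hI1 : CircleIntegrable (fun x => Real.log ‖x - x₀‖) 0 q :=
    circleIntegrable_log_norm_sub_const q
  have hI2 : CircleIntegrable (fun x => Real.log ‖g x‖) 0 q := by
    apply ContinuousOn.circleIntegrable hq0.le
    have hgc : ContinuousOn g (sphere 0 q) := hgd.continuousOn.mono (by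
      intro x hx
      apply hsub
      rw [abs_of_pos hq0]
      exact sphere_subset_closedBall hx)
    apply ContinuousOn.log hgc.norm
    intro x hx
    rw [norm_ne_zero_iff]
    exact hgne x (hsub (by rw [abs_of_pos hq0]; exact sphere_subset_closedBall hx))
  have h4 : circleAverage (fun x => Real.log ‖f x‖) 0 q =
      circleAverage (fun x => Real.log ‖x - x₀‖ + Real.log ‖g x‖) 0 q := by
    apply circleAverage_congr_codiscreteWithin _ hq0.ne'
    have : {z | ‖z - x₀‖ ≠ 0} ∈ codiscreteWithin (Metric.sphere (0 : ℂ) |q|) := by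
      apply codiscreteWithin_iff_locallyFiniteComplementWithin.2
      intro z hz
      use Set.univ
      simp only [univ_mem, ne_eq, norm_eq_zero, Set.univ_inter, true_and]
      apply Set.Subsingleton.finite
      intro z₁ hz₁ z₂ hz₂
      simp only [mem_sphere_iff_norm, sub_zero, Set.mem_sdiff, Set.mem_ofPred_eq,
        Decidable.not_not] at hz₁ hz₂
      rw [sub_eq_zero.1 hz₁.2, sub_eq_zero.1 hz₂.2]
    have hsph : Metric.sphere (0 : ℂ) |q| ∈ codiscreteWithin (Metric.sphere (0 : ℂ) |q|) :=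
      self_mem_codiscreteWithin _
    filter_upwards [this, hsph] with z hz hzs
    rw [hfg z, norm_mul, Real.log_mul hz]
    rw [norm_ne_zero_iff]
    exact hgne z (hsub (sphere_subset_closedBall hzs))
  have h5 : (fun x => Real.log ‖β x - c₀ * x‖) = fun x => Real.log ‖f x‖ := by
    rw [hf]
  rw [h5, h4]
  have h6 := circleAverage_add hI1 hI2
  have h7 : (fun x => Real.log ‖x - x₀‖) + (fun x => Real.log ‖g x‖) =
      fun x => Real.log ‖x - x₀‖ + Real.log ‖g x‖ := rfl
  rw [h7] at h6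
  rw [h6, h1, h2, hg0, norm_neg, norm_inv, Real.log_inv, zero_sub, norm_neg]
  have hn : 0 < ‖x₀‖ := norm_pos_iff.2 hx0
  have h8 : Real.posLog (q⁻¹ * ‖x₀‖) = max 0 (Real.log ‖x₀‖ - Real.log q) := by
    rw [Real.posLog, Real.log_mul (by positivity) hn.ne', Real.log_inv]
    congr 1
    ring
  rw [h8]
  rcases le_total (Real.log ‖x₀‖) (Real.log q) with h9 | h9
  · rw [max_eq_left (by linarith), max_eq_left (by linarith)]
    ring
  · rw [max_eq_right (by linarith), max_eq_right (by linarith)]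
    ring

end

section

variable {ψ : ℂ → ℂ} (hψ : IsExteriorMap (multibrotSet 2) ψ)
include hψ

theorem log_psi_sub {β : ℂ → ℂ} (hβ : IsBeta 2 β) (c₀ : ℂ) {r : ℝ} (hr : 1 < r) :
    circleAverage (fun z => Real.log ‖ψ z - c₀‖) 0 r =
      Real.log r + circleAverage (fun x => Real.log ‖β x - c₀ * x‖) 0 r⁻¹ := by
  have hr0 : 0 < r := by linarith
  rw [circleAverage_inv]
  have hq : 0 < r⁻¹ := by positivity
  have han : AnalyticOnNhd ℂ (fun x => β x - c₀ * x) (ball (0 : ℂ) 1) :=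
    (hβ.diff.sub (by fun_prop)).analyticOnNhd isOpen_ball
  have hq1 : r⁻¹ < 1 := inv_lt_one_of_one_lt₀ hr
  have hsub : sphere (0 : ℂ) |r⁻¹| ⊆ ball (0 : ℂ) 1 := by
    intro x hx
    rw [mem_sphere_zero_iff_norm, abs_of_pos hq] at hx
    rw [mem_ball_zero_iff]
    linarith
  have hI : CircleIntegrable (fun x => Real.log ‖β x - c₀ * x‖) 0 r⁻¹ :=
    MeromorphicOn.circleIntegrable_log_norm (fun z hz => (han z (hsub hz)).meromorphicAt)
  have h1 : circleAverage (fun x => Real.log ‖ψ x⁻¹ - c₀‖) 0 r⁻¹ =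
      circleAverage (fun x => Real.log r + Real.log ‖β x - c₀ * x‖) 0 r⁻¹ := by
    apply circleAverage_congr_codiscreteWithin _ hq.ne'
    have : {z | β z - c₀ * z ≠ 0} ∈ codiscreteWithin (Metric.sphere (0 : ℂ) |r⁻¹|) := by
      apply codiscreteWithin_iff_locallyFiniteComplementWithin.2
      intro z hz
      use Set.univ
      simp only [univ_mem, ne_eq, Set.univ_inter, true_and]
      apply Set.Subsingleton.finite
      intro z₁ hz₁ z₂ hz₂
      simp only [mem_sphere_iff_norm, sub_zero, Set.mem_sdiff, Set.mem_ofPred_eq,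
        Decidable.not_not] at hz₁ hz₂
      have hne : ∀ z : ℂ, ‖z‖ = |r⁻¹| → z ≠ 0 := by
        intro z hz h0
        rw [h0, norm_zero] at hz
        rw [abs_of_pos hq] at hz
        linarith
      have e : ∀ z : ℂ, ‖z‖ = |r⁻¹| → β z - c₀ * z = 0 → z⁻¹ * β z = c₀ := by
        intro z hz h0
        have := hne z hz
        rw [sub_eq_zero.1 h0]
        field_simp
      apply hβ.inj z₁ (hsub (by rw [mem_sphere_zero_iff_norm]; exact hz₁.1)) z₂
        (hsub (by rw [mem_sphere_zero_iff_norm]; exact hz₂.1)) (hne _ hz₁.1) (hne _ hz₂.1)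
      rw [e _ hz₁.1 hz₁.2, e _ hz₂.1 hz₂.2]
    have hsph : Metric.sphere (0 : ℂ) |r⁻¹| ∈ codiscreteWithin (Metric.sphere (0 : ℂ) |r⁻¹|) :=
      self_mem_codiscreteWithin _
    filter_upwards [this, hsph] with z hz hzs
    have hzn : ‖z‖ = r⁻¹ := by
      rw [mem_sphere_zero_iff_norm, abs_of_pos hq] at hzs
      exact hzs
    have hz0 : z ≠ 0 := by
      intro h0
      rw [h0, norm_zero] at hzn
      linarith
    have h2 : ψ z⁻¹ - c₀ = z⁻¹ * (β z - c₀ * z) := by
      rw [exteriorMap_unique hβ hψ (by rw [norm_inv, hzn, inv_inv]; exact hr), inv_inv]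
      field_simp
    rw [h2, norm_mul, norm_inv, hzn, inv_inv, Real.log_mul hr0.ne' (norm_ne_zero_iff.2 hz)]
  rw [h1]
  have h6 := circleAverage_add (circleIntegrable_const (Real.log r) 0 r⁻¹) hI
  have h7 : (fun _ : ℂ => Real.log r) + (fun x => Real.log ‖β x - c₀ * x‖) =
      fun x => Real.log r + Real.log ‖β x - c₀ * x‖ := rfl
  rw [h7] at h6
  rw [h6, circleAverage_const]

theorem jensen_mem {c₀ : ℂ} (hc : c₀ ∈ multibrotSet 2) {r : ℝ} (hr : 1 < r) :
    circleAverage (fun z => Real.log ‖ψ z - c₀‖) 0 r = Real.log r := by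
  obtain ⟨β, hβ⟩ := exists_beta (d := 2) le_rfl
  rw [log_psi_sub hψ hβ c₀ hr, jensen_beta_mem hβ hc (by positivity)
    (inv_lt_one_of_one_lt₀ hr), add_zero]

theorem jensen_not {z₀ : ℂ} (hz₀ : 1 < ‖z₀‖) {r : ℝ} (hr : 1 < r) :
    circleAverage (fun z => Real.log ‖ψ z - ψ z₀‖) 0 r =
      max (Real.log r) (Real.log ‖z₀‖) := by
  obtain ⟨β, hβ⟩ := exists_beta (d := 2) le_rfl
  obtain ⟨h1, h2⟩ := inv_mem_ball hz₀
  have h3 := jensen_beta_not hβ h1 h2 (q := r⁻¹) (by positivity) (inv_lt_one_of_one_lt₀ hr)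
  rw [inv_inv, ← exteriorMap_unique hβ hψ hz₀] at h3
  rw [log_psi_sub hψ hβ _ hr, h3, norm_inv, Real.log_inv, Real.log_inv]
  rcases le_total (Real.log r) (Real.log ‖z₀‖) with h4 | h4
  · rw [max_eq_left (by linarith), max_eq_right h4]
    ring
  · rw [max_eq_right (by linarith), max_eq_left h4]
    ring

end

end Pool.Agent.H13MD
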