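import Pool.Agent.H13MD.Hms

set_option autoImplicit false

/-! # Harmonic measure at the cusp -/

namespace Pool.Agent.H13MD

open Complex Metric Set Filter Topology Bornology Asymptotics Pool.Agent.H712R2
  Pool.Agent.H713R2 N62a1eb23 Real MeasureTheory

/-- Koebe's one-quarter theorem, from the bound of the second coefficient (as in H713R5.QJ.kb_omit) -/
theorem koebe_omit {Z : ℂ → ℂ} {A : ℝ} (hA : 0 < A) (hd : DifferentiableOn ℂ Z (ball 0 A))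
    (hi : InjOn Z (ball 0 A)) {u : ℂ} (hu : ∀ w ∈ ball (0 : ℂ) A, Z w ≠ u) :
    A * ‖deriv Z 0‖ ≤ 4 * ‖Z 0 - u‖ := by
  have h0 : (0 : ℂ) ∈ ball (0 : ℂ) A := mem_ball_self hA
  obtain ⟨hZ1, hZ2⟩ := Pool.Agent.H792R2.SS.t_KB Z 0 A hA hd hi
  have hne : ∀ w ∈ ball (0 : ℂ) A, Z w - u ≠ 0 := fun w hw => sub_ne_zero.2 (hu w hw)
  have hgd : DifferentiableOn ℂ (fun w => (Z w - u)⁻¹) (ball 0 A) := (hd.sub_const u).inv hne
  have hgi : InjOn (fun w => (Z w - u)⁻¹) (ball 0 A) := by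
    intro w hw w' hw' h
    have h1 : Z w - u = Z w' - u := inv_injective h
    exact hi hw hw' (sub_left_injective h1)
  obtain ⟨hg1, hg2⟩ := Pool.Agent.H792R2.SS.t_KB (fun w => (Z w - u)⁻¹) 0 A hA hgd hgi
  have hd1 : ∀ w ∈ ball (0 : ℂ) A,
      HasDerivAt (fun w => (Z w - u)⁻¹) (-(deriv Z w) / (Z w - u) ^ 2) w := by
    intro w hw
    have h1 := ((hd.differentiableAt (isOpen_ball.mem_nhds hw)).hasDerivAt.sub_const u)
    exact h1.inv (hne w hw)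
  have hd2 : deriv (fun w => (Z w - u)⁻¹) =ᶠ[𝓝 0] fun w => -(deriv Z w) / (Z w - u) ^ 2 := by
    filter_upwards [isOpen_ball.mem_nhds h0] with w hw using (hd1 w hw).deriv
  have hZ0 : HasDerivAt Z (deriv Z 0) 0 :=
    (hd.differentiableAt (isOpen_ball.mem_nhds h0)).hasDerivAt
  have hZ'' : HasDerivAt (deriv Z) (deriv (deriv Z) 0) 0 :=
    ((hd.deriv isOpen_ball).differentiableAt (isOpen_ball.mem_nhds h0)).hasDerivAt
  have hq : Z 0 - u ≠ 0 := hne 0 h0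
  have hd3 : HasDerivAt (fun w => -(deriv Z w) / (Z w - u) ^ 2)
      ((-(deriv (deriv Z) 0) * (Z 0 - u) ^ 2 -
        -(deriv Z 0) * ((2 : ℕ) * (Z 0 - u) ^ (2 - 1) * deriv Z 0)) / ((Z 0 - u) ^ 2) ^ 2) 0 :=
    hZ''.neg.div ((hZ0.sub_const u).pow 2) (pow_ne_zero 2 hq)
  have e1 : deriv (deriv (fun w => (Z w - u)⁻¹)) 0 =
      (2 * deriv Z 0 ^ 2 - deriv (deriv Z) 0 * (Z 0 - u)) / (Z 0 - u) ^ 3 := by
    rw [hd2.deriv_eq, hd3.deriv]
    field_simp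
    push_cast
    ring
  have e2 : deriv (fun w => (Z w - u)⁻¹) 0 = -(deriv Z 0) / (Z 0 - u) ^ 2 := (hd1 0 h0).deriv
  rw [e1, e2, norm_div, norm_div, norm_neg, norm_pow, norm_pow] at hg2
  have hqn : 0 < ‖Z 0 - u‖ := norm_pos_iff.2 hq
  have hzn : 0 < ‖deriv Z 0‖ := norm_pos_iff.2 hZ1
  have h3 : A * ‖2 * deriv Z 0 ^ 2 - deriv (deriv Z) 0 * (Z 0 - u)‖ ≤
      4 * ‖deriv Z 0‖ * ‖Z 0 - u‖ := by
    have h4 := mul_le_mul_of_nonneg_right hg2 (pow_nonneg hqn.le 3)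
    have e3 : A * (‖2 * deriv Z 0 ^ 2 - deriv (deriv Z) 0 * (Z 0 - u)‖ / ‖Z 0 - u‖ ^ 3) *
        ‖Z 0 - u‖ ^ 3 = A * ‖2 * deriv Z 0 ^ 2 - deriv (deriv Z) 0 * (Z 0 - u)‖ := by
      field_simp
    have e4 : 4 * (‖deriv Z 0‖ / ‖Z 0 - u‖ ^ 2) * ‖Z 0 - u‖ ^ 3 =
        4 * ‖deriv Z 0‖ * ‖Z 0 - u‖ := by
      field_simp
    rwa [e3, e4] at h4
  have h5 : 2 * ‖deriv Z 0‖ ^ 2 ≤ ‖2 * deriv Z 0 ^ 2 - deriv (deriv Z) 0 * (Z 0 - u)‖ +
      ‖deriv (deriv Z) 0‖ * ‖Z 0 - u‖ := by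
    have h6 := norm_add_le (2 * deriv Z 0 ^ 2 - deriv (deriv Z) 0 * (Z 0 - u))
      (deriv (deriv Z) 0 * (Z 0 - u))
    rw [sub_add_cancel, norm_mul, norm_pow, norm_mul (deriv (deriv Z) 0)] at h6
    simpa using h6
  have h7 : A * (2 * ‖deriv Z 0‖ ^ 2) ≤ 8 * ‖deriv Z 0‖ * ‖Z 0 - u‖ := by
    have h8 := mul_le_mul_of_nonneg_left h5 hA.le
    have h9 := mul_le_mul_of_nonneg_right hZ2 hqn.le
    nlinarith
  have h10 : (A * ‖deriv Z 0‖) * ‖deriv Z 0‖ ≤ (4 * ‖Z 0 - u‖) * ‖deriv Z 0‖ := by nlinarith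
  exact le_of_mul_le_mul_right h10 hzn

section

variable {ψ : ℂ → ℂ} (hψ : IsExteriorMap (multibrotSet 2) ψ)
include hψ

theorem ball_sub {s : ℝ} (hs : 1 < s) {A : ℝ} (hA : A ≤ s - 1) :
    ball (s : ℂ) A ⊆ {z | 1 < ‖z‖} := by
  intro z hz
  rw [mem_ball, dist_eq_norm] at hz
  have h1 := norm_sub_norm_le (s : ℂ) z
  rw [norm_sub_rev, Complex.norm_real, Real.norm_eq_abs, abs_of_pos (by linarith)] at h1
  show 1 < ‖z‖
  linarith

theorem koebe_psi {s : ℝ} (hs : 1 < s) {A : ℝ} (hA0 : 0 < A) (hA : A ≤ s - 1) {u : ℂ}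
    (hu : ∀ z ∈ ball (s : ℂ) A, ψ z ≠ u) : A * ‖deriv ψ s‖ ≤ 4 * ‖ψ s - u‖ := by
  have hsub := ball_sub hψ hs hA
  have hmap : ∀ w ∈ ball (0 : ℂ) A, (s : ℂ) + w ∈ ball (s : ℂ) A := by
    intro w hw
    rw [mem_ball_zero_iff] at hw
    rw [mem_ball, dist_eq_norm, add_sub_cancel_left]
    exact hw
  have hd : DifferentiableOn ℂ (fun w => ψ (s + w)) (ball 0 A) :=
    (hψ.diff.mono hsub).comp (by fun_prop) hmap
  have hi : InjOn (fun w => ψ (s + w)) (ball 0 A) := by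
    intro x hx y hy hxy
    exact add_left_cancel (hψ.inj (hsub (hmap x hx)) (hsub (hmap y hy)) hxy)
  have h1 := koebe_omit hA0 hd hi (u := u) (fun w hw => hu _ (hmap w hw))
  have h2 : deriv (fun w => ψ (s + w)) 0 = deriv ψ s := by
    rw [deriv_comp_const_add, add_zero]
  simp only [add_zero] at h1
  rw [h2] at h1
  exact h1

theorem deriv_le {s : ℝ} (hs : 1 < s) :
    (s - 1) * ‖deriv ψ s‖ ≤ 4 * ((ψ s).re - 1 / 4) := by
  have h1 := koebe_psi hψ hs (A := s - 1) (by linarith) le_rfl (u := 1 / 4) (fun z hz h => by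
    have h2 := psi_notMem hψ (ball_sub hψ hs le_rfl hz)
    rw [h] at h2
    exact h2 (quarter_mem hψ))
  have h3 := g_pos hψ hs
  have h2 : ‖ψ s - 1 / 4‖ = (ψ s).re - 1 / 4 := by
    obtain ⟨c, hc, -⟩ := psi_real_pos hψ hs
    rw [hc, Complex.ofReal_re] at h3 ⊢
    rw [show (c : ℂ) - 1 / 4 = ((c - 1 / 4 : ℝ) : ℂ) by push_cast; ring, Complex.norm_real,
      Real.norm_eq_abs, abs_of_pos h3]
  rwa [h2] at h1

theorem koebe_ball {s : ℝ} (hs : 1 < s) {c : ℂ}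
    (hc : ‖c - ψ s‖ < (s - 1) * ‖deriv ψ s‖ / 8) :
    ∃ z₀ : ℂ, 1 < ‖z₀‖ ∧ ψ z₀ = c ∧ 1 + (s - 1) / 2 ≤ ‖z₀‖ := by
  by_contra hcon
  push Not at hcon
  have h1 := koebe_psi hψ hs (A := (s - 1) / 2) (by linarith) (by linarith) (u := c)
    (fun z hz h => by
      have h2 := hcon z (ball_sub hψ hs (by linarith) hz) h
      rw [mem_ball, dist_eq_norm] at hz
      have h3 := norm_sub_norm_le (s : ℂ) z
      rw [norm_sub_rev, Complex.norm_real, Real.norm_eq_abs, abs_of_pos (by linarith)] at h3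
      linarith)
  rw [norm_sub_rev] at h1
  linarith

/-- a point of a long window at which the derivative is large -/
theorem exists_deriv {t : ℝ} (ht : 100000 ≤ t) (hcusp : ∀ x : ℝ, t ≤ x →
    |(ψ ((1 + Real.exp (-x) : ℝ) : ℂ)).re - 1 / 4 - (π * Real.log 2) ^ 2 / x ^ 2| ≤
      17000 / x ^ 3) :
    ∃ t' ∈ Ioo t (t + 100000), 1 / t ^ 3 ≤
      Real.exp (-t') * ‖deriv ψ ((1 + Real.exp (-t') : ℝ) : ℂ)‖ := by
  obtain ⟨f, hf⟩ : ∃ f : ℝ → ℝ, f = fun x => (ψ ((1 + Real.exp (-x) : ℝ) : ℂ)).re := ⟨_, rfl⟩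
  have hs : ∀ x : ℝ, 1 < 1 + Real.exp (-x) := fun x => by
    have := Real.exp_pos (-x)
    linarith
  have hder : ∀ x : ℝ, HasDerivAt f
      ((-Real.exp (-x)) • deriv ψ ((1 + Real.exp (-x) : ℝ) : ℂ)).re x := by
    intro x
    have hn : (((1 + Real.exp (-x) : ℝ) : ℂ)) ∈ {z : ℂ | 1 < ‖z‖} := by
      show 1 < ‖((1 + Real.exp (-x) : ℝ) : ℂ)‖
      rw [Complex.norm_real, Real.norm_eq_abs, abs_of_pos (by linarith [hs x])]
      exact hs x
    have h1 : HasDerivAt ψ (deriv ψ ((1 + Real.exp (-x) : ℝ) : ℂ))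
        ((1 + Real.exp (-x) : ℝ) : ℂ) :=
      (hψ.diff.differentiableAt
        ((isOpen_lt continuous_const continuous_norm).mem_nhds hn)).hasDerivAt
    have h2 := h1.comp_ofReal
    have h3 : HasDerivAt (fun x : ℝ => 1 + Real.exp (-x)) (-Real.exp (-x)) x := by
      have := ((hasDerivAt_neg x).exp).const_add 1
      simpa using this
    have h4 := h2.scomp x h3
    have h5 := Complex.reCLM.hasFDerivAt.comp_hasDerivAt x h4
    rw [hf]
    exact h5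
  obtain ⟨t', ht', he⟩ := exists_hasDerivAt_eq_slope f _ (show t < t + 100000 by linarith)
    (fun x _ => (hder x).continuousAt.continuousWithinAt) (fun x _ => hder x)
  refine ⟨t', ht', ?_⟩
  have h1 := (abs_le.1 (hcusp t le_rfl)).1
  have h2 := (abs_le.1 (hcusp (t + 100000) (by linarith))).2
  have h3 : |((-Real.exp (-t')) • deriv ψ ((1 + Real.exp (-t') : ℝ) : ℂ)).re| ≤
      Real.exp (-t') * ‖deriv ψ ((1 + Real.exp (-t') : ℝ) : ℂ)‖ := by
    refine (abs_re_le_norm _).trans (le_of_eq ?_)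
    rw [norm_smul, norm_neg, Real.norm_eq_abs, abs_of_pos (Real.exp_pos _)]
  refine le_trans ?_ h3
  rw [he]
  have hft : f t = (ψ ((1 + Real.exp (-t) : ℝ) : ℂ)).re := by rw [hf]
  have hft2 : f (t + 100000) = (ψ ((1 + Real.exp (-(t + 100000)) : ℝ) : ℂ)).re := by rw [hf]
  rw [← hft] at h1
  rw [← hft2] at h2
  have ht0 : 0 < t := by linarith
  -- the main term
  have hk : (4.5 : ℝ) ≤ (π * Real.log 2) ^ 2 := by
    have h4 := Real.pi_gt_d2
    have h5 := Real.log_two_gt_d9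
    have h6 : (2.15 : ℝ) ≤ π * Real.log 2 := by nlinarith
    nlinarith
  obtain ⟨k, hkk⟩ : ∃ k, k = (π * Real.log 2) ^ 2 := ⟨_, rfl⟩
  rw [← hkk] at h1 h2 hk
  have h5 : 17000 / (t + 100000) ^ 3 ≤ 17000 / t ^ 3 := by
    apply div_le_div_of_nonneg_left (by norm_num) (by positivity)
    exact pow_le_pow_left₀ ht0.le (by linarith) 3
  have h6 : k / t ^ 2 - k / (t + 100000) ^ 2 ≥ 200000 / t ^ 3 := by
    have h7 : k / t ^ 2 - k / (t + 100000) ^ 2 =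
        k * (100000 * (2 * t + 100000)) / (t ^ 2 * (t + 100000) ^ 2) := by
      field_simp
      ring
    rw [h7, ge_iff_le, div_le_div_iff₀ (by positivity) (by positivity)]
    have h8 : (t + 100000) ^ 2 ≤ (2 * t) ^ 2 := pow_le_pow_left₀ (by linarith) (by linarith) 2
    have h9 : 200000 * (t ^ 2 * (t + 100000) ^ 2) ≤ 200000 * (t ^ 2 * (2 * t) ^ 2) := by
      gcongr
    refine h9.trans ?_
    have h10 : 200000 * (t ^ 2 * (2 * t) ^ 2) = 800000 * t ^ 4 := by ring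
    have h11 : k * (100000 * (2 * t + 100000)) * t ^ 3 ≥ 4.5 * (100000 * (2 * t)) * t ^ 3 := by
      gcongr
      linarith
    rw [h10]
    have h12 : 4.5 * (100000 * (2 * t)) * t ^ 3 = 900000 * t ^ 4 := by ring
    have h13 : 0 < t ^ 4 := by positivity
    linarith
  have h7 : 100000 * (1 / t ^ 3) ≤ f t - f (t + 100000) := by
    have h8 : 17000 / t ^ 3 = 17000 * (1 / t ^ 3) := by ring
    have h9 : 200000 / t ^ 3 = 200000 * (1 / t ^ 3) := by ring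
    have h10 : 0 < 1 / t ^ 3 := by positivity
    linarith
  rw [show t + 100000 - t = 100000 by ring, abs_div, abs_of_pos (show (0 : ℝ) < 100000 by norm_num),
    le_div_iff₀ (by norm_num)]
  have h8 := neg_abs_le (f (t + 100000) - f t)
  linarith

end

end Pool.Agent.H13MD
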