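import Pool.Agent.H13MD.Quad
import Pool.Agent.H13MD.Contr
import Pool.Agent.W677.MB5

set_option autoImplicit false

/-! # Parameter rays with dyadic angles land, at a Hölder rate -/

namespace Pool.Agent.H13MD

open Complex Metric Set Filter Topology Bornology Pool.Agent.H712R2
  Pool.Agent.H713R2 N62a1eb23 Polynomial
open scoped ComplexConjugate

/-- near the nonnegative real axis the critical orbit has positive imaginary part -/
theorem im_pos (n : ℕ) : ∃ C : ℝ, 1 ≤ C ∧ ∀ δ : ℝ, 0 < δ → ∃ η : ℝ, 0 < η ∧ η ≤ 1 ∧ ∀ c : ℂ,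
    -η ≤ c.re → c.re ≤ 3 → 0 < c.im → c.im ≤ η →
      0 < (P 2 (n + 1) c).im ∧ (P 2 (n + 1) c).im ≤ C * c.im ∧ -δ ≤ (P 2 (n + 1) c).re ∧
        (P 2 (n + 1) c).re ≤ C := by
  induction n with
  | zero =>
    refine ⟨3, by norm_num, fun δ hδ => ⟨min δ 1, by positivity, min_le_right _ _, ?_⟩⟩
    intro c h1 h2 h3 h4
    rw [P_one le_rfl]
    refine ⟨h3, by linarith, ?_, h2⟩
    linarith [min_le_left δ 1]
  | succ n ih =>
    obtain ⟨C, hC, h⟩ := ih
    refine ⟨3 * C ^ 2 + 5, by nlinarith, fun δ hδ => ?_⟩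
    obtain ⟨η, hη, hη1, hh⟩ := h (1 / (4 * C)) (by positivity)
    refine ⟨min η (δ / (C ^ 2 + 1)), by positivity, (min_le_left _ _).trans hη1, ?_⟩
    intro c h1 h2 h3 h4
    have hml := min_le_left η (δ / (C ^ 2 + 1))
    have hmr := min_le_right η (δ / (C ^ 2 + 1))
    obtain ⟨g1, g2, g3, g4⟩ := hh c (by linarith) h2 h3 (by linarith)
    obtain ⟨x, hx⟩ : ∃ x, x = (P 2 (n + 1) c).re := ⟨_, rfl⟩
    obtain ⟨y, hy⟩ : ∃ y, y = (P 2 (n + 1) c).im := ⟨_, rfl⟩
    have e1 : (P 2 (n + 1 + 1) c).re = x * x - y * y + c.re := by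
      rw [P_succ, Complex.add_re, sq, Complex.mul_re, hx, hy]
    have e2 : (P 2 (n + 1 + 1) c).im = 2 * (x * y) + c.im := by
      rw [P_succ, Complex.add_im, sq, Complex.mul_im, hx, hy]
      ring
    rw [← hy] at g1 g2
    rw [← hx] at g3 g4
    rw [e1, e2]
    have hb1 : c.im ≤ 1 := by linarith
    have hC0 : 0 < C := by linarith
    have k1 : -(c.im / 4) ≤ x * y := by
      rcases le_total 0 x with h5 | h5
      · have := mul_nonneg h5 g1.le
        linarith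
      · have h6 : (-x) * y ≤ (1 / (4 * C)) * (C * c.im) :=
          mul_le_mul (by linarith) g2 g1.le (by positivity)
        have h7 : (1 / (4 * C)) * (C * c.im) = c.im / 4 := by
          field_simp
        linarith
    have k2 : x * y ≤ C * (C * c.im) := mul_le_mul g4 g2 g1.le (by linarith)
    have k3 : y * y ≤ (C * c.im) * (C * c.im) := mul_le_mul g2 g2 g1.le (by positivity)
    have hq : c.im * (C ^ 2 + 1) ≤ δ := by
      have := le_trans h4 hmr
      rwa [le_div_iff₀ (by positivity)] at this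
    have hq2 : -(δ / (C ^ 2 + 1)) ≤ c.re := by linarith
    have hci2 : c.im * c.im ≤ c.im * 1 := mul_le_mul_of_nonneg_left hb1 h3.le
    refine ⟨by linarith, by nlinarith, ?_, ?_⟩
    · -- lower bound for the real part
      have h8 : (C * c.im) * (C * c.im) = C ^ 2 * (c.im * c.im) := by ring
      have h9 : C ^ 2 * (c.im * c.im) ≤ C ^ 2 * c.im := by
        have := mul_le_mul_of_nonneg_left hci2 (sq_nonneg C)
        linarith
      have h10 : c.im ≤ δ / (C ^ 2 + 1) := le_trans h4 hmr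
      have h11 : C ^ 2 * c.im ≤ C ^ 2 * (δ / (C ^ 2 + 1)) :=
        mul_le_mul_of_nonneg_left h10 (sq_nonneg C)
      have h12 : C ^ 2 * (δ / (C ^ 2 + 1)) + δ / (C ^ 2 + 1) = δ := by
        field_simp
      nlinarith [mul_self_nonneg x]
    · have h13 : x * x ≤ C ^ 2 + 1 := by
        rcases le_total 0 x with h5 | h5
        · nlinarith
        · have h14 : 1 / (4 * C) ≤ 1 := by
            rw [div_le_one (by positivity)]
            linarith
          nlinarith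
      nlinarith [mul_self_nonneg y]

theorem monic_PP (k : ℕ) : (PP 2 (k + 1)).Monic := by
  induction k with
  | zero => simp [PP, Polynomial.monic_X]
  | succ k ih =>
    have h1 : ((PP 2 (k + 1)) ^ 2).Monic := ih.pow 2
    have h2 : (PP 2 (k + 1 + 1)) = (PP 2 (k + 1)) ^ 2 + X := rfl
    rw [h2]
    apply h1.add_of_left
    rw [Polynomial.degree_eq_natDegree h1.ne_zero, ih.natDegree_pow, natDegree_PP le_rfl,
      Polynomial.degree_X]
    have : 1 ≤ 2 ^ k := Nat.one_le_two_pow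
    norm_cast
    omega

/-- a monic polynomial is small only near its roots -/
theorem near_root {G : ℂ[X]} (hG : G.Monic) (hd : 0 < G.natDegree) (a : ℂ) :
    ∃ b ∈ G.roots, ‖a - b‖ ^ G.natDegree ≤ ‖G.eval a‖ := by
  have hs : G.Splits := IsAlgClosed.splits G
  by_contra! h
  have h1 : ‖G.eval a‖ = (G.roots.map fun x => ‖a - x‖).prod := by
    rw [hs.eval_eq_prod_roots_of_monic hG]
    have := G.roots.prod_hom' (NormedField.toMulRingNorm ℂ) (fun x : ℂ ↦ a - x)
    exact this.symm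
  obtain ⟨g, hg⟩ : ∃ g, g = ‖G.eval a‖ := ⟨_, rfl⟩
  rw [← hg] at h h1
  have hg0 : 0 ≤ g := by rw [hg]; exact norm_nonneg _
  have hcard : G.roots.card = G.natDegree := hs.natDegree_eq_card_roots.symm
  obtain ⟨D, hD⟩ : ∃ D, D = G.natDegree := ⟨_, rfl⟩
  rw [← hD] at h hcard hd
  obtain ⟨t, ht⟩ : ∃ t, t = g ^ ((D : ℝ)⁻¹) := ⟨_, rfl⟩
  have ht0 : 0 ≤ t := by rw [ht]; exact Real.rpow_nonneg hg0 _
  have htD : t ^ D = g := by rw [ht]; exact Real.rpow_inv_natCast_pow hg0 (by omega)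
  have h2 : ∀ b ∈ G.roots, t < ‖a - b‖ := by
    intro b hb
    have h3 := h b hb
    rw [← htD] at h3
    exact lt_of_pow_lt_pow_left₀ D (norm_nonneg _) h3
  -- a smaller product
  obtain ⟨b, hb⟩ : ∃ b, b ∈ G.roots := by
    rw [← Multiset.card_pos_iff_exists_mem, hcard]
    exact hd
  obtain ⟨s, hs1⟩ := Multiset.exists_cons_of_mem hb
  rw [hs1, Multiset.map_cons, Multiset.prod_cons] at h1
  have hcs : s.card + 1 = D := by rw [← hcard, hs1, Multiset.card_cons]
  have h4 : t ^ s.card ≤ (s.map fun x => ‖a - x‖).prod := by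
    have := Multiset.prod_map_le_prod_map₀ (s := s) (fun _ => t) (fun x => ‖a - x‖)
      (fun _ _ => ht0) (fun x hx => (h2 x (by rw [hs1]; exact Multiset.mem_cons_of_mem hx)).le)
    simpa using this
  rcases eq_or_lt_of_le ht0 with h5 | h5
  · -- `t = 0`
    have hg0' : g = 0 := by rw [← htD, ← h5]; exact zero_pow (by omega)
    rw [hg0'] at h1
    have h6 : 0 < (s.map fun x => ‖a - x‖).prod := by
      apply Multiset.prod_pos
      intro y hy
      obtain ⟨x, hx, rfl⟩ := Multiset.mem_map.1 hy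
      rw [h5]
      exact h2 x (by rw [hs1]; exact Multiset.mem_cons_of_mem hx)
    have h7 : 0 < ‖a - b‖ := by rw [h5]; exact h2 b hb
    have := mul_pos h7 h6
    linarith
  · have h6 : t ^ D < ‖a - b‖ * (s.map fun x => ‖a - x‖).prod := by
      rw [← hcs, pow_succ, mul_comm]
      exact mul_lt_mul (h2 b hb) h4 (by positivity) (norm_nonneg _)
    rw [htD] at h6
    linarith

/-- a path along which a monic polynomial tends to zero converges to one of its roots -/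
theorem path_root {G : ℂ[X]} (hG : G.Monic) (hd : 0 < G.natDegree) {f : ℝ → ℂ} {h₀ : ℝ}
    (hh₀ : 0 < h₀) (hf : ContinuousOn f (Ioo 0 h₀)) {C δ : ℝ} (hC : 0 < C) (hδ : 0 < δ)
    (hb : ∀ h ∈ Ioo 0 h₀, ‖G.eval (f h)‖ ≤ C * h ^ δ) :
    ∃ (z : ℂ) (C' δ' h₁ : ℝ), 0 < C' ∧ 0 < δ' ∧ 0 < h₁ ∧ h₁ ≤ h₀ ∧
      ∀ h ∈ Ioo 0 h₁, ‖f h - z‖ ≤ C' * h ^ δ' := by
  classical
  obtain ⟨D, hD⟩ : ∃ D, D = G.natDegree := ⟨_, rfl⟩
  have hD0 : 0 < D := by rw [hD]; exact hd
  -- separation of the roots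
  obtain ⟨ρ, hρ, hsep⟩ : ∃ ρ : ℝ, 0 < ρ ∧ ∀ z ∈ G.roots, ∀ z' ∈ G.roots, z ≠ z' →
      2 * ρ ≤ ‖z - z'‖ := by
    by_cases hne : (G.roots.toFinset.offDiag).Nonempty
    · obtain ⟨p, hp, hmin⟩ := Finset.exists_min_image _ (fun p : ℂ × ℂ => ‖p.1 - p.2‖) hne
      rw [Finset.mem_offDiag] at hp
      have hp0 : 0 < ‖p.1 - p.2‖ := norm_pos_iff.2 (sub_ne_zero.2 hp.2.2)
      refine ⟨‖p.1 - p.2‖ / 2, by positivity, fun z hz z' hz' hzz => ?_⟩
      have := hmin (z, z') (by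
        rw [Finset.mem_offDiag]
        exact ⟨Multiset.mem_toFinset.2 hz, Multiset.mem_toFinset.2 hz', hzz⟩)
      simp only at this
      linarith
    · refine ⟨1, one_pos, fun z hz z' hz' hzz => ?_⟩
      exfalso
      apply hne
      exact ⟨(z, z'), by
        rw [Finset.mem_offDiag]
        exact ⟨Multiset.mem_toFinset.2 hz, Multiset.mem_toFinset.2 hz', hzz⟩⟩
  -- small `h`
  have hlim : Tendsto (fun h : ℝ => C * h ^ δ) (𝓝[>] 0) (𝓝 0) := by
    have h1 : Tendsto (fun h : ℝ => h ^ δ) (𝓝[>] 0) (𝓝 ((0 : ℝ) ^ δ)) :=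
      ((Real.continuousAt_rpow_const 0 δ (Or.inr hδ.le)).tendsto).mono_left nhdsWithin_le_nhds
    rw [Real.zero_rpow hδ.ne'] at h1
    simpa using h1.const_mul C
  have hev := hlim.eventually (gt_mem_nhds (show (0 : ℝ) < ρ ^ D by positivity))
  rw [eventually_nhdsWithin_iff, Metric.eventually_nhds_iff] at hev
  obtain ⟨h₂, hh₂, hev⟩ := hev
  obtain ⟨h₁, hh₁⟩ : ∃ h₁, h₁ = min h₀ h₂ := ⟨_, rfl⟩
  have hh₁0 : 0 < h₁ := by rw [hh₁]; positivity
  have hh₁l : h₁ ≤ h₀ := by rw [hh₁]; exact min_le_left _ _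
  have hnear : ∀ h ∈ Ioo 0 h₁, ∃ z ∈ G.roots, ‖f h - z‖ ^ D ≤ C * h ^ δ ∧ ‖f h - z‖ < ρ := by
    intro h hh
    obtain ⟨z, hz, hz2⟩ := near_root hG hd (f h)
    rw [← hD] at hz2
    have h3 := hz2.trans (hb h ⟨hh.1, lt_of_lt_of_le hh.2 hh₁l⟩)
    refine ⟨z, hz, h3, ?_⟩
    have h4 := hev (y := h) (by
      rw [Real.dist_eq, sub_zero, abs_of_pos hh.1]
      exact lt_of_lt_of_le hh.2 (by rw [hh₁]; exact min_le_right _ _)) hh.1
    exact lt_of_pow_lt_pow_left₀ D hρ.le (lt_of_le_of_lt h3 h4)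
  have hmid : h₁ / 2 ∈ Ioo 0 h₁ := ⟨by linarith, by linarith⟩
  obtain ⟨z, hz, -, hz3⟩ := hnear _ hmid
  have hall : ∀ h ∈ Ioo 0 h₁, ‖f h - z‖ < ρ := by
    intro h hh
    by_contra hcon
    push Not at hcon
    have hcont : ContinuousOn (fun h => ‖f h - z‖) (Ioo 0 h₁) :=
      ((hf.mono (Ioo_subset_Ioo_right hh₁l)).sub continuousOn_const).norm
    have hpre : IsPreconnected (Ioo 0 h₁) := isPreconnected_Ioo
    obtain ⟨h', hh', he⟩ := hpre.intermediate_value₂ (f := fun h => ‖f h - z‖) (g := fun _ => ρ)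
      hmid hh hcont continuousOn_const hz3.le hcon
    obtain ⟨z', hz', -, hz'3⟩ := hnear h' hh'
    have hne : z ≠ z' := by
      rintro rfl
      linarith
    have h5 := hsep z hz z' hz' hne
    have h6 : ‖z - z'‖ ≤ ‖f h' - z‖ + ‖f h' - z'‖ := by
      have : z - z' = (f h' - z') - (f h' - z) := by ring
      rw [this]
      exact (norm_sub_le _ _).trans (by linarith)
    linarith
  refine ⟨z, C ^ ((D : ℝ)⁻¹), δ / D, h₁, by positivity, by positivity, hh₁0, hh₁l, ?_⟩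
  intro h hh
  obtain ⟨z', hz', hz'2, hz'3⟩ := hnear h hh
  have hzz : z' = z := by
    by_contra hne
    have h5 := hsep z' hz' z hz hne
    have h6 : ‖z' - z‖ ≤ ‖f h - z‖ + ‖f h - z'‖ := by
      have : z' - z = (f h - z) - (f h - z') := by ring
      rw [this]
      exact (norm_sub_le _ _)
    linarith [hall h hh]
  rw [hzz] at hz'2
  have h7 : (C ^ ((D : ℝ)⁻¹) * h ^ (δ / D)) ^ D = C * h ^ δ := by
    rw [mul_pow, Real.rpow_inv_natCast_pow hC.le (by omega), ← Real.rpow_natCast (h ^ (δ / D)) D,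
      ← Real.rpow_mul hh.1.le]
    congr 2
    field_simp
  rw [← h7] at hz'2
  exact le_of_pow_le_pow_left₀ (by omega) (by have := hh.1; positivity) hz'2

section

variable {ψ : ℂ → ℂ} (hψ : IsExteriorMap (multibrotSet 2) ψ)

include hψ

theorem psi_le {ζ : ℂ} (hζ : ‖ζ‖ = 1) {r : ℝ} (hr : 1 < r) : ‖ψ (r * ζ)‖ ≤ 2 * r := by
  have h1 := Pool.Agent.W677.MB.P_le_two hψ (z := r * ζ) (by rw [norm_rz hζ hr]; exact hr) 0
  rw [zero_add, P_one le_rfl, pow_zero, pow_one, norm_rz hζ hr] at h1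
  exact h1

/-- the rays of the dyadic angles in `(0, 1/2]` -/
theorem landing_upper {ζ : ℂ} (hζ : ‖ζ‖ = 1) {k : ℕ} (hk1 : 1 ≤ k) (hk : ζ ^ (2 ^ k) = 1)
    (hcase : ζ = -1 ∨ 0 < ζ.im) :
    ∃ (z : ℂ) (C δ h₁ : ℝ), 0 < C ∧ 0 < δ ∧ 0 < h₁ ∧
      ∀ h ∈ Ioo 0 h₁, ‖ψ ((1 + h : ℝ) * ζ) - z‖ ≤ C * h ^ δ := by
  obtain ⟨C₀, -, him⟩ := im_pos k
  obtain ⟨η, hη, hη1, hη2⟩ := him 1 one_pos
  obtain ⟨C₁, q, hC₁, hq0, hq1, horb⟩ := orbit_close hη hη1 (show (3 : ℝ) ≤ 6 by norm_num)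
  obtain ⟨G, hGdef⟩ : ∃ G, G = PP 2 (k + 1 + 1) - PP 2 (k + 1) := ⟨_, rfl⟩
  have hdeg : (PP 2 (k + 1)).degree < (PP 2 (k + 1 + 1)).degree := by
    rw [Polynomial.degree_eq_natDegree (monic_PP k).ne_zero,
      Polynomial.degree_eq_natDegree (monic_PP (k + 1)).ne_zero, natDegree_PP le_rfl,
      natDegree_PP le_rfl]
    exact_mod_cast Nat.pow_lt_pow_right (by norm_num) (Nat.lt_succ_self k)
  have hG : G.Monic := by
    rw [hGdef]
    exact (monic_PP (k + 1)).sub_of_left hdeg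
  have hGd : 0 < G.natDegree := by
    rw [hGdef, Polynomial.natDegree_sub_eq_left_of_natDegree_lt, natDegree_PP le_rfl]
    · positivity
    · rw [natDegree_PP le_rfl, natDegree_PP le_rfl]
      exact Nat.pow_lt_pow_right (by norm_num) (Nat.lt_succ_self k)
  obtain ⟨δ, hδ⟩ : ∃ δ, δ = -Real.log q / Real.log 2 := ⟨_, rfl⟩
  have hl2 : 0 < Real.log 2 := Real.log_pos (by norm_num)
  have hδ0 : 0 < δ := by
    rw [hδ]
    exact div_pos (neg_pos.2 (Real.log_neg hq0 hq1)) hl2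
  have hq2 : ∀ m : ℕ, q ^ m = ((2 : ℝ) ^ m) ^ (-δ) := by
    intro m
    rw [← Real.rpow_natCast (2 : ℝ) m, ← Real.rpow_mul (by norm_num), ← Real.rpow_natCast q m,
      Real.rpow_def_of_pos hq0, Real.rpow_def_of_pos (by norm_num : (0 : ℝ) < 2), hδ]
    congr 1
    field_simp
  obtain ⟨h₀, hh₀⟩ : ∃ h₀ : ℝ, h₀ = 1 / 2 ^ (k + 1) := ⟨_, rfl⟩
  have hh₀0 : 0 < h₀ := by rw [hh₀]; positivity
  have hh₀h : h₀ ≤ 1 / 2 := by
    rw [hh₀, div_le_div_iff₀ (by positivity) (by norm_num), one_mul, one_mul]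
    exact le_self_pow₀ (by norm_num) (by omega)
  refine (path_root hG hGd (f := fun h => ψ ((1 + h : ℝ) * ζ)) hh₀0 ?_
    (C := C₁ * (2 ^ (k + 1)) ^ δ) (δ := δ) (by positivity) hδ0 ?_).imp fun z hz => ?_
  · have h1 : ContinuousOn (fun r : ℝ => ψ (r * ζ)) (Ioi 1) := by
      refine (psi_cont hψ).comp (by fun_prop) (fun s hs => ?_)
      have hs' : 1 < s := hs
      show 1 < ‖(s : ℂ) * ζ‖
      rw [norm_rz hζ hs']
      exact hs'
    refine h1.comp (by fun_prop) (fun h hh => ?_)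
    show 1 < 1 + h
    linarith [hh.1]
  · -- the main estimate
    intro h hh
    obtain ⟨hh0, hh1⟩ := hh
    have hr : 1 < 1 + h := by linarith
    have hx1 : 1 ≤ 1 / (2 ^ k * h) := by
      rw [le_div_iff₀ (by positivity), one_mul]
      have : h ≤ 1 / 2 ^ (k + 1) := by rw [← hh₀]; exact hh1.le
      calc 2 ^ k * h ≤ 2 ^ k * (1 / 2 ^ (k + 1)) := mul_le_mul_of_nonneg_left this (by positivity)
        _ ≤ 1 := by
          rw [pow_succ]
          field_simp
          norm_num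
    obtain ⟨m, hm1, hm2⟩ := exists_nat_pow_near hx1 (show (1 : ℝ) < 2 by norm_num)
    rw [le_div_iff₀ (by positivity)] at hm1
    rw [div_lt_iff₀ (by positivity)] at hm2
    obtain ⟨c, hc⟩ : ∃ c, c = ψ ((1 + h : ℝ) * ζ) := ⟨_, rfl⟩
    have hcn : ‖c‖ ≤ 3 := by
      rw [hc]
      exact (psi_le hψ hζ hr).trans (by linarith)
    have hnb : ∀ i, i ≤ m → ‖P 2 (k + i + 1) c‖ ≤ 6 := by
      intro i hi
      rw [hc]
      refine (Pool.Agent.W677.MB.P_le_two hψ (by rw [norm_rz hζ hr]; exact hr) (k + i)).trans ?_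
      rw [norm_rz hζ hr]
      have h1 : (1 + h) ^ (2 ^ (k + i)) ≤ Real.exp (2 ^ (k + i) * h) := by
        have h2 : 1 + h ≤ Real.exp h := by linarith [Real.add_one_le_exp h]
        calc (1 + h) ^ (2 ^ (k + i)) ≤ (Real.exp h) ^ (2 ^ (k + i)) :=
              pow_le_pow_left₀ (by linarith) h2 _
          _ = Real.exp (2 ^ (k + i) * h) := by
              rw [← Real.exp_nat_mul]
              push_cast
              rfl
      have h3 : (2 : ℝ) ^ (k + i) * h ≤ 1 := by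
        have h4 : (2 : ℝ) ^ i ≤ 2 ^ m := pow_le_pow_right₀ (by norm_num) hi
        calc (2 : ℝ) ^ (k + i) * h = 2 ^ i * (2 ^ k * h) := by rw [pow_add]; ring
          _ ≤ 2 ^ m * (2 ^ k * h) := mul_le_mul_of_nonneg_right h4 (by positivity)
          _ ≤ 1 := hm1
      have h5 : Real.exp (2 ^ (k + i) * h) ≤ Real.exp 1 := Real.exp_le_exp.2 h3
      linarith [Real.exp_one_lt_d9]
    -- the quadrant
    have hquad : ∀ i, 0 < (P 2 (k + i + 1) c).re ∧ (P 2 (k + i + 1) c).im ≤ 0 ∧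
        (0 < c.im → (P 2 (k + i + 1) c).im < 0) := by
      intro i
      rcases hcase with h1 | h1
      · obtain ⟨j, hj⟩ : ∃ j, k + i + 1 = j + 2 := ⟨k + i - 1, by omega⟩
        have h2 := quad_neg hψ hr j
        rw [h1] at hc
        rw [← hc] at h2
        rw [hj]
        refine ⟨by linarith [h2.1], h2.2.le, fun h3 => ?_⟩
        exfalso
        obtain ⟨c', hc', -⟩ := psi_real_neg hψ hr
        have h4 : ((1 + h : ℝ) : ℂ) * (-1) = ((-(1 + h) : ℝ) : ℂ) := by push_cast; ring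
        rw [hc, h4, hc', Complex.ofReal_im] at h3
        exact lt_irrefl _ h3
      · have h2 := quad hψ hζ h1 hk (show k ≤ k + i by omega) hr
        rw [← hc] at h2
        exact ⟨h2.1, h2.2.le, fun _ => h2.2⟩
    have hci : 0 ≤ c.im ∧ (c.re ≤ -η ∨ η ≤ c.im) := by
      rcases hcase with h1 | h1
      · obtain ⟨c', hc', hc'2⟩ := psi_real_neg hψ hr
        have h4 : ((1 + h : ℝ) : ℂ) * ζ = ((-(1 + h) : ℝ) : ℂ) := by rw [h1]; push_cast; ring
        rw [hc, h4, hc', Complex.ofReal_im, Complex.ofReal_re]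
        exact ⟨le_rfl, Or.inl (by linarith)⟩
      · have h2 := psi_upper hψ hζ h1 hr
        rw [← hc] at h2
        refine ⟨h2.le, ?_⟩
        by_contra hcon
        push Not at hcon
        have h3 := (hη2 c hcon.1.le ((Complex.re_le_norm c).trans hcn) h2 hcon.2.le).1
        have h4 := (hquad 0).2.2 h2
        rw [add_zero] at h4
        linarith
    have hfin := horb c (fun i => P 2 (k + i + 1) c) m hcn hci.1 hci.2
      (fun i => by
        show P 2 (k + (i + 1) + 1) c = _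
        rw [show k + (i + 1) + 1 = (k + i + 1) + 1 by ring, P_succ])
      (fun i => (hquad i).1) (fun i => (hquad i).2.1) (fun h5 i => (hquad i).2.2 h5) hnb
    simp only [add_zero] at hfin
    show ‖G.eval (ψ ((1 + h : ℝ) * ζ))‖ ≤ _
    rw [hGdef, Polynomial.eval_sub, eval_PP, eval_PP, ← hc]
    refine hfin.trans ?_
    rw [hq2 m, mul_assoc]
    apply mul_le_mul_of_nonneg_left _ hC₁.le
    rw [← Real.mul_rpow (by positivity) hh0.le, Real.rpow_neg (by positivity),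
      ← Real.inv_rpow (by positivity)]
    apply Real.rpow_le_rpow (by positivity) _ hδ0.le
    rw [inv_le_comm₀ (by positivity) (by positivity), inv_eq_one_div, div_le_iff₀ (by positivity)]
    have : (2 : ℝ) ^ m * (2 ^ (k + 1) * h) = 2 ^ (m + 1) * (2 ^ k * h) := by
      rw [pow_succ, pow_succ]; ring
    rw [this]
    exact hm2.le
  · obtain ⟨C', δ', h₁, h1, h2, h3, -, h5⟩ := hz
    exact ⟨C', δ', h₁, h1, h2, h3, h5⟩

/-- **Parameter rays with dyadic angles different from `0` land, at a Hölder rate.** -/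
theorem landing {ζ : ℂ} {k : ℕ} (hk : ζ ^ (2 ^ k) = 1) (hne : ζ ≠ 1) :
    ∃ (z : ℂ) (C δ h₁ : ℝ), 0 < C ∧ 0 < δ ∧ 0 < h₁ ∧
      ∀ h ∈ Ioo 0 h₁, ‖ψ ((1 + h : ℝ) * ζ) - z‖ ≤ C * h ^ δ := by
  have hζ : ‖ζ‖ = 1 := Complex.norm_eq_one_of_pow_eq_one hk (by positivity)
  have hk1 : 1 ≤ k := by
    by_contra hcon
    have : k = 0 := by omega
    rw [this, pow_zero, pow_one] at hk
    exact hne hk
  rcases lt_trichotomy ζ.im 0 with h | h | h
  · have h1 : (conj ζ) ^ (2 ^ k) = 1 := by rw [← map_pow, hk, map_one]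
    have h2 : ‖conj ζ‖ = 1 := by rw [Complex.norm_conj]; exact hζ
    obtain ⟨z, C, δ, h₁, hC, hδ, hh₁, hz⟩ := landing_upper hψ h2 hk1 h1
      (Or.inr (by rw [Complex.conj_im]; linarith))
    refine ⟨conj z, C, δ, h₁, hC, hδ, hh₁, fun s hs => ?_⟩
    have h3 := hz s hs
    have hs1 : 1 < 1 + s := by linarith [hs.1]
    have h4 : ((1 + s : ℝ) : ℂ) * conj ζ = conj (((1 + s : ℝ) : ℂ) * ζ) := by
      rw [map_mul, Complex.conj_ofReal]
    rw [h4, psi_conj hψ (by rw [norm_rz hζ hs1]; exact hs1)] at h3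
    rw [← Complex.norm_conj, map_sub, Complex.conj_conj]
    exact h3
  · -- real
    have h1 : ζ = 1 ∨ ζ = -1 := by
      have h2 : ζ.re ^ 2 = 1 := by
        have h3 := normSq_eq ζ
        rw [hζ, h] at h3
        linarith
      have h5 : (ζ.re - 1) * (ζ.re + 1) = 0 := by linear_combination h2
      rcases mul_eq_zero.1 h5 with h4 | h4
      · have h6 : ζ.re = 1 := by linarith
        left; apply Complex.ext <;> simp [h6, h]
      · have h6 : ζ.re = -1 := by linarith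
        right; apply Complex.ext <;> simp [h6, h]
    rcases h1 with h1 | h1
    · exact absurd h1 hne
    · exact landing_upper hψ hζ hk1 hk (Or.inl h1)
  · exact landing_upper hψ hζ hk1 hk (Or.inr h)

end

end Pool.Agent.H13MD
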