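import Pool.Agent.H13MD.Cusp
import Pool.Agent.H13MD.Bot

set_option autoImplicit false

/-! # The point of an equipotential which is closest to the cusp -/

namespace Pool.Agent.H13MD

open Complex Metric Set Filter Topology Bornology Asymptotics Pool.Agent.H712R2
  Pool.Agent.H713R2 N62a1eb23

theorem P_quarter_le (u : ℂ) (n : ℕ) : ‖P 2 n (1 / 4 + u)‖ ≤ pr (1 / 4 + ‖u‖) n := by
  induction n with
  | zero => rw [P_zero, norm_zero]; exact le_rfl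
  | succ n ih =>
    rw [P_succ, pr_succ]
    have h1 := norm_add_le (P 2 n (1 / 4 + u) ^ 2) (1 / 4 + u)
    have h2 := norm_add_le (1 / 4 : ℂ) u
    have h3 : ‖(1 / 4 : ℂ)‖ = 1 / 4 := by norm_num
    rw [norm_pow] at h1
    have h4 : ‖P 2 n (1 / 4 + u)‖ ^ 2 ≤ pr (1 / 4 + ‖u‖) n ^ 2 :=
      pow_le_pow_left₀ (norm_nonneg _) ih 2
    linarith

theorem pr_nonneg {c : ℝ} (hc : 0 ≤ c) (n : ℕ) : 0 ≤ pr c n := by
  induction n with
  | zero => exact le_rfl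
  | succ n ih => rw [pr_succ]; positivity

theorem pr_mono {c c' : ℝ} (hc : 0 ≤ c) (h : c ≤ c') (n : ℕ) : pr c n ≤ pr c' n := by
  induction n with
  | zero => exact le_rfl
  | succ n ih =>
    rw [pr_succ, pr_succ]
    have := pow_le_pow_left₀ (pr_nonneg hc n) ih 2
    linarith

variable {ψ : ℂ → ℂ} (hψ : IsExteriorMap (multibrotSet 2) ψ)
include hψ

/-- the function `ψ` on the real axis, minus `1/4` -/
theorem psi_real_eq {s : ℝ} (hs : 1 < s) : ψ s = ((1 / 4 + ((ψ s).re - 1 / 4) : ℝ) : ℂ) := by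
  obtain ⟨c, hc, -⟩ := psi_real_pos hψ hs
  rw [hc]
  simp

theorem g_pos {s : ℝ} (hs : 1 < s) : 0 < (ψ s).re - 1 / 4 := by
  obtain ⟨c, hc, h⟩ := psi_real_pos hψ hs
  rw [hc, Complex.ofReal_re]
  linarith

/-- **the Green's function on a circle around `1/4` is largest on the real axis** -/
theorem green_le {z₀ : ℂ} (hz : 1 < ‖z₀‖) {s : ℝ} (hs : 1 < s)
    (h : ‖ψ z₀ - 1 / 4‖ ≤ (ψ s).re - 1 / 4) : ‖z₀‖ ≤ s := by
  by_contra hcon
  push Not at hcon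
  have key : ∀ n : ℕ, (2 : ℝ) ^ n * (‖z₀‖ - s) ≤ 6 * ‖z₀‖ := by
    intro n
    have h1 := P_near hψ hz n
    have hsn : ‖(s : ℂ)‖ = s := by
      rw [Complex.norm_real, Real.norm_eq_abs, abs_of_pos (by linarith)]
    have h2 := P_near hψ (w := s) (by rw [hsn]; exact hs) n
    rw [hsn] at h2
    have h3 : ‖P 2 (n + 1) (ψ z₀)‖ ≤ ‖P 2 (n + 1) (ψ s)‖ := by
      have h4 := P_quarter_le (ψ z₀ - 1 / 4) (n + 1)
      rw [show (1 / 4 : ℂ) + (ψ z₀ - 1 / 4) = ψ z₀ by ring] at h4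
      refine h4.trans ((pr_mono (by positivity) (add_le_add_right h (1 / 4)) (n + 1)).trans ?_)
      rw [psi_real_eq hψ hs, P_real, Complex.norm_real]
      simp only [Complex.ofReal_re, add_sub_cancel_left]
      exact le_abs_self _
    have h5 : ‖z₀‖ ^ (2 ^ n) - 3 * ‖z₀‖ ≤ ‖P 2 (n + 1) (ψ z₀)‖ := by
      have h6 := norm_sub_norm_le (z₀ ^ (2 ^ n)) (P 2 (n + 1) (ψ z₀))
      rw [norm_pow, norm_sub_rev] at h6
      have h7 : 3 * ‖z₀‖ / ‖z₀‖ ^ (2 ^ n) ≤ 3 * ‖z₀‖ :=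
        div_le_self (by positivity) (one_le_pow₀ hz.le)
      linarith
    have h8 : ‖P 2 (n + 1) (ψ s)‖ ≤ s ^ (2 ^ n) + 3 * s := by
      have h6 := norm_sub_norm_le (P 2 (n + 1) (ψ s)) ((s : ℂ) ^ (2 ^ n))
      rw [norm_pow, hsn] at h6
      have h7 : 3 * s / s ^ (2 ^ n) ≤ 3 * s :=
        div_le_self (by positivity) (one_le_pow₀ hs.le)
      linarith
    have h9 : (2 : ℝ) ^ n * (‖z₀‖ - s) ≤ ‖z₀‖ ^ (2 ^ n) - s ^ (2 ^ n) := by
      have h10 := one_add_mul_le_pow (a := ‖z₀‖ / s - 1) (by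
        have : 0 < ‖z₀‖ / s := by positivity
        linarith) (2 ^ n)
      rw [show 1 + (‖z₀‖ / s - 1) = ‖z₀‖ / s by ring, div_pow] at h10
      have h11 : 1 ≤ s ^ (2 ^ n) := one_le_pow₀ hs.le
      have h12 : s ≤ s ^ (2 ^ n) := le_self_pow₀ hs.le (by positivity)
      have h13 : (1 + (2 : ℝ) ^ n * (‖z₀‖ / s - 1)) * s ^ (2 ^ n) ≤ ‖z₀‖ ^ (2 ^ n) := by
        rw [le_div_iff₀ (by positivity)] at h10
        push_cast at h10
        exact h10
      have h14 : (2 : ℝ) ^ n * (‖z₀‖ - s) = (2 : ℝ) ^ n * (‖z₀‖ / s - 1) * s := by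
        field_simp
      have h15 : 0 ≤ (2 : ℝ) ^ n * (‖z₀‖ / s - 1) := by
        have : 0 ≤ ‖z₀‖ / s - 1 := by
          rw [sub_nonneg, le_div_iff₀ (by linarith)]
          linarith
        positivity
      have h16 := mul_le_mul_of_nonneg_left h12 h15
      nlinarith
    linarith
  have hlim : Tendsto (fun n : ℕ => (2 : ℝ) ^ n * (‖z₀‖ - s)) atTop atTop :=
    (tendsto_pow_atTop_atTop_of_one_lt (by norm_num)).atTop_mul_const (by linarith)
  obtain ⟨n, hn⟩ := (hlim.eventually (eventually_gt_atTop (6 * ‖z₀‖))).exists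
  exact absurd (key n) (not_le.2 hn)

theorem g_lt {s t : ℝ} (hs : 1 < s) (hst : s < t) : (ψ s).re < (ψ t).re := by
  by_contra hcon
  push Not at hcon
  have ht : 1 < t := hs.trans hst
  have h1 : ‖(t : ℂ)‖ = t := by
    rw [Complex.norm_real, Real.norm_eq_abs, abs_of_pos (by linarith)]
  have h2 : ‖ψ t - 1 / 4‖ = (ψ t).re - 1 / 4 := by
    have h3 := g_pos hψ ht
    obtain ⟨c, hc, -⟩ := psi_real_pos hψ ht
    rw [hc, Complex.ofReal_re] at h3 ⊢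
    rw [show (c : ℂ) - 1 / 4 = ((c - 1 / 4 : ℝ) : ℂ) by push_cast; ring, Complex.norm_real,
      Real.norm_eq_abs, abs_of_pos h3]
  have h3 := green_le hψ (z₀ := t) (by rw [h1]; exact ht) hs (by rw [h2]; linarith)
  rw [h1] at h3
  linarith

theorem g_cont : ContinuousOn (fun s : ℝ => (ψ s).re - 1 / 4) (Ioi 1) := by
  apply ContinuousOn.sub _ continuousOn_const
  apply Complex.continuous_re.comp_continuousOn
  refine (psi_cont hψ).comp (by fun_prop) (fun s hs => ?_)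
  show 1 < ‖(s : ℂ)‖
  have hs' : 1 < s := hs
  rw [Complex.norm_real, Real.norm_eq_abs, abs_of_pos (by linarith)]
  exact hs'

/-- the cusp asymptotics for the real function -/
theorem g_cusp : ∃ h₁ : ℝ, 0 < h₁ ∧ h₁ ≤ 1 / 2 ∧ ∀ h ∈ Ioo 0 h₁,
    |(ψ ((1 + h : ℝ) : ℂ)).re - 1 / 4 - (Real.pi * Real.log 2) ^ 2 / (Real.log h) ^ 2| ≤
      17000 / |Real.log h| ^ 3 := by
  obtain ⟨h₁, h1, h2, h3⟩ := cusp hψ
  refine ⟨h₁, h1, h2, fun h hh => ?_⟩
  have h4 := (abs_re_le_norm _).trans (h3 h hh)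
  rw [Complex.sub_re, Complex.sub_re, Complex.ofReal_re] at h4
  have h5 : (1 / 4 : ℂ).re = 1 / 4 := by norm_num
  rw [h5] at h4
  exact h4

/-- **the distance of an equipotential to the cusp** -/
theorem min_dist {z : ℂ} (hz : 1 < ‖z‖) : (ψ (‖z‖ : ℝ)).re - 1 / 4 ≤ ‖ψ z - 1 / 4‖ := by
  by_contra hcon
  push Not at hcon
  have hpos : 0 < ‖ψ z - 1 / 4‖ := by
    rw [norm_pos_iff, sub_ne_zero]
    intro h
    have h1 := psi_notMem hψ hz
    rw [h] at h1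
    apply h1
    have h2 := real_mem (c := 1 / 4) (by norm_num) le_rfl
    rwa [show ((1 / 4 : ℝ) : ℂ) = 1 / 4 by push_cast; ring] at h2
  -- a point of the real axis with the same distance
  obtain ⟨s, hs1, hs2, hs3⟩ : ∃ s : ℝ, 1 < s ∧ s < ‖z‖ ∧ ‖ψ z - 1 / 4‖ ≤ (ψ s).re - 1 / 4 := by
    have h1 : ContinuousAt (fun s : ℝ => (ψ s).re - 1 / 4) ‖z‖ :=
      (g_cont hψ).continuousAt (isOpen_Ioi.mem_nhds hz)
    have h2 := h1.eventually (lt_mem_nhds hcon)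
    have h3 : ∀ᶠ s : ℝ in 𝓝[<] ‖z‖, ‖ψ z - 1 / 4‖ < (ψ s).re - 1 / 4 :=
      h2.filter_mono nhdsWithin_le_nhds
    have h4 : ∀ᶠ s : ℝ in 𝓝[<] ‖z‖, s ∈ Ioo 1 ‖z‖ := Ioo_mem_nhdsLT hz
    obtain ⟨s, h5, h6⟩ := (h3.and h4).exists
    exact ⟨s, h6.1, h6.2, h5.le⟩
  have := green_le hψ hz hs1 hs3
  linarith

end Pool.Agent.H13MD
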