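import Pool.Agent.H13MD.Bot

set_option autoImplicit false

/-! # The critical orbit on a parameter ray with a dyadic angle stays in the fourth quadrant -/

namespace Pool.Agent.H13MD

open Complex Metric Set Filter Topology Bornology Pool.Agent.H712R2
  Pool.Agent.H713R2 N62a1eb23

section

variable {ψ : ℂ → ℂ} (hψ : IsExteriorMap (multibrotSet 2) ψ)

include hψ

omit hψ in
theorem norm_rz {ζ : ℂ} (hζ : ‖ζ‖ = 1) {r : ℝ} (hr : 1 < r) : ‖(r : ℂ) * ζ‖ = r := by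
  rw [norm_mul, hζ, Complex.norm_real, Real.norm_eq_abs, abs_of_pos (by linarith), mul_one]

theorem near_inf' {ε : ℝ} (hε : 0 < ε) :
    ∃ R : ℝ, 1 < R ∧ ∀ z : ℂ, R ≤ ‖z‖ → ‖ψ z - z‖ ≤ ε * ‖z‖ := by
  have h1 := hψ.infinity.eventually (ball_mem_nhds (1 : ℂ) hε)
  rw [← comap_norm_atTop] at h1
  rw [eventually_comap] at h1
  obtain ⟨R, hR⟩ := eventually_atTop.1 h1
  refine ⟨max R 2, lt_of_lt_of_le (by norm_num) (le_max_right _ _), ?_⟩
  intro z hz
  have h2 := hR ‖z‖ ((le_max_left _ _).trans hz) z rfl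
  have hz0 : 0 < ‖z‖ := lt_of_lt_of_le (by norm_num) ((le_max_right R 2).trans hz)
  have hzne : z ≠ 0 := norm_pos_iff.1 hz0
  rw [dist_eq_norm] at h2
  have h3 : ψ z - z = (ψ z / z - 1) * z := by field_simp
  rw [h3, norm_mul]
  exact mul_le_mul_of_nonneg_right h2.le hz0.le

theorem im_lower {ζ : ℂ} (hζ : ‖ζ‖ = 1) (him : 0 < ζ.im) {r₀ : ℝ} (hr₀ : 1 < r₀) :
    ∃ b₁ : ℝ, 0 < b₁ ∧ ∀ r, r₀ ≤ r → b₁ * r ≤ (ψ (r * ζ)).im := by
  obtain ⟨R, hR1, hR⟩ := near_inf' hψ (half_pos him)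
  obtain ⟨S, hS⟩ : ∃ S, S = max R r₀ := ⟨_, rfl⟩
  have hSr : r₀ ≤ S := by rw [hS]; exact le_max_right _ _
  have hS0 : 0 < S := by linarith
  have hcont : ContinuousOn (fun s : ℝ => (ψ (s * ζ)).im) (Icc r₀ S) := by
    apply Complex.continuous_im.comp_continuousOn
    refine (psi_cont hψ).comp (by fun_prop) (fun s hs => ?_)
    have h1 := lt_of_lt_of_le hr₀ hs.1
    show 1 < ‖(s : ℂ) * ζ‖
    rw [norm_rz hζ h1]
    exact h1
  obtain ⟨s, hs, hmin⟩ := isCompact_Icc.exists_isMinOn (nonempty_Icc.2 hSr) hcont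
  have hb0 : 0 < (ψ (s * ζ)).im := psi_upper hψ hζ him (lt_of_lt_of_le hr₀ hs.1)
  refine ⟨min (ζ.im / 2) ((ψ (s * ζ)).im / S), by positivity, ?_⟩
  intro r hr
  have hr1 : 1 < r := lt_of_lt_of_le hr₀ hr
  rcases le_total r S with h | h
  · have h1 := hmin (show r ∈ Icc r₀ S from ⟨hr, h⟩)
    simp only [mem_setOf_eq] at h1
    refine le_trans ?_ h1
    calc min (ζ.im / 2) ((ψ (s * ζ)).im / S) * r ≤ ((ψ (s * ζ)).im / S) * S := by
          apply mul_le_mul (min_le_right _ _) h (by linarith) (by positivity)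
      _ = _ := by field_simp
  · have h1 := hR (r * ζ) (by
      rw [norm_rz hζ hr1]
      exact le_trans (by rw [hS]; exact le_max_left _ _) h)
    rw [norm_rz hζ hr1] at h1
    have h2 := (abs_le.1 ((abs_im_le_norm _).trans h1)).1
    rw [Complex.sub_im, Complex.im_ofReal_mul] at h2
    have h3 : min (ζ.im / 2) ((ψ (s * ζ)).im / S) * r ≤ ζ.im / 2 * r :=
      mul_le_mul_of_nonneg_right (min_le_left _ _) (by linarith)
    linarith

theorem P_near_real {ζ : ℂ} (hζ : ‖ζ‖ = 1) {k : ℕ} (hk : ζ ^ (2 ^ k) = 1) {n : ℕ} (hn : k ≤ n)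
    {r : ℝ} (hr : 1 < r) :
    ‖P 2 (n + 1) (ψ (r * ζ)) - ((r ^ (2 ^ n) : ℝ) : ℂ)‖ ≤ 3 * r / r ^ (2 ^ n) := by
  have h1 := P_near hψ (w := r * ζ) (by rw [norm_rz hζ hr]; exact hr) n
  rw [norm_rz hζ hr] at h1
  have h2 : ζ ^ (2 ^ n) = 1 := by
    obtain ⟨j, rfl⟩ := Nat.exists_eq_add_of_le hn
    rw [pow_add, pow_mul, hk, one_pow]
  rw [mul_pow, h2, mul_one] at h1
  push_cast
  exact h1

theorem quad_step {ζ : ℂ} (hζ : ‖ζ‖ = 1) {k : ℕ} (hk : ζ ^ (2 ^ k) = 1)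
    {r₀ : ℝ} (hr₀ : 1 < r₀) {n : ℕ} (hn : k ≤ n)
    (hT : ∀ r, r₀ ≤ r → (P 2 (n + 2) (ψ (r * ζ))).im < (ψ (r * ζ)).im) :
    ∀ r, r₀ ≤ r → 0 < (P 2 (n + 1) (ψ (r * ζ))).re ∧ (P 2 (n + 1) (ψ (r * ζ))).im < 0 := by
  have hprod : ∀ r, r₀ ≤ r →
      (P 2 (n + 1) (ψ (r * ζ))).re * (P 2 (n + 1) (ψ (r * ζ))).im < 0 := by
    intro r hr
    have h1 := hT r hr
    rw [show n + 2 = (n + 1) + 1 by ring, P_succ, Complex.add_im, sq, Complex.mul_im] at h1
    linarith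
  intro r hr
  have hr1 : 1 < r := lt_of_lt_of_le hr₀ hr
  have hre : 0 < (P 2 (n + 1) (ψ (r * ζ))).re := by
    by_contra hcon
    push Not at hcon
    obtain ⟨S, hS⟩ : ∃ S, S = max r 4 := ⟨_, rfl⟩
    have hSr : r ≤ S := by rw [hS]; exact le_max_left _ _
    have hS4 : 4 ≤ S := by rw [hS]; exact le_max_right _ _
    have hcont : ContinuousOn (fun s : ℝ => (P 2 (n + 1) (ψ (s * ζ))).re) (Icc r S) := by
      apply Complex.continuous_re.comp_continuousOn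
      exact (P_cont hψ (n + 1) hζ).mono (fun s hs => lt_of_lt_of_le hr1 hs.1)
    have h1 := P_near_real hψ hζ hk hn (r := S) (by linarith)
    have h2 := (abs_le.1 ((abs_re_le_norm _).trans h1)).1
    rw [Complex.sub_re, Complex.ofReal_re] at h2
    have h3 : S ≤ S ^ (2 ^ n) := le_self_pow₀ (by linarith) (by positivity)
    have h4 : 3 * S / S ^ (2 ^ n) ≤ 3 := by
      rw [div_le_iff₀ (by linarith)]
      linarith
    have h5 := intermediate_value_Icc hSr hcont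
    obtain ⟨s, hs, hs2⟩ := h5 (show (0 : ℝ) ∈ Icc _ _ from ⟨hcon, by linarith⟩)
    simp only at hs2
    have h6 := hprod s (hr.trans hs.1)
    rw [hs2, zero_mul] at h6
    exact lt_irrefl _ h6
  refine ⟨hre, ?_⟩
  have h7 := hprod r hr
  by_contra hcon
  push Not at hcon
  have := mul_nonneg hre.le hcon
  linarith

/-- on the ray of a dyadic angle in `(0, 1/2)` the critical orbit ends in the fourth quadrant -/
theorem quad {ζ : ℂ} (hζ : ‖ζ‖ = 1) (him : 0 < ζ.im) {k : ℕ} (hk : ζ ^ (2 ^ k) = 1)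
    {n : ℕ} (hn : k ≤ n) {r : ℝ} (hr : 1 < r) :
    0 < (P 2 (n + 1) (ψ (r * ζ))).re ∧ (P 2 (n + 1) (ψ (r * ζ))).im < 0 := by
  obtain ⟨b₁, hb₁, hb⟩ := im_lower hψ hζ him hr
  have hlim : Tendsto (fun n : ℕ => r ^ (2 ^ n)) atTop atTop :=
    (tendsto_pow_atTop_atTop_of_one_lt hr).comp (tendsto_pow_atTop_atTop_of_one_lt (by norm_num))
  obtain ⟨N, hN⟩ := eventually_atTop.1 (hlim.eventually (eventually_gt_atTop (3 / b₁)))
  have hT : ∀ n, N ≤ n → k ≤ n → ∀ s, r ≤ s →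
      (P 2 (n + 1) (ψ (s * ζ))).im < (ψ (s * ζ)).im := by
    intro n h1 h2 s hs
    have hs1 : 1 < s := lt_of_lt_of_le hr hs
    have h3 := P_near_real hψ hζ hk h2 hs1
    have h4 := (abs_le.1 ((abs_im_le_norm _).trans h3)).2
    rw [Complex.sub_im, Complex.ofReal_im, sub_zero] at h4
    refine lt_of_lt_of_le (lt_of_le_of_lt h4 ?_) (hb s hs)
    have h5 := hN n h1
    have h6 : r ^ (2 ^ n) ≤ s ^ (2 ^ n) := pow_le_pow_left₀ (by linarith) hs _
    rw [div_lt_iff₀ hb₁] at h5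
    rw [div_lt_iff₀ (by positivity)]
    have h7 : 3 < s ^ (2 ^ n) * b₁ := lt_of_lt_of_le h5 (mul_le_mul_of_nonneg_right h6 hb₁.le)
    have h8 := mul_lt_mul_of_pos_right h7 (show (0 : ℝ) < s by linarith)
    linarith
  have key : ∀ d n, k ≤ n → N ≤ n + d → ∀ s, r ≤ s →
      0 < (P 2 (n + 1) (ψ (s * ζ))).re ∧ (P 2 (n + 1) (ψ (s * ζ))).im < 0 := by
    intro d
    induction d with
    | zero =>
      intro n h1 h2
      exact quad_step hψ hζ hk hr h1 (fun s hs => hT (n + 1) (by omega) (by omega) s hs)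
    | succ d ih =>
      intro n h1 h2
      refine quad_step hψ hζ hk hr h1 (fun s hs => ?_)
      have h3 := (ih (n + 1) (by omega) (by omega) s hs).2
      have h4 := psi_upper hψ hζ him (lt_of_lt_of_le hr hs)
      exact h3.trans h4
  exact key N n hn (by omega) r le_rfl

/-- the angle `1/2` -/
theorem quad_neg {r : ℝ} (hr : 1 < r) (n : ℕ) :
    2 < (P 2 (n + 2) (ψ (r * (-1)))).re ∧ (P 2 (n + 2) (ψ (r * (-1)))).im = 0 := by
  obtain ⟨c, hc, hc2⟩ := psi_real_neg hψ hr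
  have h1 : (r : ℂ) * (-1) = ((-r : ℝ) : ℂ) := by push_cast; ring
  rw [h1, hc, P_real, Complex.ofReal_re, Complex.ofReal_im]
  refine ⟨?_, rfl⟩
  have key : ∀ n, -c ≤ pr c (n + 2) := by
    intro n
    induction n with
    | zero => simp only [pr]; nlinarith
    | succ n ih =>
      rw [show n + 1 + 2 = (n + 2) + 1 by ring, pr_succ]
      nlinarith
  linarith [key n]

end

end Pool.Agent.H13MD
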