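import Pool.Agent.H13MD.Top

set_option autoImplicit false

/-! # The positive and the negative Laurent coefficients -/

namespace Pool.Agent.H13MD

open Complex Metric Set Filter Topology Bornology Asymptotics Pool.Agent.H712R2
  Pool.Agent.H713R2 N62a1eb23

theorem signed_one {B : ℕ → ℝ} {c : ℝ} {A : ℕ} (hc : 0 < c) (hA : 1 ≤ A)
    (h : ∀ᶠ N : ℕ in atTop, c / Real.log N ≤ ∑ m ∈ Finset.Ico N (N ^ A), max (B m) 0) :
    (∀ᶠ N : ℕ in atTop, c ^ 2 / (2 * A) / Real.log N ^ 3 ≤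
      ∑ m ∈ Finset.Ico N (N ^ A), (m : ℝ) * max (B m) 0 ^ 2) ∧
    ¬ Summable (fun m : ℕ => (m : ℝ) * max (B m) 0 ^ 2 * Real.log m ^ 3) := by
  have hn : ∀ m, ‖((max (B m) 0 : ℝ) : ℂ)‖ = max (B m) 0 := by
    intro m
    rw [Complex.norm_real, Real.norm_eq_abs, abs_of_nonneg (le_max_right _ _)]
  obtain ⟨N₀, hN₀⟩ := eventually_atTop.1 (h.and (eventually_ge_atTop 2))
  have hN₀2 : 2 ≤ N₀ := (hN₀ N₀ le_rfl).2
  constructor
  · filter_upwards [h, eventually_ge_atTop 2] with N hN hN2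
    have h1 := Pool.Agent.W677.MB.sq_of_window (b := fun m => ((max (B m) 0 : ℝ) : ℂ)) hc
      (D := (A : ℝ)) (p := 1) (n := N ^ A) hN2 (Nat.le_self_pow (by omega) N) (by
        rw [pow_one]
        push_cast
        rw [Real.log_pow]) (by simpa only [hn] using hN)
    simpa only [hn] using h1
  · have h2 := Pool.Agent.W677.MB.not_summable_of_window
      (b := fun m => ((max (B m) 0 : ℝ) : ℂ)) (c := c ^ 2 / 4) (by positivity)
      (n := fun N => (max N N₀) ^ A) (fun N hN => by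
        have h3 := (hN₀ (max N N₀) (le_max_right _ _)).1
        have h4 := Pool.Agent.W677.MB.log_sq_of_window
          (b := fun m => ((max (B m) 0 : ℝ) : ℂ)) hc (N := max N N₀) (n := (max N N₀) ^ A)
          (hN.trans (le_max_left _ _)) (Nat.le_self_pow (by omega) _)
          (by simpa only [hn] using h3)
        refine h4.trans ?_
        apply Finset.sum_le_sum_of_subset_of_nonneg
        · exact Finset.Ico_subset_Ico (le_max_left _ _) le_rfl
        · intro m hm _
          have : 0 ≤ Real.log m := Real.log_nonneg (by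
            have := (Finset.mem_Ico.1 hm).1
            exact_mod_cast (show 1 ≤ m by omega))
          positivity)
    simpa only [hn] using h2

theorem signed :
    (∃ (ψ : ℂ → ℂ) (b : ℕ → ℂ), IsExteriorMap mandelbrotSet ψ ∧ HasLaurent ψ b) ∧
    ∀ (ψ : ℂ → ℂ) (b : ℕ → ℂ), IsExteriorMap mandelbrotSet ψ → HasLaurent ψ b →
      (∀ m, (b m).im = 0) ∧
      (∃ (c : ℝ) (A : ℕ), 0 < c ∧ ∀ᶠ N : ℕ in atTop,
        (c / Real.log N ≤ ∑ m ∈ Finset.Ico N (N ^ A), max (b m).re 0 ∧
          c / Real.log N ^ 3 ≤ ∑ m ∈ Finset.Ico N (N ^ A), (m : ℝ) * max (b m).re 0 ^ 2) ∧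
        (c / Real.log N ≤ ∑ m ∈ Finset.Ico N (N ^ A), max (-(b m).re) 0 ∧
          c / Real.log N ^ 3 ≤ ∑ m ∈ Finset.Ico N (N ^ A), (m : ℝ) * max (-(b m).re) 0 ^ 2)) ∧
      ¬ Summable (fun m : ℕ => (m : ℝ) * max (b m).re 0 ^ 2 * Real.log m ^ 3) ∧
      ¬ Summable (fun m : ℕ => (m : ℝ) * max (-(b m).re) 0 ^ 2 * Real.log m ^ 3) := by
  refine ⟨main.1, fun ψ b hψ hb => ?_⟩
  obtain ⟨him, -, c, A, hc, hw⟩ := main.2 ψ b hψ hb
  have hA : 1 ≤ A := by
    by_contra hcon
    have hA0 : A = 0 := by omega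
    obtain ⟨N, hN, hN2⟩ := (hw.and (eventually_ge_atTop 2)).exists
    have h1 := hN.1
    rw [hA0, pow_zero, Finset.Ico_eq_empty (by omega), Finset.sum_empty] at h1
    have h2 : 0 < Real.log N := Real.log_pos (by exact_mod_cast (show 1 < N by omega))
    have h3 : 0 < c / Real.log N := by positivity
    linarith
  have hA0 : (1 : ℝ) ≤ A := by exact_mod_cast hA
  obtain ⟨s1, s2⟩ := signed_one (B := fun m => (b m).re) hc hA (hw.mono fun N hN => hN.1)
  obtain ⟨t1, t2⟩ := signed_one (B := fun m => -(b m).re) hc hA (hw.mono fun N hN => hN.2)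
  refine ⟨him, ⟨min c (c ^ 2 / (2 * A)), A, by positivity, ?_⟩, s2, t2⟩
  filter_upwards [hw, s1, t1, eventually_ge_atTop 2] with N h1 h2 h3 hN2
  have hl : 0 < Real.log N := Real.log_pos (by exact_mod_cast (show 1 < N by omega))
  refine ⟨⟨?_, ?_⟩, ?_, ?_⟩
  · exact (div_le_div_of_nonneg_right (min_le_left _ _) hl.le).trans h1.1
  · exact (div_le_div_of_nonneg_right (min_le_right _ _) (by positivity)).trans h2
  · exact (div_le_div_of_nonneg_right (min_le_left _ _) hl.le).trans h1.2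
  · exact (div_le_div_of_nonneg_right (min_le_right _ _) (by positivity)).trans h3

end Pool.Agent.H13MD
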