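import Pool.Agent.H713R2.Main3
import Mathlib.Analysis.Calculus.Deriv.Star

set_option autoImplicit false

/-! # The exterior map of the Mandelbrot set: symmetry, real axis, upper half plane -/

namespace Pool.Agent.H13MD

open Complex Metric Set Filter Topology Bornology Pool.Agent.H712R2 Pool.Agent.H713R2 N62a1eb23
open scoped ComplexConjugate

theorem P_conj (n : ℕ) (c : ℂ) : P 2 n (conj c) = conj (P 2 n c) := by
  induction n with
  | zero => simp [P_zero]
  | succ n ih => rw [P_succ, P_succ, ih, map_add, map_pow]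

theorem conj_mem (c : ℂ) : conj c ∈ multibrotSet 2 ↔ c ∈ multibrotSet 2 := by
  rw [mem_multibrot_iff le_rfl, mem_multibrot_iff le_rfl]
  simp only [P_conj, Complex.norm_conj]

/-- the real critical orbit -/
def pr (c : ℝ) : ℕ → ℝ
  | 0 => 0
  | n + 1 => pr c n ^ 2 + c

theorem pr_succ (c : ℝ) (n : ℕ) : pr c (n + 1) = pr c n ^ 2 + c := rfl

theorem P_real (c : ℝ) (n : ℕ) : P 2 n (c : ℂ) = ((pr c n : ℝ) : ℂ) := by
  induction n with
  | zero => simp [P_zero, pr]
  | succ n ih => rw [P_succ, ih, pr_succ]; push_cast; ring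

theorem real_mem {c : ℝ} (h1 : -2 ≤ c) (h2 : c ≤ 1 / 4) : (c : ℂ) ∈ multibrotSet 2 := by
  rw [mem_multibrot_iff le_rfl]
  obtain ⟨s, hs⟩ : ∃ s, s = Real.sqrt (1 - 4 * c) := ⟨_, rfl⟩
  have hs0 : 0 ≤ s := by rw [hs]; exact Real.sqrt_nonneg _
  have hs2 : s ^ 2 = 1 - 4 * c := by rw [hs]; exact Real.sq_sqrt (by linarith)
  obtain ⟨B, hB⟩ : ∃ B, B = (1 + s) / 2 := ⟨_, rfl⟩
  have hBB : B ^ 2 + c = B := by rw [hB]; nlinarith
  have hs3 : s ≤ 3 := by nlinarith
  have hB2 : B ≤ 2 := by rw [hB]; linarith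
  have hB0 : 0 ≤ B := by rw [hB]; linarith
  have key : ∀ k, |pr c k| ≤ B := by
    intro k
    induction k with
    | zero => simpa [pr] using hB0
    | succ k ih =>
      rw [pr_succ, abs_le]
      obtain ⟨h3, h4⟩ := abs_le.1 ih
      constructor
      · nlinarith [sq_nonneg (pr c k)]
      · nlinarith
  intro k
  rw [P_real, Complex.norm_real, Real.norm_eq_abs]
  exact (key k).trans hB2

section

variable {ψ : ℂ → ℂ} (hψ : IsExteriorMap (multibrotSet 2) ψ)

include hψ

theorem isOpen_ext : IsOpen {z : ℂ | 1 < ‖z‖} := isOpen_lt continuous_const continuous_norm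

omit hψ in
theorem isOpen_ext' : IsOpen {z : ℂ | 1 < ‖z‖} := isOpen_lt continuous_const continuous_norm

theorem ext_conj : IsExteriorMap (multibrotSet 2) (fun z => conj (ψ (conj z))) := by
  refine ⟨?_, ?_, ?_, ?_⟩
  · intro z hz
    have h1 : 1 < ‖conj z‖ := by rw [Complex.norm_conj]; exact hz
    have h2 : DifferentiableAt ℂ ψ (conj z) := hψ.diff.differentiableAt (isOpen_ext'.mem_nhds h1)
    have h3 := h2.conj_conj
    rw [Complex.conj_conj] at h3
    exact h3.differentiableWithinAt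
  · intro z hz w hw h
    have h1 : 1 < ‖conj z‖ := by rw [Complex.norm_conj]; exact hz
    have h2 : 1 < ‖conj w‖ := by rw [Complex.norm_conj]; exact hw
    have h3 := (starRingEnd ℂ).injective h
    exact (starRingEnd ℂ).injective (hψ.inj h1 h2 h3)
  · ext c
    constructor
    · rintro ⟨z, hz, rfl⟩
      have h1 : 1 < ‖conj z‖ := by rw [Complex.norm_conj]; exact hz
      have h2 : ψ (conj z) ∈ (multibrotSet 2)ᶜ := by
        rw [← hψ.image]
        exact mem_image_of_mem _ h1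
      intro h3
      simp only at h3
      rw [conj_mem] at h3
      exact h2 h3
    · intro hc
      have h1 : conj c ∈ (multibrotSet 2)ᶜ := by
        intro h
        rw [conj_mem] at h
        exact hc h
      rw [← hψ.image] at h1
      obtain ⟨w, hw, hw2⟩ := h1
      refine ⟨conj w, ?_, ?_⟩
      · show 1 < ‖conj w‖
        rw [Complex.norm_conj]
        exact hw
      · simp only [Complex.conj_conj]
        rw [hw2, Complex.conj_conj]
  · have h1 : Tendsto (fun z : ℂ => conj z) (cobounded ℂ) (cobounded ℂ) := by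
      rw [← tendsto_norm_atTop_iff_cobounded]
      simp only [Complex.norm_conj]
      exact tendsto_norm_cobounded_atTop
    have h2 := hψ.infinity.comp h1
    have h3 := (Complex.continuous_conj.tendsto (1 : ℂ)).comp h2
    rw [map_one] at h3
    refine h3.congr fun z => ?_
    simp only [Function.comp_apply, map_div₀, Complex.conj_conj]

theorem ext_unique {φ : ℂ → ℂ} (hφ : IsExteriorMap (multibrotSet 2) φ) {z : ℂ} (hz : 1 < ‖z‖) :
    φ z = ψ z := by
  obtain ⟨β, hβ⟩ := exists_beta (d := 2) le_rfl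
  rw [exteriorMap_unique hβ hψ hz, exteriorMap_unique hβ hφ hz]

theorem psi_conj {z : ℂ} (hz : 1 < ‖z‖) : ψ (conj z) = conj (ψ z) := by
  have h1 := ext_unique hψ (ext_conj hψ) hz
  rw [← h1, Complex.conj_conj]

theorem coeff_real {b : ℕ → ℂ} (hb : HasLaurent ψ b) (m : ℕ) : ((b m).re : ℂ) = b m := by
  have h1 : HasLaurent ψ (fun m => conj (b m)) := by
    intro z hz
    have h2 : 1 < ‖conj z‖ := by rw [Complex.norm_conj]; exact hz
    have h3 := (hb _ h2).map (starRingEnd ℂ) Complex.continuous_conj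
    rw [psi_conj hψ hz, map_sub, Complex.conj_conj, Complex.conj_conj] at h3
    refine h3.congr_fun fun m => ?_
    simp only [Function.comp_apply, map_div₀, map_pow, Complex.conj_conj]
  have h2 := congrFun (laurent_unique hb h1) m
  exact Complex.conj_eq_iff_real.1 h2.symm |>.elim fun r hr => by rw [hr, Complex.ofReal_re]

theorem psi_notMem {z : ℂ} (hz : 1 < ‖z‖) : ψ z ∉ multibrotSet 2 := by
  have h1 : ψ z ∈ (multibrotSet 2)ᶜ := by
    rw [← hψ.image]
    exact mem_image_of_mem _ hz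
  exact h1

theorem psi_cont : ContinuousOn ψ {z : ℂ | 1 < ‖z‖} := hψ.diff.continuousOn

/-- real points are mapped to real points outside of `[-2, 1/4]`, and only real points are -/
theorem real_iff {z : ℂ} (hz : 1 < ‖z‖) : (ψ z).im = 0 ↔ z.im = 0 := by
  constructor
  · intro h
    have h1 : conj (ψ z) = ψ z := Complex.conj_eq_iff_im.2 h
    rw [← psi_conj hψ hz] at h1
    have h2 : 1 < ‖conj z‖ := by rw [Complex.norm_conj]; exact hz
    exact Complex.conj_eq_iff_im.1 (hψ.inj h2 hz h1)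
  · intro h
    have h1 : conj z = z := Complex.conj_eq_iff_im.2 h
    have h2 := psi_conj hψ hz
    rw [h1] at h2
    exact Complex.conj_eq_iff_im.1 h2.symm

theorem near_inf : ∃ R : ℝ, 1 < R ∧ ∀ z : ℂ, R ≤ ‖z‖ → ‖ψ z - z‖ ≤ ‖z‖ / 4 := by
  have h1 := hψ.infinity.eventually (ball_mem_nhds (1 : ℂ) (show (0 : ℝ) < 1 / 4 by norm_num))
  rw [← comap_norm_atTop] at h1
  rw [eventually_comap] at h1
  obtain ⟨R, hR⟩ := eventually_atTop.1 h1
  refine ⟨max R 2, lt_of_lt_of_le (by norm_num) (le_max_right _ _), ?_⟩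
  intro z hz
  have h2 := hR ‖z‖ ((le_max_left _ _).trans hz) z rfl
  have hz0 : 0 < ‖z‖ := lt_of_lt_of_le (by norm_num) ((le_max_right R 2).trans hz)
  have hzne : z ≠ 0 := norm_pos_iff.1 hz0
  rw [dist_eq_norm] at h2
  have h3 : ψ z - z = (ψ z / z - 1) * z := by field_simp
  rw [h3, norm_mul]
  nlinarith

theorem psi_real_pos {r : ℝ} (hr : 1 < r) : ∃ c : ℝ, ψ r = c ∧ 1 / 4 < c := by
  have hn : ∀ s : ℝ, 1 < s → 1 < ‖(s : ℂ)‖ := fun s hs => by
    rw [Complex.norm_real, Real.norm_eq_abs, abs_of_pos (by linarith)]; exact hs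
  have him : ∀ s : ℝ, 1 < s → ψ s = ((ψ s).re : ℂ) := fun s hs => by
    apply Complex.ext
    · simp
    · rw [Complex.ofReal_im]
      exact (real_iff hψ (hn s hs)).2 (Complex.ofReal_im s)
  have hav : ∀ s : ℝ, 1 < s → (ψ s).re < -2 ∨ 1 / 4 < (ψ s).re := fun s hs => by
    by_contra h
    push Not at h
    have h1 := real_mem h.1 h.2
    rw [← him s hs] at h1
    exact psi_notMem hψ (hn s hs) h1
  refine ⟨(ψ r).re, him r hr, ?_⟩
  rcases hav r hr with h | h
  swap
  · exact h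
  exfalso
  obtain ⟨R, hR1, hR⟩ := near_inf hψ
  obtain ⟨S, hS⟩ : ∃ S, S = max R r := ⟨_, rfl⟩
  have hS1 : 1 < S := by rw [hS]; exact lt_of_lt_of_le hR1 (le_max_left _ _)
  have hSn : ‖(S : ℂ)‖ = S := by
    rw [Complex.norm_real, Real.norm_eq_abs, abs_of_pos (by linarith)]
  have h2 := hR S (by rw [hSn, hS]; exact le_max_left _ _)
  have h3 := (abs_le.1 ((abs_re_le_norm (ψ S - S)).trans h2)).1
  rw [hSn, Complex.sub_re, Complex.ofReal_re] at h3
  have hcont : ContinuousOn (fun s : ℝ => (ψ s).re) (Icc r S) := by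
    apply Complex.continuous_re.comp_continuousOn
    exact (psi_cont hψ).comp Complex.continuous_ofReal.continuousOn
      (fun s hs => hn s (lt_of_lt_of_le hr hs.1))
  have h4 := intermediate_value_Icc (by rw [hS]; exact le_max_right _ _) hcont
  obtain ⟨s, hs, hs2⟩ := h4 (show (0 : ℝ) ∈ Icc _ _ from ⟨by linarith, by linarith⟩)
  simp only at hs2
  rcases hav s (lt_of_lt_of_le hr hs.1) with h5 | h5 <;> linarith

theorem psi_real_neg {r : ℝ} (hr : 1 < r) : ∃ c : ℝ, ψ (-r : ℝ) = c ∧ c < -2 := by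
  have hn : ∀ s : ℝ, 1 < s → 1 < ‖((-s : ℝ) : ℂ)‖ := fun s hs => by
    rw [Complex.norm_real, Real.norm_eq_abs, abs_neg, abs_of_pos (by linarith)]; exact hs
  have him : ∀ s : ℝ, 1 < s → ψ (-s : ℝ) = ((ψ (-s : ℝ)).re : ℂ) := fun s hs => by
    apply Complex.ext
    · simp
    · rw [Complex.ofReal_im]
      exact (real_iff hψ (hn s hs)).2 (Complex.ofReal_im _)
  have hav : ∀ s : ℝ, 1 < s → (ψ (-s : ℝ)).re < -2 ∨ 1 / 4 < (ψ (-s : ℝ)).re := fun s hs => by
    by_contra h
    push Not at h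
    have h1 := real_mem h.1 h.2
    rw [← him s hs] at h1
    exact psi_notMem hψ (hn s hs) h1
  refine ⟨(ψ (-r : ℝ)).re, him r hr, ?_⟩
  rcases hav r hr with h | h
  · exact h
  exfalso
  obtain ⟨R, hR1, hR⟩ := near_inf hψ
  obtain ⟨S, hS⟩ : ∃ S, S = max R r := ⟨_, rfl⟩
  have hS1 : 1 < S := by rw [hS]; exact lt_of_lt_of_le hR1 (le_max_left _ _)
  have hSn : ‖((-S : ℝ) : ℂ)‖ = S := by
    rw [Complex.norm_real, Real.norm_eq_abs, abs_neg, abs_of_pos (by linarith)]
  have h2 := hR (-S : ℝ) (by rw [hSn, hS]; exact le_max_left _ _)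
  have h3 := (abs_le.1 ((abs_re_le_norm (ψ (-S : ℝ) - (-S : ℝ))).trans h2)).2
  rw [hSn, Complex.sub_re, Complex.ofReal_re] at h3
  have hcont : ContinuousOn (fun s : ℝ => (ψ (-s : ℝ)).re) (Icc r S) := by
    apply Complex.continuous_re.comp_continuousOn
    exact (psi_cont hψ).comp
      (Complex.continuous_ofReal.comp continuous_neg).continuousOn
      (fun s hs => hn s (lt_of_lt_of_le hr hs.1))
  have h4 := intermediate_value_Icc' (by rw [hS]; exact le_max_right _ _) hcont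
  obtain ⟨s, hs, hs2⟩ := h4 (show (0 : ℝ) ∈ Icc _ _ from ⟨by linarith, by linarith⟩)
  simp only at hs2
  rcases hav s (lt_of_lt_of_le hr hs.1) with h5 | h5 <;> linarith

/-- the upper half plane is preserved (on rays) -/
theorem psi_upper {ζ : ℂ} (hζ : ‖ζ‖ = 1) (him : 0 < ζ.im) {r : ℝ} (hr : 1 < r) :
    0 < (ψ (r * ζ)).im := by
  have hn : ∀ s : ℝ, 1 < s → 1 < ‖(s : ℂ) * ζ‖ := fun s hs => by
    rw [norm_mul, hζ, Complex.norm_real, Real.norm_eq_abs, abs_of_pos (by linarith), mul_one]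
    exact hs
  have hne : ∀ s : ℝ, 1 < s → (ψ (s * ζ)).im ≠ 0 := fun s hs h => by
    have h1 := (real_iff hψ (hn s hs)).1 h
    rw [Complex.im_ofReal_mul] at h1
    rcases mul_eq_zero.1 h1 with h2 | h2 <;> linarith
  by_contra hcon
  have hcon' : (ψ (r * ζ)).im < 0 := lt_of_le_of_ne (not_lt.1 hcon) (hne r hr)
  -- large radius
  have h1 := hψ.infinity.eventually (ball_mem_nhds (1 : ℂ) (show (0 : ℝ) < ζ.im / 2 by linarith))
  rw [← comap_norm_atTop, eventually_comap] at h1
  obtain ⟨R, hR⟩ := eventually_atTop.1 h1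
  obtain ⟨S, hS⟩ : ∃ S, S = max R (r + 1) := ⟨_, rfl⟩
  have hSr : r ≤ S := by
    rw [hS]
    exact (by linarith : r ≤ r + 1).trans (le_max_right _ _)
  have hS1 : 1 < S := by linarith
  have hSn : ‖(S : ℂ) * ζ‖ = S := by
    rw [norm_mul, hζ, Complex.norm_real, Real.norm_eq_abs, abs_of_pos (by linarith), mul_one]
  have h2 := hR S (by rw [hS]; exact le_max_left _ _) (S * ζ) hSn
  rw [dist_eq_norm] at h2
  have hzne : (S : ℂ) * ζ ≠ 0 := by
    rw [← norm_pos_iff, hSn]
    linarith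
  have h3 : ‖ψ (S * ζ) - S * ζ‖ ≤ S * (ζ.im / 2) := by
    have h4 : ψ (S * ζ) - S * ζ = (ψ (S * ζ) / (S * ζ) - 1) * (S * ζ) := by
      rw [sub_mul, one_mul, div_mul_cancel₀ _ hzne]
    rw [h4, norm_mul, hSn]
    nlinarith
  have h4 := (abs_le.1 ((abs_im_le_norm (ψ (S * ζ) - S * ζ)).trans h3)).1
  rw [Complex.sub_im, Complex.im_ofReal_mul] at h4
  have hcont : ContinuousOn (fun s : ℝ => (ψ (s * ζ)).im) (Icc r S) := by
    apply Complex.continuous_im.comp_continuousOn
    refine (psi_cont hψ).comp (by fun_prop) (fun s hs => hn s (lt_of_lt_of_le hr hs.1))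
  have h5 := intermediate_value_Icc hSr hcont
  obtain ⟨s, hs, hs2⟩ := h5 (show (0 : ℝ) ∈ Icc _ _ from ⟨by linarith, by nlinarith⟩)
  exact hne s (lt_of_lt_of_le hr hs.1) hs2

end

end Pool.Agent.H13MD
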