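import Pool.Agent.H13MD.Fin

set_option autoImplicit false

/-! # The Laurent coefficients of the exterior map of the Mandelbrot set in residue classes -/

namespace Pool.Agent.H13MD

open Complex Metric Set Filter Topology Bornology Asymptotics Pool.Agent.H712R2
  Pool.Agent.H713R2 N62a1eb23

theorem norm_eq_re {ψ : ℂ → ℂ} (hψ : IsExteriorMap (multibrotSet 2) ψ) {b : ℕ → ℂ}
    (hb : HasLaurent ψ b) (m : ℕ) : ‖b m‖ = |(b m).re| := by
  rw [← coeff_real hψ hb m]
  simp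

theorem class_data {ψ : ℂ → ℂ} (hψ : IsExteriorMap (multibrotSet 2) ψ) {b : ℕ → ℂ}
    (hb : HasLaurent ψ b) (k a : ℕ) :
    (∀ m, |(if m % 2 ^ k = a then (b m).re else 0)| ≤ 2) ∧
    (Summable fun m : ℕ => (m : ℝ) * (if m % 2 ^ k = a then (b m).re else 0) ^ 2) ∧
    ∃ E : ℝ, ∀ n, ∑ m ∈ Finset.range n, (m : ℝ) *
      (if m % 2 ^ k = a then (b m).re else 0) ^ 2 ≤ E := by
  have h1 := coeff_summable hψ hb
  have h2 : ∀ m : ℕ, (m : ℝ) * (if m % 2 ^ k = a then (b m).re else 0) ^ 2 ≤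
      (m : ℝ) * ‖b m‖ ^ 2 := by
    intro m
    apply mul_le_mul_of_nonneg_left _ (Nat.cast_nonneg m)
    rw [norm_eq_re hψ hb, sq_abs]
    split_ifs
    · exact le_rfl
    · rw [zero_pow two_ne_zero]
      exact sq_nonneg _
  have h3 : ∀ m : ℕ, 0 ≤ (m : ℝ) * (if m % 2 ^ k = a then (b m).re else 0) ^ 2 := by
    intro m
    positivity
  have h4 := Summable.of_nonneg_of_le h3 h2 h1
  refine ⟨fun m => ?_, h4, _, fun n => h4.sum_le_tsum _ fun m _ => h3 m⟩
  split_ifs
  · rw [← norm_eq_re hψ hb]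
    exact Pool.Agent.W677.MB.coeff_le hψ hb m
  · simp

theorem main :
    (∃ (ψ : ℂ → ℂ) (b : ℕ → ℂ), IsExteriorMap mandelbrotSet ψ ∧ HasLaurent ψ b) ∧
    ∀ (ψ : ℂ → ℂ) (b : ℕ → ℂ), IsExteriorMap mandelbrotSet ψ → HasLaurent ψ b →
      (∀ m, (b m).im = 0) ∧
      (∀ k a : ℕ, a < 2 ^ k →
        (∃ s : ℝ,
          Tendsto (fun N : ℕ => ∑ m ∈ Finset.range N with m % 2 ^ k = a, (b m).re) atTop
            (𝓝 s) ∧
          ∃ (S : ℝ → ℝ) (C h₀ : ℝ), 0 < h₀ ∧ ∀ h ∈ Set.Ioo 0 h₀,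
            HasSum (fun m : ℕ => if m % 2 ^ k = a then (b m).re / (1 + h) ^ m else 0) (S h) ∧
            |S h - s - (Real.pi * Real.log 2) ^ 2 / (2 ^ k * Real.log h ^ 2)| ≤
              C / |Real.log h| ^ 3) ∧
        (∀ A η : ℝ, 1 < A → η < (Real.pi * Real.log 2) ^ 2 / 2 ^ k * (1 - 1 / A ^ 2) →
          ∀ᶠ N : ℕ in atTop, ∀ N' : ℕ, (N : ℝ) ^ A ≤ N' →
            η / Real.log N ^ 2 ≤
              ∑ m ∈ Finset.Ico N N' with m % 2 ^ k = a, max (-(b m).re) 0)) ∧
      (∃ (c : ℝ) (A : ℕ), 0 < c ∧ ∀ᶠ N : ℕ in atTop,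
        c / Real.log N ≤ ∑ m ∈ Finset.Ico N (N ^ A), max (b m).re 0 ∧
        c / Real.log N ≤ ∑ m ∈ Finset.Ico N (N ^ A), max (-(b m).re) 0) := by
  obtain ⟨β, hβ⟩ := exists_beta (d := 2) le_rfl
  refine ⟨⟨_, _, exteriorMap_of_beta hβ, laurent_of_beta hβ⟩, ?_⟩
  intro ψ b hψ hb
  refine ⟨fun m => ?_, fun k a ha => ?_, ?_⟩
  · rw [← coeff_real hψ hb m, Complex.ofReal_im]
  · obtain ⟨S, s, hS, hasy⟩ := class_asymp hψ hb k ha
    obtain ⟨hB2, hsum, E, hE⟩ := class_data hψ hb k a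
    obtain ⟨K, hK⟩ : ∃ K : ℝ, K = (Real.pi * Real.log 2) ^ 2 / 2 ^ k := ⟨_, rfl⟩
    have hK2 : ∀ h : ℝ, (Real.pi * Real.log 2) ^ 2 / (2 ^ k * Real.log h ^ 2) =
        K / Real.log h ^ 2 := by
      intro h
      rw [hK, div_div]
    have hasy2 : (fun h : ℝ => S h - s - K / (Real.log h) ^ 2) =O[𝓝[>] 0]
        (fun h : ℝ => 1 / |Real.log h| ^ 3) := by
      refine hasy.congr_left fun h => ?_
      rw [hK2]
    have hlim := abel_lim hasy2
    have hlog : Tendsto (fun h : ℝ => |Real.log h|) (𝓝[>] 0) atTop :=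
      tendsto_abs_atBot_atTop.comp Real.tendsto_log_nhdsGT_zero
    have hSs : Tendsto S (𝓝[>] 0) (𝓝 s) := by
      have h1 : Tendsto (fun h : ℝ => (|Real.log h| ^ 2)⁻¹) (𝓝[>] 0) (𝓝 0) :=
        tendsto_inv_atTop_zero.comp ((tendsto_pow_atTop (n := 2) (by norm_num)).comp hlog)
      have h2 := (h1.mul hlim).add_const s
      rw [zero_mul, zero_add] at h2
      refine h2.congr' ?_
      filter_upwards [hlog.eventually (eventually_gt_atTop 0)] with h hh
      have : Real.log h ≠ 0 := abs_pos.1 hh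
      rw [sq_abs]
      field_simp
      ring
    refine ⟨⟨s, ?_, ?_⟩, ?_⟩
    · have h1 := fejer hsum (h₁ := 1) one_pos (fun h hh => hS h hh.1) hSs
      refine h1.congr fun N => ?_
      rw [Finset.sum_filter]
    · obtain ⟨C, hC⟩ := hasy.bound
      have hpos : ∀ᶠ h : ℝ in 𝓝[>] 0, 0 < |Real.log h| := hlog.eventually (eventually_gt_atTop 0)
      obtain ⟨u, hu, hsub⟩ := (mem_nhdsGT_iff_exists_Ioo_subset).1 (hC.and hpos)
      refine ⟨S, C, u, hu, fun h hh => ⟨?_, ?_⟩⟩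
      · refine (hS h hh.1).congr_fun fun m => ?_
        split_ifs
        · rfl
        · simp
      · obtain ⟨h1, h2⟩ := hsub hh
        rw [Real.norm_eq_abs, Real.norm_eq_abs, abs_of_nonneg (a := 1 / |Real.log h| ^ 3)
          (by positivity), mul_one_div] at h1
        exact h1
    · intro A η hA hη
      have h1 := neg_windows hB2 hE hS hlim hA (by rw [hK]; exact hη)
      filter_upwards [h1] with N hN N' hN'
      refine (hN N' hN').trans (le_of_eq ?_)
      rw [Finset.sum_filter]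
      refine Finset.sum_congr rfl fun m _ => ?_
      split_ifs
      · rfl
      · simp
  · obtain ⟨S, s, hS, hasy⟩ := class_asymp hψ hb 0 (a := 0) (by norm_num)
    obtain ⟨hB2, hsum, E, hE⟩ := class_data hψ hb 0 0
    have hc : ∀ m : ℕ, (if m % 2 ^ 0 = 0 then (b m).re else 0) = (b m).re := by
      intro m
      rw [pow_zero, Nat.mod_one, if_pos rfl]
    simp only [hc] at hS hB2 hsum hE
    have hasy2 : (fun h : ℝ => S h - s - (Real.pi * Real.log 2) ^ 2 / (Real.log h) ^ 2) =O[𝓝[>] 0]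
        (fun h : ℝ => 1 / |Real.log h| ^ 3) := by
      refine hasy.congr_left fun h => ?_
      rw [pow_zero, one_mul]
    have hlim := abel_lim hasy2
    obtain ⟨c, A, hc0, hA, hw⟩ := Pool.Agent.W677.MB.window_final hψ hb
    have h1 := pos_windows hB2 hE hS hlim hc0 hA (fun N hN => by
      have := (hw N hN).1
      simpa only [norm_eq_re hψ hb] using this)
    have hlim' : Tendsto (fun h : ℝ => (Real.log h) ^ 2 * ((fun h => -S h) h - (-s))) (𝓝[>] 0)
        (𝓝 (-(Real.pi * Real.log 2) ^ 2)) := by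
      refine hlim.neg.congr fun h => ?_
      simp only
      ring
    have h2 := pos_windows (B := fun m => -(b m).re) (E := E) (T := fun h => -S h)
      (fun m => by rw [abs_neg]; exact hB2 m)
      (fun n => by simpa only [neg_sq] using hE n)
      (fun h hh => by
        refine (hS h hh).neg.congr_fun fun m => ?_
        rw [neg_div])
      hlim' hc0 hA (fun N hN => by
        have := (hw N hN).1
        simpa only [norm_eq_re hψ hb, abs_neg] using this)
    refine ⟨c / 32, 2 * A + 1, by positivity, ?_⟩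
    filter_upwards [h1, h2] with N a1 a2
    exact ⟨a1, a2⟩

end Pool.Agent.H13MD
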