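import Pool.Agent.H13MD.Cls
import Pool.Agent.W677.MB11

set_option autoImplicit false

/-! # Windows of Laurent coefficients: comparison with Abel sums -/

namespace Pool.Agent.H13MD

open Complex Metric Set Filter Topology Bornology Asymptotics Pool.Agent.H712R2
  Pool.Agent.H713R2 N62a1eb23

theorem coeff_summable {ψ : ℂ → ℂ} (hψ : IsExteriorMap (multibrotSet 2) ψ) {b : ℕ → ℂ}
    (hb : HasLaurent ψ b) : Summable fun m : ℕ => (m : ℝ) * ‖b m‖ ^ 2 := by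
  obtain ⟨β, hβ⟩ := exists_beta (d := 2) le_rfl
  have h1 := (summable_nat_add_iff 1).2 (dirichlet_beta hβ)
  refine Summable.of_nonneg_of_le (fun m => by positivity) (fun m => ?_) h1
  rw [exterior_coeff hβ hψ hb]
  push_cast
  have h2 : (0 : ℝ) ≤ ‖tc β (m + 1)‖ ^ 2 := by positivity
  nlinarith

/-- the weights -/
theorem weight_mem {h₁ h₂ : ℝ} (hh₂ : 0 < h₂) (hh : h₂ ≤ h₁) (m : ℕ) :
    0 ≤ ((1 + h₂) ^ m)⁻¹ - ((1 + h₁) ^ m)⁻¹ ∧ ((1 + h₂) ^ m)⁻¹ - ((1 + h₁) ^ m)⁻¹ ≤ 1 ∧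
      ((1 + h₂) ^ m)⁻¹ - ((1 + h₁) ^ m)⁻¹ ≤ m * h₁ ∧
      ((1 + h₂) ^ m)⁻¹ - ((1 + h₁) ^ m)⁻¹ ≤ ((1 + h₂)⁻¹) ^ m := by
  have h1 : 0 < ((1 + h₁) ^ m)⁻¹ := by have : 0 < 1 + h₁ := by linarith
                                       positivity
  have h2 : ((1 + h₂) ^ m)⁻¹ ≤ 1 := inv_le_one_of_one_le₀ (one_le_pow₀ (by linarith))
  have h3 : ((1 + h₁) ^ m)⁻¹ ≤ ((1 + h₂) ^ m)⁻¹ := by
    apply inv_anti₀ (by positivity)
    exact pow_le_pow_left₀ (by linarith) (by linarith) m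
  have h4 := one_sub_inv_pow_le (show 0 ≤ h₁ by linarith) m
  refine ⟨by linarith, by linarith, by linarith, ?_⟩
  rw [inv_pow]
  linarith

theorem inv_pow_le_exp {h : ℝ} (hh : 0 < h) (hh1 : h ≤ 1) (n : ℕ) :
    ((1 + h)⁻¹) ^ n ≤ Real.exp (-(n * h / 2)) := by
  have h1 : (1 + h)⁻¹ ≤ Real.exp (-(h / 2)) := by
    have h2 : 1 - h / 2 ≤ Real.exp (-(h / 2)) := by
      have := Real.add_one_le_exp (-(h / 2))
      linarith
    refine le_trans ?_ h2
    rw [← one_div, div_le_iff₀ (by linarith)]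
    nlinarith
  calc ((1 + h)⁻¹) ^ n ≤ (Real.exp (-(h / 2))) ^ n := pow_le_pow_left₀ (by positivity) h1 n
    _ = Real.exp (-(n * h / 2)) := by
        rw [← Real.exp_nat_mul]
        congr 1
        ring

/-- the part outside of the window -/
theorem outside {B : ℕ → ℝ} {E : ℝ} (hB2 : ∀ m, |B m| ≤ 2)
    (hE : ∀ n, ∑ m ∈ Finset.range n, (m : ℝ) * B m ^ 2 ≤ E)
    {T : ℝ → ℝ} (hT : ∀ h : ℝ, 0 < h → HasSum (fun m : ℕ => B m / (1 + h) ^ m) (T h))
    {h₁ h₂ : ℝ} (hh₂ : 0 < h₂) (hh : h₂ ≤ h₁) (hh₁ : h₁ ≤ 1) {N N' : ℕ} (hN : N ≤ N') :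
    |T h₂ - T h₁ - ∑ m ∈ Finset.Ico N N', B m * (((1 + h₂) ^ m)⁻¹ - ((1 + h₁) ^ m)⁻¹)| ≤
      N * (E + 1) * h₁ + 4 * Real.exp (-(N' * h₂ / 2)) / h₂ := by
  obtain ⟨w, hw⟩ : ∃ w : ℕ → ℝ, w = fun m => ((1 + h₂) ^ m)⁻¹ - ((1 + h₁) ^ m)⁻¹ := ⟨_, rfl⟩
  have hwm : ∀ m, 0 ≤ w m ∧ w m ≤ 1 ∧ w m ≤ m * h₁ ∧ w m ≤ ((1 + h₂)⁻¹) ^ m := by
    rw [hw]; exact fun m => weight_mem hh₂ hh m
  have h1 : HasSum (fun m => B m * w m) (T h₂ - T h₁) := by
    refine ((hT h₂ hh₂).sub (hT h₁ (by linarith))).congr_fun fun m => ?_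
    rw [hw]
    simp only [div_eq_mul_inv]
    ring
  have h2 : HasSum (fun m => if m ∈ Finset.Ico N N' then B m * w m else 0)
      (∑ m ∈ Finset.Ico N N', B m * w m) := by
    have h5 : HasSum (fun m : ℕ => if m ∈ Finset.Ico N N' then B m * w m else 0)
        (∑ m ∈ Finset.Ico N N', if m ∈ Finset.Ico N N' then B m * w m else 0) :=
      hasSum_sum_of_ne_finset_zero (fun m hm => by rw [if_neg hm])
    have h6 : ∑ m ∈ Finset.Ico N N', (if m ∈ Finset.Ico N N' then B m * w m else 0) =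
        ∑ m ∈ Finset.Ico N N', B m * w m :=
      Finset.sum_congr rfl fun m hm => by rw [if_pos hm]
    rwa [h6] at h5
  have h3 := h1.sub h2
  -- the dominating series
  obtain ⟨x, hx⟩ : ∃ x, x = (1 + h₂)⁻¹ := ⟨_, rfl⟩
  have hx0 : 0 < x := by rw [hx]; positivity
  have hx1 : x < 1 := by rw [hx]; exact inv_lt_one_of_one_lt₀ (by linarith)
  have hgeo := (hasSum_geometric_of_lt_one hx0.le hx1).mul_left (2 * x ^ N')
  have hd1 : HasSum (fun m : ℕ => if m < N then |B m| * (m * h₁) else 0)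
      (∑ m ∈ Finset.range N, |B m| * (m * h₁)) := by
    have h5 : HasSum (fun m : ℕ => if m < N then |B m| * (m * h₁) else 0)
        (∑ m ∈ Finset.range N, if m < N then |B m| * (m * h₁) else 0) :=
      hasSum_sum_of_ne_finset_zero (fun m hm => by
        rw [Finset.mem_range] at hm
        rw [if_neg hm])
    have h6 : ∑ m ∈ Finset.range N, (if m < N then |B m| * (m * h₁) else 0) =
        ∑ m ∈ Finset.range N, |B m| * (m * h₁) :=
      Finset.sum_congr rfl fun m hm => by rw [if_pos (Finset.mem_range.1 hm)]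
    rwa [h6] at h5
  have hd2 : HasSum (fun m : ℕ => if N' ≤ m then 2 * x ^ m else 0) (2 * x ^ N' * (1 - x)⁻¹) := by
    rw [← hasSum_nat_add_iff' N']
    have h4 : ∑ i ∈ Finset.range N', (if N' ≤ i then 2 * x ^ i else 0) = 0 :=
      Finset.sum_eq_zero fun i hi => by
        rw [if_neg (not_le.2 (Finset.mem_range.1 hi))]
    rw [h4, sub_zero]
    refine hgeo.congr_fun fun m => ?_
    rw [if_pos (by omega), pow_add]
    ring
  have hbd := h3.norm_le_of_bounded (hd1.add hd2) (fun m => ?_)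
  · rw [Real.norm_eq_abs] at hbd
    rw [hw] at hbd
    refine hbd.trans ?_
    have h5 : ∑ m ∈ Finset.range N, |B m| * (m * h₁) ≤ N * (E + 1) * h₁ := by
      rcases Nat.eq_zero_or_pos N with h0 | h0
      · rw [h0]; simp
      have hN0 : (0 : ℝ) < N := by exact_mod_cast h0
      have h6 : ∀ m ∈ Finset.range N, |B m| * (m * h₁) ≤
          h₁ * (N / 2 * ((m : ℝ) * B m ^ 2) + 1 / 2) := by
        intro m hm
        have hm1 : (m : ℝ) ≤ N := by exact_mod_cast (Finset.mem_range.1 hm).le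
        have hm0 : (0 : ℝ) ≤ m := Nat.cast_nonneg m
        have h7 : (m : ℝ) * |B m| ≤ N / 2 * ((m : ℝ) * B m ^ 2) + 1 / 2 := by
          have h8 : 0 ≤ (m : ℝ) / (2 * N) * (N * |B m| - 1) ^ 2 := by positivity
          have h9 : (m : ℝ) / (2 * N) * (N * |B m| - 1) ^ 2 =
              N / 2 * ((m : ℝ) * |B m| ^ 2) - m * |B m| + m / (2 * N) := by
            field_simp
            ring
          rw [sq_abs] at h9
          have h10 : (m : ℝ) / (2 * N) ≤ 1 / 2 := by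
            rw [div_le_div_iff₀ (by positivity) (by norm_num)]
            linarith
          linarith
        calc |B m| * (m * h₁) = h₁ * (m * |B m|) := by ring
          _ ≤ _ := mul_le_mul_of_nonneg_left h7 (by linarith)
      refine (Finset.sum_le_sum h6).trans ?_
      rw [← Finset.mul_sum, Finset.sum_add_distrib, ← Finset.mul_sum, Finset.sum_const,
        Finset.card_range, nsmul_eq_mul]
      have h7 := hE N
      have hE0 : 0 ≤ E := le_trans (by simp) (hE 0)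
      have h8 : (N : ℝ) / 2 * ∑ m ∈ Finset.range N, (m : ℝ) * B m ^ 2 ≤ N / 2 * E :=
        mul_le_mul_of_nonneg_left h7 (by positivity)
      have h9 : h₁ * ((N : ℝ) / 2 * ∑ m ∈ Finset.range N, (m : ℝ) * B m ^ 2 + N * (1 / 2)) ≤
          h₁ * (N / 2 * E + N * (1 / 2)) := mul_le_mul_of_nonneg_left (by linarith) (by linarith)
      refine h9.trans ?_
      have h10 : 0 ≤ h₁ * (N * E) := by
        have : 0 ≤ h₁ := by linarith
        positivity
      nlinarith [mul_nonneg (show 0 ≤ h₁ by linarith) hN0.le]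
    have h6 : 2 * x ^ N' * (1 - x)⁻¹ ≤ 4 * Real.exp (-(N' * h₂ / 2)) / h₂ := by
      have h7 : (1 - x)⁻¹ = (1 + h₂) / h₂ := by
        have h71 : 1 - x = h₂ / (1 + h₂) := by
          rw [hx]
          have : (1 + h₂) ≠ 0 := by positivity
          field_simp
          ring
        rw [h71, inv_div]
      have h8 := inv_pow_le_exp hh₂ (hh.trans hh₁) N'
      rw [← hx] at h8
      rw [h7]
      calc 2 * x ^ N' * ((1 + h₂) / h₂) ≤ 2 * Real.exp (-(N' * h₂ / 2)) * (2 / h₂) := by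
            gcongr
            linarith
        _ = _ := by ring
    linarith
  · have hm0 : (0 : ℝ) ≤ m := Nat.cast_nonneg m
    obtain ⟨g1, g2, g3, g4⟩ := hwm m
    rw [← hx] at g4
    have hxm : 0 < x ^ m := by positivity
    have hn1 : 0 ≤ |B m| * (m * h₁) := by
      have : 0 ≤ h₁ := by linarith
      positivity
    have e1 : |B m * w m| ≤ |B m| * (m * h₁) := by
      rw [abs_mul, abs_of_nonneg g1]
      exact mul_le_mul_of_nonneg_left g3 (abs_nonneg _)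
    have e2 : |B m * w m| ≤ 2 * x ^ m := by
      rw [abs_mul, abs_of_nonneg g1]
      exact mul_le_mul (hB2 m) g4 g1 (by norm_num)
    rw [Real.norm_eq_abs]
    by_cases c1 : m < N
    · rw [if_neg (by rw [Finset.mem_Ico]; omega), if_pos c1, sub_zero]
      have : 0 ≤ (if N' ≤ m then 2 * x ^ m else 0) := by
        split_ifs
        · positivity
        · exact le_rfl
      linarith
    · by_cases c2 : N' ≤ m
      · rw [if_neg (by rw [Finset.mem_Ico]; omega), if_neg c1, if_pos c2, sub_zero, zero_add]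
        exact e2
      · rw [if_pos (by rw [Finset.mem_Ico]; omega), if_neg c1, if_neg c2, sub_self, abs_zero,
          add_zero]

/-- the negative part of a window -/
theorem window_neg {B : ℕ → ℝ} {E : ℝ} (hB2 : ∀ m, |B m| ≤ 2)
    (hE : ∀ n, ∑ m ∈ Finset.range n, (m : ℝ) * B m ^ 2 ≤ E)
    {T : ℝ → ℝ} (hT : ∀ h : ℝ, 0 < h → HasSum (fun m : ℕ => B m / (1 + h) ^ m) (T h))
    {h₁ h₂ : ℝ} (hh₂ : 0 < h₂) (hh : h₂ ≤ h₁) (hh₁ : h₁ ≤ 1) {N N' : ℕ} (hN : N ≤ N') :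
    T h₁ - T h₂ ≤ ∑ m ∈ Finset.Ico N N', max (-B m) 0 +
      (N * (E + 1) * h₁ + 4 * Real.exp (-(N' * h₂ / 2)) / h₂) := by
  have h1 := outside hB2 hE hT hh₂ hh hh₁ hN
  have h2 := (abs_le.1 h1).1
  have h3 : -∑ m ∈ Finset.Ico N N', B m * (((1 + h₂) ^ m)⁻¹ - ((1 + h₁) ^ m)⁻¹) ≤
      ∑ m ∈ Finset.Ico N N', max (-B m) 0 := by
    rw [← Finset.sum_neg_distrib]
    refine Finset.sum_le_sum fun m _ => ?_
    obtain ⟨g1, g2, -, -⟩ := weight_mem hh₂ hh m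
    have h4 : -(B m * (((1 + h₂) ^ m)⁻¹ - ((1 + h₁) ^ m)⁻¹)) =
        (-B m) * (((1 + h₂) ^ m)⁻¹ - ((1 + h₁) ^ m)⁻¹) := by ring
    rw [h4]
    calc (-B m) * (((1 + h₂) ^ m)⁻¹ - ((1 + h₁) ^ m)⁻¹)
        ≤ max (-B m) 0 * (((1 + h₂) ^ m)⁻¹ - ((1 + h₁) ^ m)⁻¹) :=
          mul_le_mul_of_nonneg_right (le_max_left _ _) g1
      _ ≤ max (-B m) 0 * 1 := mul_le_mul_of_nonneg_left g2 (le_max_right _ _)
      _ = _ := mul_one _
  linarith

/-- the positive part of a window from the absolute sum -/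
theorem window_pos {B : ℕ → ℝ} {E : ℝ} (hB2 : ∀ m, |B m| ≤ 2)
    (hE : ∀ n, ∑ m ∈ Finset.range n, (m : ℝ) * B m ^ 2 ≤ E)
    {T : ℝ → ℝ} (hT : ∀ h : ℝ, 0 < h → HasSum (fun m : ℕ => B m / (1 + h) ^ m) (T h))
    {h₁ h₂ : ℝ} (hh₂ : 0 < h₂) (hh : h₂ ≤ h₁) (hh₁ : h₁ ≤ 1) {N N' M M' : ℕ} (hN : N ≤ N')
    (hM : N ≤ M) (hM' : M' ≤ N') {v : ℝ}
    (hv : ∀ m ∈ Finset.Ico M M', v ≤ ((1 + h₂) ^ m)⁻¹ - ((1 + h₁) ^ m)⁻¹) :
    v * ∑ m ∈ Finset.Ico M M', |B m| ≤ 2 * ∑ m ∈ Finset.Ico N N', max (B m) 0 + |T h₁ - T h₂| +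
      (N * (E + 1) * h₁ + 4 * Real.exp (-(N' * h₂ / 2)) / h₂) := by
  have h1 := outside hB2 hE hT hh₂ hh hh₁ hN
  have h2 := (abs_le.1 h1).1
  have h2' := (abs_le.1 h1).2
  obtain ⟨w, hw⟩ : ∃ w : ℕ → ℝ, w = fun m => ((1 + h₂) ^ m)⁻¹ - ((1 + h₁) ^ m)⁻¹ := ⟨_, rfl⟩
  have hwm : ∀ m, 0 ≤ w m ∧ w m ≤ 1 := by
    rw [hw]; exact fun m => ⟨(weight_mem hh₂ hh m).1, (weight_mem hh₂ hh m).2.1⟩
  have hwv : ∀ m ∈ Finset.Ico M M', v ≤ w m := by rw [hw]; exact hv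
  have e0 : ∑ m ∈ Finset.Ico N N', B m * (((1 + h₂) ^ m)⁻¹ - ((1 + h₁) ^ m)⁻¹) =
      ∑ m ∈ Finset.Ico N N', B m * w m := by rw [hw]
  rw [e0] at h2 h2'
  have h3 : v * ∑ m ∈ Finset.Ico M M', |B m| ≤ ∑ m ∈ Finset.Ico N N', |B m| * w m := by
    rw [Finset.mul_sum]
    calc ∑ m ∈ Finset.Ico M M', v * |B m| ≤ ∑ m ∈ Finset.Ico M M', |B m| * w m := by
          refine Finset.sum_le_sum fun m hm => ?_
          rw [mul_comm]
          exact mul_le_mul_of_nonneg_left (hwv m hm) (abs_nonneg _)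
      _ ≤ ∑ m ∈ Finset.Ico N N', |B m| * w m := by
          apply Finset.sum_le_sum_of_subset_of_nonneg
          · exact Finset.Ico_subset_Ico hM hM'
          · intro m _ _
            exact mul_nonneg (abs_nonneg _) (hwm m).1
  have h4 : ∑ m ∈ Finset.Ico N N', |B m| * w m ≤
      2 * ∑ m ∈ Finset.Ico N N', max (B m) 0 - ∑ m ∈ Finset.Ico N N', B m * w m := by
    rw [Finset.mul_sum, ← Finset.sum_sub_distrib]
    refine Finset.sum_le_sum fun m _ => ?_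
    obtain ⟨g1, g2⟩ := hwm m
    rcases le_total 0 (B m) with h5 | h5
    · rw [abs_of_nonneg h5, max_eq_left h5]
      nlinarith
    · rw [abs_of_nonpos h5, max_eq_right h5]
      linarith
  have h5 := neg_abs_le (T h₁ - T h₂)
  have h6 := le_abs_self (T h₁ - T h₂)
  linarith

end Pool.Agent.H13MD
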